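import Mathlib

set_option autoImplicit false

namespace Pool.Agent.Helper667.ACRel

open Function

section defs

variable (Ω : Type*) {G : Type*} [Group G] [Group Ω] [MulDistribMulAction Ω G] {k : ℕ}

/-- One elementary move. -/
def Step (a b : Fin k → G) : Prop :=
  (∃ i j : Fin k, i ≠ j ∧
    (b = Function.update a i (a i * a j) ∨
     b = Function.update a i (a i * (a j)⁻¹) ∨
     b = Function.update a i (a j * a i) ∨
     b = Function.update a i ((a j)⁻¹ * a i))) ∨
  (∃ i : Fin k, b = Function.update a i (a i)⁻¹) ∨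
  (∃ (i : Fin k) (g : G), b = Function.update a i (g⁻¹ * a i * g)) ∨
  (∃ (i : Fin k) (ω : Ω), b = Function.update a i (ω • a i))

/-- Equivalence by a chain of moves. -/
abbrev ACE (a b : Fin k → G) : Prop := Relation.ReflTransGen (Step Ω) a b

/-- Invariant normal subgroups. -/
def Inv (H : Subgroup G) : Prop := H.Normal ∧ ∀ ω : Ω, ∀ h ∈ H, ω • h ∈ H

/-- Normal generation. -/
def NGen (u : Fin k → G) : Prop :=
  ∀ H : Subgroup G, H.Normal → (∀ ω : Ω, ∀ h ∈ H, ω • h ∈ H) → (∀ i, u i ∈ H) → H = ⊤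

/-- The invariant normal closure of one element. -/
def cl (x : G) : Subgroup G := sInf {H | Inv Ω H ∧ x ∈ H}

/-- The invariant normal closure of the commutators of one element. -/
def W (x : G) : Subgroup G := sInf {H | Inv Ω H ∧ ∀ g : G, x * g * x⁻¹ * g⁻¹ ∈ H}

end defs

variable {Ω : Type*} {G : Type*} [Group G] [Group Ω] [MulDistribMulAction Ω G] {k : ℕ}

theorem step_symm {a b : Fin k → G} (h : Step Ω a b) : Step Ω b a := by
  rcases h with ⟨i, j, hij, h⟩ | ⟨i, rfl⟩ | ⟨i, g, rfl⟩ | ⟨i, ω, rfl⟩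
  · refine Or.inl ⟨i, j, hij, ?_⟩
    rcases h with rfl | rfl | rfl | rfl
    · refine Or.inr (Or.inl ?_)
      simp [Function.update_of_ne hij.symm]
    · refine Or.inl ?_
      simp [Function.update_of_ne hij.symm]
    · refine Or.inr (Or.inr (Or.inr ?_))
      simp [Function.update_of_ne hij.symm]
    · refine Or.inr (Or.inr (Or.inl ?_))
      simp [Function.update_of_ne hij.symm]
  · refine Or.inr (Or.inl ⟨i, ?_⟩)
    simp
  · refine Or.inr (Or.inr (Or.inl ⟨i, g⁻¹, ?_⟩))
    simp [mul_assoc]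
  · refine Or.inr (Or.inr (Or.inr ⟨i, ω⁻¹, ?_⟩))
    simp

theorem ACE.symm' {a b : Fin k → G} (h : ACE Ω a b) : ACE Ω b a := by
  induction h with
  | refl => exact Relation.ReflTransGen.refl
  | tail _ hs ih => exact Relation.ReflTransGen.head (step_symm hs) ih

theorem ACE.trans' {a b c : Fin k → G} (h : ACE Ω a b) (h' : ACE Ω b c) : ACE Ω a c :=
  Relation.ReflTransGen.trans h h'

theorem Inv.conj {H : Subgroup G} (hH : Inv Ω H) {x : G} (hx : x ∈ H) (g : G) :
    g⁻¹ * x * g ∈ H := by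
  have := hH.1.conj_mem x hx g⁻¹
  simpa using this

theorem step_mem {H : Subgroup G} (hH : Inv Ω H) {a b : Fin k → G} (h : Step Ω a b)
    (ha : ∀ l, a l ∈ H) : ∀ l, b l ∈ H := by
  intro l
  rcases h with ⟨i, j, hij, h⟩ | ⟨i, rfl⟩ | ⟨i, g, rfl⟩ | ⟨i, ω, rfl⟩
  · rcases h with rfl | rfl | rfl | rfl <;>
    · by_cases hl : l = i
      · subst hl
        simp only [Function.update_self]
        first
          | exact H.mul_mem (ha _) (ha _)
          | exact H.mul_mem (ha _) (H.inv_mem (ha _))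
          | exact H.mul_mem (H.inv_mem (ha _)) (ha _)
      · rw [Function.update_of_ne hl]; exact ha l
  · by_cases hl : l = i
    · subst hl; simpa using ha l
    · rw [Function.update_of_ne hl]; exact ha l
  · by_cases hl : l = i
    · subst hl; simpa using hH.conj (ha l) g
    · rw [Function.update_of_ne hl]; exact ha l
  · by_cases hl : l = i
    · subst hl; simpa using hH.2 ω _ (ha l)
    · rw [Function.update_of_ne hl]; exact ha l

theorem step_ngen {a b : Fin k → G} (h : Step Ω a b) (ha : NGen Ω a) : NGen Ω b :=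
  fun H h1 h2 h3 => ha H h1 h2 (step_mem ⟨h1, h2⟩ (step_symm h) h3)

theorem ace_ngen {a b : Fin k → G} (h : ACE Ω a b) (ha : NGen Ω a) : NGen Ω b := by
  induction h with
  | refl => exact ha
  | tail _ hs ih => exact step_ngen hs ih

/-- congruence modulo a subgroup -/
def Cong (N : Subgroup G) (a b : Fin k → G) : Prop := ∀ l, (a l)⁻¹ * b l ∈ N

theorem Cong.symm' {N : Subgroup G} {a b : Fin k → G} (h : Cong N a b) : Cong N b a := by
  intro l
  have := N.inv_mem (h l)
  simpa using this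

theorem Cong.trans' {N : Subgroup G} {a b c : Fin k → G} (h : Cong N a b) (h' : Cong N b c) :
    Cong N a c := by
  intro l
  have := N.mul_mem (h l) (h' l)
  simpa [mul_assoc] using this

theorem cong_update {N : Subgroup G} {a b : Fin k → G} (h : Cong N a b) (i : Fin k) {x y : G}
    (hxy : x⁻¹ * y ∈ N) : Cong N (update a i x) (update b i y) := by
  intro l
  by_cases hl : l = i
  · subst hl; simpa using hxy
  · rw [Function.update_of_ne hl, Function.update_of_ne hl]; exact h l

theorem cong_mul {N : Subgroup G} [N.Normal] {x y x' y' : G} (h : x⁻¹ * y ∈ N)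
    (h' : x'⁻¹ * y' ∈ N) : (x * x')⁻¹ * (y * y') ∈ N := by
  rw [← QuotientGroup.eq] at h h' ⊢
  simp [h, h']

theorem cong_inv {N : Subgroup G} [N.Normal] {x y : G} (h : x⁻¹ * y ∈ N) :
    (x⁻¹)⁻¹ * (y⁻¹) ∈ N := by
  rw [← QuotientGroup.eq] at h ⊢
  simp [h]

theorem lift_step {N : Subgroup G} (hN : Inv Ω N) {a b a' : Fin k → G} (h : Step Ω a b)
    (haa : Cong N a a') : ∃ b', Step Ω a' b' ∧ Cong N b b' := by
  have := hN.1
  rcases h with ⟨i, j, hij, h⟩ | ⟨i, rfl⟩ | ⟨i, g, rfl⟩ | ⟨i, ω, rfl⟩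
  · rcases h with rfl | rfl | rfl | rfl
    · exact ⟨_, Or.inl ⟨i, j, hij, Or.inl rfl⟩, cong_update haa i (cong_mul (haa i) (haa j))⟩
    · exact ⟨_, Or.inl ⟨i, j, hij, Or.inr (Or.inl rfl)⟩,
        cong_update haa i (cong_mul (haa i) (cong_inv (haa j)))⟩
    · exact ⟨_, Or.inl ⟨i, j, hij, Or.inr (Or.inr (Or.inl rfl))⟩,
        cong_update haa i (cong_mul (haa j) (haa i))⟩
    · exact ⟨_, Or.inl ⟨i, j, hij, Or.inr (Or.inr (Or.inr rfl))⟩,
        cong_update haa i (cong_mul (cong_inv (haa j)) (haa i))⟩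
  · exact ⟨_, Or.inr (Or.inl ⟨i, rfl⟩), cong_update haa i (cong_inv (haa i))⟩
  · refine ⟨_, Or.inr (Or.inr (Or.inl ⟨i, g, rfl⟩)), cong_update haa i ?_⟩
    have := hN.conj (haa i) g
    simpa [mul_assoc] using this
  · refine ⟨_, Or.inr (Or.inr (Or.inr ⟨i, ω, rfl⟩)), cong_update haa i ?_⟩
    have := hN.2 ω _ (haa i)
    simpa [smul_mul', smul_inv'] using this

theorem lift_ace {N : Subgroup G} (hN : Inv Ω N) {a b a' : Fin k → G} (h : ACE Ω a b)
    (haa : Cong N a a') : ∃ b', ACE Ω a' b' ∧ Cong N b b' := by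
  induction h with
  | refl => exact ⟨a', Relation.ReflTransGen.refl, haa⟩
  | tail _ hs ih =>
    obtain ⟨c, h1, h2⟩ := ih
    obtain ⟨b', h3, h4⟩ := lift_step hN hs h2
    exact ⟨b', Relation.ReflTransGen.tail h1 h3, h4⟩

/-! ### invariant subgroups -/

theorem inv_sInf {S : Set (Subgroup G)} (hS : ∀ H ∈ S, Inv Ω H) : Inv Ω (sInf S) := by
  refine ⟨⟨?_⟩, ?_⟩
  · intro n hn g
    rw [Subgroup.mem_sInf] at hn ⊢
    intro p hp
    exact (hS p hp).1.conj_mem n (hn p hp) g
  · intro ω n hn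
    rw [Subgroup.mem_sInf] at hn ⊢
    intro p hp
    exact (hS p hp).2 ω n (hn p hp)

theorem inv_inf {H K : Subgroup G} (h : Inv Ω H) (h' : Inv Ω K) : Inv Ω (H ⊓ K) := by
  have := h.1
  have := h'.1
  exact ⟨inferInstance, fun ω x hx => ⟨h.2 ω x hx.1, h'.2 ω x hx.2⟩⟩

theorem cl_inv (x : G) : Inv Ω (cl Ω x) := inv_sInf (fun _ h => h.1)
theorem W_inv (x : G) : Inv Ω (W Ω x) := inv_sInf (fun _ h => h.1)

theorem mem_cl (x : G) : x ∈ cl Ω x := by
  unfold cl
  rw [Subgroup.mem_sInf]
  exact fun p hp => hp.2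

theorem cl_le {H : Subgroup G} (hH : Inv Ω H) {x : G} (hx : x ∈ H) : cl Ω x ≤ H :=
  sInf_le ⟨hH, hx⟩

theorem comm_mem_W (x g : G) : x * g * x⁻¹ * g⁻¹ ∈ W Ω x := by
  unfold W
  rw [Subgroup.mem_sInf]
  exact fun p hp => hp.2 g

theorem W_le {H : Subgroup G} (hH : Inv Ω H) {x : G} (hx : ∀ g, x * g * x⁻¹ * g⁻¹ ∈ H) : W Ω x ≤ H :=
  sInf_le ⟨hH, hx⟩

theorem W_le_cl (x : G) : W Ω x ≤ cl Ω x := by
  refine W_le (cl_inv x) (fun g => ?_)
  have h1 := (cl_inv (Ω := Ω) x).1.conj_mem x⁻¹ (Subgroup.inv_mem _ (mem_cl x)) g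
  have := Subgroup.mul_mem _ (mem_cl (Ω := Ω) x) h1
  simpa [mul_assoc] using this

/-- The set of right multipliers available at coordinate `i`. -/
def slot (Ω : Type*) [Group Ω] [MulDistribMulAction Ω G] (b : Fin k → G) (i : Fin k) :
    Subgroup G where
  carrier := {n | ∀ x, ACE Ω (update b i x) (update b i (x * n))}
  one_mem' := by
    intro x
    rw [mul_one]
  mul_mem' := by
    intro m n hm hn x
    have h1 := hm x
    have h2 := hn (x * m)
    rw [mul_assoc] at h2
    exact h1.trans' h2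
  inv_mem' := by
    intro n hn x
    have h1 := hn (x * n⁻¹)
    rw [inv_mul_cancel_right] at h1
    exact h1.symm'

theorem ace_conj (b : Fin k → G) (i : Fin k) (x g : G) :
    ACE Ω (update b i x) (update b i (g⁻¹ * x * g)) := by
  refine Relation.ReflTransGen.single (Or.inr (Or.inr (Or.inl ⟨i, g, ?_⟩)))
  simp

theorem ace_smul (b : Fin k → G) (i : Fin k) (x : G) (ω : Ω) :
    ACE Ω (update b i x) (update b i (ω • x)) := by
  refine Relation.ReflTransGen.single (Or.inr (Or.inr (Or.inr ⟨i, ω, ?_⟩)))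
  simp

theorem slot_inv (b : Fin k → G) (i : Fin k) : Inv Ω (slot Ω b i) := by
  refine ⟨⟨?_⟩, ?_⟩
  · intro n hn g x
    have h1 := ace_conj (Ω := Ω) b i x g
    have h2 := hn (g⁻¹ * x * g)
    have h3 := ace_conj (Ω := Ω) b i (g⁻¹ * x * g * n) g⁻¹
    have h4 := (h1.trans' h2).trans' h3
    simpa [mul_assoc] using h4
  · intro ω n hn x
    have h1 := ace_smul (Ω := Ω) b i x ω⁻¹
    have h2 := hn (ω⁻¹ • x)
    have h3 := ace_smul (Ω := Ω) b i (ω⁻¹ • x * n) ω
    have h4 := (h1.trans' h2).trans' h3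
    simpa [smul_mul'] using h4

theorem mem_slot (b : Fin k → G) {i j : Fin k} (hij : i ≠ j) : b j ∈ slot Ω b i := by
  intro x
  refine Relation.ReflTransGen.single (Or.inl ⟨i, j, hij, Or.inl ?_⟩)
  simp [Function.update_of_ne hij.symm]

theorem ace_mul (b : Fin k → G) {i j : Fin k} (hij : i ≠ j) {n : G} (hn : n ∈ cl Ω (b j)) :
    ACE Ω b (update b i (b i * n)) := by
  have := (cl_le (slot_inv (Ω := Ω) b i) (mem_slot b hij)) hn (b i)
  simpa using this

theorem ace_set (b : Fin k → G) {i j : Fin k} (hij : i ≠ j) {y : G}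
    (hn : (b i)⁻¹ * y ∈ cl Ω (b j)) : ACE Ω b (update b i y) := by
  have := ace_mul (Ω := Ω) b hij hn
  simpa using this

theorem ace_all {M : Subgroup G} (a v : Fin k → G) (hav : Cong M a v) {i : Fin k}
    (hM : M ≤ cl Ω (a i)) (s : Finset (Fin k)) (hs : i ∉ s) : ACE Ω a (s.piecewise v a) := by
  classical
  induction s using Finset.induction_on with
  | empty => simpa using Relation.ReflTransGen.refl
  | insert j s hj ih =>
    have hi : i ∉ s := fun h => hs (Finset.mem_insert_of_mem h)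
    have hij : j ≠ i := fun h => hs (h ▸ Finset.mem_insert_self _ _)
    refine (ih hi).trans' ?_
    rw [Finset.piecewise_insert]
    refine ace_set _ hij ?_
    rw [Finset.piecewise_eq_of_notMem _ _ _ hj, Finset.piecewise_eq_of_notMem _ _ _ hi]
    exact hM (hav j)

theorem ace_all' {M : Subgroup G} (a v : Fin k → G) (hav : Cong M a v) {i : Fin k}
    (hM : M ≤ cl Ω (a i)) : ACE Ω a (update v i (a i)) := by
  classical
  have := ace_all a v hav hM (Finset.univ.erase i) (by simp)
  convert this using 1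
  funext l
  by_cases hl : l = i
  · subst hl; simp [Finset.piecewise]
  · simp [Finset.piecewise, hl]


/-! ### minimal invariant subgroups -/

/-- minimal nontrivial invariant subgroup -/
def Minl (Ω : Type*) [Group Ω] [MulDistribMulAction Ω G] (M : Subgroup G) : Prop :=
  Inv Ω M ∧ M ≠ ⊥ ∧ ∀ H : Subgroup G, Inv Ω H → H ≤ M → H = ⊥ ∨ H = M

theorem exists_minl [Finite G] {K : Subgroup G} (hK : Inv Ω K) (hK1 : K ≠ ⊥) :
    ∃ M : Subgroup G, Minl Ω M ∧ M ≤ K := by
  have hwf : WellFounded ((· < ·) : Subgroup G → Subgroup G → Prop) :=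
    (Finite.to_wellFoundedLT (α := Subgroup G)).wf
  obtain ⟨M, ⟨h1, h2, h3⟩, hmin⟩ :=
    hwf.has_min {H : Subgroup G | Inv Ω H ∧ H ≠ ⊥ ∧ H ≤ K} ⟨K, hK, hK1, le_rfl⟩
  refine ⟨M, ⟨h1, h2, ?_⟩, h3⟩
  intro H hH hHM
  by_contra hcon
  push Not at hcon
  exact hmin H ⟨hH, hcon.1, hHM.trans h3⟩ (lt_of_le_of_ne hHM hcon.2)

theorem inv_centralizer {M : Subgroup G} (hM : Inv Ω M) :
    Inv Ω (Subgroup.centralizer (M : Set G)) := by
  have := hM.1
  refine ⟨inferInstance, ?_⟩
  intro ω c hc
  rw [Subgroup.mem_centralizer_iff] at hc ⊢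
  intro m hm
  have h1 := hc (ω⁻¹ • m) (hM.2 ω⁻¹ m hm)
  have h2 := congrArg (fun x => ω • x) h1
  simpa [smul_mul'] using h2

theorem minl_le_cl {M : Subgroup G} (hM : Minl Ω M) {x : G}
    (hx : x ∉ Subgroup.centralizer (M : Set G)) : M ≤ cl Ω x := by
  rcases hM.2.2 (M ⊓ cl Ω x) (inv_inf hM.1 (cl_inv x)) inf_le_left with h | h
  · exfalso
    apply hx
    rw [Subgroup.mem_centralizer_iff]
    intro m hm
    have h1 : m * x * m⁻¹ * x⁻¹ ∈ M ⊓ cl Ω x := by
      refine ⟨?_, ?_⟩
      · have := hM.1.1.conj_mem m⁻¹ (M.inv_mem hm) x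
        have := M.mul_mem hm this
        simpa [mul_assoc] using this
      · have := (cl_inv (Ω := Ω) x).1.conj_mem x (mem_cl x) m
        exact (cl Ω x).mul_mem this ((cl Ω x).inv_mem (mem_cl x))
    rw [h, Subgroup.mem_bot] at h1
    have h2 : m * x = x * m := by
      have := congrArg (fun y => y * (x * m)) h1
      simpa [mul_assoc] using this
    exact h2
  · rw [← h]; exact inf_le_right

/-- main reduction at two tuples active at one common place -/
theorem nc_aux (hk : 2 ≤ k) {M : Subgroup G} (hM : Minl Ω M) {U V : Fin k → G}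
    (hUV : Cong M U V) {i : Fin k}
    (hU : U i ∉ Subgroup.centralizer (M : Set G))
    (hV : V i ∉ Subgroup.centralizer (M : Set G)) : ACE Ω U V := by
  have h1 : ACE Ω U (update V i (U i)) := ace_all' U V hUV (minl_le_cl hM hU)
  refine h1.trans' ?_
  obtain ⟨l, hl⟩ : ∃ l : Fin k, l ≠ i := by
    have : Nontrivial (Fin k) := Fin.nontrivial_iff_two_le.mpr hk
    exact exists_ne i
  have hMn := hM.1.1
  -- a tuple which differs from V only at i
  by_cases hVl : V l ∈ Subgroup.centralizer (M : Set G)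
  · -- multiply l by i
    have e1 : ACE Ω (update V i (U i)) (update (update V i (U i)) l (V l * U i)) := by
      refine ace_set _ hl ?_
      rw [Function.update_self, Function.update_of_ne hl]
      simpa using mem_cl (Ω := Ω) (U i)
    have hact : V l * U i ∉ Subgroup.centralizer (M : Set G) := by
      intro h
      exact hU (by simpa using Subgroup.mul_mem _ (Subgroup.inv_mem _ hVl) h)
    have e2 : ACE Ω (update (update V i (U i)) l (V l * U i))
        (update (update (update V i (U i)) l (V l * U i)) i (V i)) := by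
      refine ace_set (j := l) _ hl.symm ?_
      rw [Function.update_self, Function.update_of_ne hl.symm, Function.update_self]
      exact minl_le_cl hM hact (hUV i)
    have e3 : update (update (update V i (U i)) l (V l * U i)) i (V i)
        = update V l (V l * U i) := by
      rw [Function.update_comm hl, Function.update_idem, Function.update_eq_self,]
    have e4 : ACE Ω (update V l (V l * U i)) (update V l (V l * U i * (V i)⁻¹)) := by
      have := ace_set (Ω := Ω) (update V l (V l * U i)) hl (y := V l * U i * (V i)⁻¹) (by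
        rw [Function.update_self, Function.update_of_ne hl.symm]
        simpa [mul_assoc] using Subgroup.inv_mem _ (mem_cl (Ω := Ω) (V i)))
      simpa using this
    have e5 : ACE Ω (update V l (V l * U i * (V i)⁻¹)) V := by
      have := ace_set (Ω := Ω) (update V l (V l * U i * (V i)⁻¹)) hl (y := V l) (by
        rw [Function.update_self, Function.update_of_ne hl.symm]
        refine minl_le_cl hM hV ?_
        have h := hM.1.1.conj_mem _ (hUV i) (V i * (U i)⁻¹ * V i)
        have h' := hM.1.1.conj_mem _ (hUV i) (U i)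
        have e : (V l * U i * (V i)⁻¹)⁻¹ * V l = U i * ((U i)⁻¹ * V i) * (U i)⁻¹ := by group
        rw [e]
        exact h')
      simpa using this
    refine e1.trans' (e2.trans' ?_)
    rw [e3]
    exact e4.trans' e5
  · have e2 : ACE Ω (update V i (U i)) (update (update V i (U i)) i (V i)) := by
      refine ace_set (j := l) _ hl.symm ?_
      rw [Function.update_self, Function.update_of_ne hl]
      exact minl_le_cl hM hVl (hUV i)
    simpa using e2

theorem exists_active {M : Subgroup G} (hM : Inv Ω M)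
    (hc : Subgroup.centralizer (M : Set G) ≠ ⊤) {V : Fin k → G} (hV : NGen Ω V) :
    ∃ i, V i ∉ Subgroup.centralizer (M : Set G) := by
  by_contra h
  push Not at h
  exact hc (hV _ (inv_centralizer hM).1 (inv_centralizer hM).2 h)

theorem nc_main (hk : 2 ≤ k) {M : Subgroup G} (hM : Minl Ω M)
    (hc : Subgroup.centralizer (M : Set G) ≠ ⊤) {U V : Fin k → G}
    (hUg : NGen Ω U) (hVg : NGen Ω V) (hUV : Cong M U V) : ACE Ω U V := by
  obtain ⟨i, hi⟩ := exists_active hM.1 hc hVg
  by_cases hUi : U i ∈ Subgroup.centralizer (M : Set G)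
  · obtain ⟨j, hj⟩ := exists_active hM.1 hc hUg
    have hij : i ≠ j := by
      rintro rfl; exact hj hUi
    have e1 : ACE Ω U (update U i (V i)) :=
      ace_set U hij (minl_le_cl hM hj (hUV i))
    refine e1.trans' (nc_aux hk hM ?_ (i := i) ?_ hi)
    · intro l
      by_cases hl : l = i
      · subst hl; simp
      · rw [Function.update_of_ne hl]; exact hUV l
    · simpa using hi
  · exact nc_aux hk hM hUV hUi hi

/-! ### the central case -/

theorem central_main {M : Subgroup G} (hMc : ∀ m ∈ M, ∀ g : G, m * g = g * m)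
    {U V : Fin k → G} (hUV : Cong M U V) {i j : Fin k} (hij : i ≠ j)
    (h : M ≤ W Ω (U i) ⊓ W Ω (U j)) : ACE Ω U V := by
  have h1 : ACE Ω U (update V i (U i)) :=
    ace_all' U V hUV ((le_inf_iff.mp h).1.trans (W_le_cl _))
  refine h1.trans' ?_
  have hW : W Ω (U j) ≤ W Ω (V j) := by
    refine W_le (W_inv _) (fun g => ?_)
    have hm := hMc _ (hUV j)
    have e : U j * g * (U j)⁻¹ * g⁻¹ = V j * g * (V j)⁻¹ * g⁻¹ := by
      set m := (U j)⁻¹ * V j with hmdef
      have hv : V j = U j * m := by rw [hmdef]; group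
      rw [hv]
      have := hm g
      calc U j * g * (U j)⁻¹ * g⁻¹ = U j * (g * m) * m⁻¹ * (U j)⁻¹ * g⁻¹ := by group
        _ = U j * (m * g) * m⁻¹ * (U j)⁻¹ * g⁻¹ := by rw [this]
        _ = U j * m * g * (U j * m)⁻¹ * g⁻¹ := by group
    rw [e]
    exact comm_mem_W _ _
  have e2 : ACE Ω (update V i (U i)) (update (update V i (U i)) i (V i)) := by
    refine ace_set (j := j) _ hij ?_
    rw [Function.update_self, Function.update_of_ne hij.symm]
    exact ((le_inf_iff.mp h).2.trans (hW.trans (W_le_cl _))) (hUV i)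
  simpa using e2

/-- elements whose commutators lie in an invariant subgroup -/
def Zc (H : Subgroup G) [H.Normal] : Subgroup G :=
  (Subgroup.center (G ⧸ H)).comap (QuotientGroup.mk' H)

theorem mem_Zc {H : Subgroup G} [H.Normal] {x : G} :
    x ∈ Zc H ↔ ∀ g : G, x * g * x⁻¹ * g⁻¹ ∈ H := by
  unfold Zc
  rw [Subgroup.mem_comap, Subgroup.mem_center_iff]
  constructor
  · intro h g
    have := h (QuotientGroup.mk' H g)
    rw [← QuotientGroup.eq_one_iff]
    simp only [QuotientGroup.mk'_apply] at this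
    rw [QuotientGroup.mk_mul, QuotientGroup.mk_mul, QuotientGroup.mk_mul, ← this]
    simp
  · intro h g
    obtain ⟨g, rfl⟩ := QuotientGroup.mk'_surjective H g
    have := h g
    rw [← QuotientGroup.eq_one_iff] at this
    simp only [QuotientGroup.mk'_apply]
    rw [QuotientGroup.mk_mul, QuotientGroup.mk_mul, QuotientGroup.mk_mul, QuotientGroup.mk_inv,
      QuotientGroup.mk_inv, mul_inv_eq_one, mul_inv_eq_iff_eq_mul] at this
    exact this.symm

theorem inv_Zc {H : Subgroup G} (hH : Inv Ω H) : have := hH.1; Inv Ω (Zc H) := by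
  have := hH.1
  refine ⟨?_, ?_⟩
  · unfold Zc; infer_instance
  · intro ω x hx
    rw [mem_Zc] at hx ⊢
    intro g
    have := hH.2 ω _ (hx (ω⁻¹ • g))
    simpa [smul_mul', smul_inv'] using this

theorem comm_cl_mem_W (x : G) {y : G} (hy : y ∈ cl Ω x) (g : G) :
    y * g * y⁻¹ * g⁻¹ ∈ W Ω x := by
  have := (W_inv (Ω := Ω) x).1
  have h1 : cl Ω x ≤ Zc (W Ω x) :=
    cl_le (inv_Zc (W_inv x)) (mem_Zc.mpr (fun g => comm_mem_W x g))
  exact mem_Zc.mp (h1 hy) g

theorem commute_of_inf_bot {x y : G} (h : W Ω x ⊓ W Ω y = ⊥) {a b : G} (ha : a ∈ cl Ω x)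
    (hb : b ∈ cl Ω y) : a * b = b * a := by
  have h1 : a * b * a⁻¹ * b⁻¹ ∈ W Ω x := comm_cl_mem_W x ha b
  have h2 : b * a * b⁻¹ * a⁻¹ ∈ W Ω y := comm_cl_mem_W y hb a
  have h3 : a * b * a⁻¹ * b⁻¹ ∈ W Ω y := by
    have := (W Ω y).inv_mem h2
    simpa [mul_assoc] using this
  have h4 : a * b * a⁻¹ * b⁻¹ ∈ W Ω x ⊓ W Ω y := ⟨h1, h3⟩
  rw [h, Subgroup.mem_bot] at h4
  have := congrArg (fun z => z * (b * a)) h4
  simpa [mul_assoc] using this

theorem inv_iSup {ι : Type*} {f : ι → Subgroup G} (hf : ∀ i, Inv Ω (f i)) :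
    Inv Ω (⨆ i, f i) := by
  have hn : ∀ i, (f i).Normal := fun i => (hf i).1
  refine ⟨Subgroup.iSup_normal f, ?_⟩
  intro ω h hh
  have key : (⨆ i, f i) ≤ (⨆ i, f i).comap (MulDistribMulAction.toMonoidHom G ω) := by
    refine iSup_le (fun i x hx => ?_)
    rw [Subgroup.mem_comap]
    exact (le_iSup f i) ((hf i).2 ω x hx)
  exact key hh

theorem exists_pair (hk : 2 ≤ k) {U : Fin k → G} (hU : NGen Ω U)
    (hT : commutator G ≠ ⊥) :
    ∃ U' : Fin k → G, ACE Ω U U' ∧ ∃ i j : Fin k, i ≠ j ∧ W Ω (U' i) ⊓ W Ω (U' j) ≠ ⊥ := by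
  by_cases hex : ∃ i j : Fin k, i ≠ j ∧ W Ω (U i) ⊓ W Ω (U j) ≠ ⊥
  · exact ⟨U, Relation.ReflTransGen.refl, hex⟩
  push Not at hex
  have hsup : (⨆ l, cl Ω (U l)) = ⊤ := by
    have := inv_iSup (Ω := Ω) (f := fun l => cl Ω (U l)) (fun l => cl_inv _)
    exact hU _ this.1 this.2 (fun l => (le_iSup (fun l => cl Ω (U l)) l) (mem_cl _))
  -- some W is nontrivial
  obtain ⟨i, hi⟩ : ∃ i, W Ω (U i) ≠ ⊥ := by
    by_contra hcon
    push Not at hcon
    apply hT
    have hcen : ∀ l, U l ∈ Subgroup.center G := by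
      intro l
      rw [Subgroup.mem_center_iff]
      intro g
      have h1 := comm_mem_W (Ω := Ω) (U l) g
      rw [hcon l, Subgroup.mem_bot] at h1
      have := congrArg (fun z => z * (g * U l)) h1
      simp only [one_mul] at this
      rw [← this]
      group
    have htop : Subgroup.center G = ⊤ := by
      refine hU _ inferInstance ?_ hcen
      intro ω h hh
      rw [Subgroup.mem_center_iff] at hh ⊢
      intro g
      have := congrArg (fun x => ω • x) (hh (ω⁻¹ • g))
      simpa [smul_mul'] using this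
    rw [commutator_def, Subgroup.commutator_eq_bot_iff_le_centralizer]
    intro x _
    rw [Subgroup.mem_centralizer_iff]
    intro y _
    have : x ∈ Subgroup.center G := htop ▸ Subgroup.mem_top x
    exact (Subgroup.mem_center_iff.mp this y)
  obtain ⟨j, hj⟩ : ∃ j : Fin k, j ≠ i := by
    have : Nontrivial (Fin k) := Fin.nontrivial_iff_two_le.mpr hk
    exact exists_ne i
  refine ⟨update U j (U j * U i), ?_, i, j, hj.symm, ?_⟩
  · refine ace_set U hj ?_
    simpa using mem_cl (Ω := Ω) (U i)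
  · rw [Function.update_self, Function.update_of_ne hj.symm]
    intro hbot
    apply hi
    -- U i commutes with everything
    have hcomm : ∀ g : G, U i * g = g * U i := by
      have hle : (⨆ l, cl Ω (U l)) ≤ Subgroup.centralizer {U i} := by
        refine iSup_le (fun l g hg => ?_)
        rw [Subgroup.mem_centralizer_iff]
        rintro _ rfl
        by_cases hl : l = i
        · subst hl
          -- commutator with U j * U l
          have h1 : U l * g * (U l)⁻¹ * g⁻¹ ∈ W Ω (U l) := comm_mem_W _ g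
          have h2 : U j * U l * g * (U j * U l)⁻¹ * g⁻¹ ∈ W Ω (U j * U l) := comm_mem_W _ g
          have c1 : U j * (U l * g * (U l)⁻¹) = (U l * g * (U l)⁻¹) * U j := by
            refine (commute_of_inf_bot (hex l j hj.symm) ?_ (mem_cl (Ω := Ω) (U j))).symm
            exact (cl_inv (Ω := Ω) (U l)).1.conj_mem g hg (U l)
          have e : U j * U l * g * (U j * U l)⁻¹ * g⁻¹ = U l * g * (U l)⁻¹ * g⁻¹ := by
            calc U j * U l * g * (U j * U l)⁻¹ * g⁻¹
                = U j * (U l * g * (U l)⁻¹) * (U j)⁻¹ * g⁻¹ := by group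
              _ = (U l * g * (U l)⁻¹) * U j * (U j)⁻¹ * g⁻¹ := by rw [c1]
              _ = U l * g * (U l)⁻¹ * g⁻¹ := by group
          rw [e] at h2
          have h3 : U l * g * (U l)⁻¹ * g⁻¹ ∈ W Ω (U l) ⊓ W Ω (U j * U l) := ⟨h1, h2⟩
          rw [hbot, Subgroup.mem_bot] at h3
          have := congrArg (fun z => z * (g * U l)) h3
          simpa [mul_assoc] using this
        · exact (commute_of_inf_bot (hex i l (Ne.symm hl)) (mem_cl (Ω := Ω) (U i)) hg)
      intro g
      have hg : g ∈ Subgroup.centralizer {U i} := hle (hsup ▸ Subgroup.mem_top g)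
      rw [Subgroup.mem_centralizer_iff] at hg
      exact hg (U i) rfl
    have hb : Inv Ω (⊥ : Subgroup G) := by
      refine ⟨inferInstance, ?_⟩
      intro ω h hh
      rw [Subgroup.mem_bot] at hh ⊢
      rw [hh]; simp
    rw [eq_bot_iff]
    refine W_le hb (fun g => ?_)
    rw [Subgroup.mem_bot, hcomm g]
    group

theorem inv_commutator : Inv Ω (commutator G) := by
  refine ⟨inferInstance, ?_⟩
  intro ω h hh
  have : (commutator G).map (MulDistribMulAction.toMonoidHom G ω) ≤ commutator G := by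
    rw [commutator_def, Subgroup.map_commutator]
    exact Subgroup.commutator_mono le_top le_top
  exact this ⟨h, hh, rfl⟩

theorem W_le_commutator (x : G) : W Ω x ≤ commutator G := by
  refine W_le inv_commutator (fun g => ?_)
  have := Subgroup.commutator_mem_commutator (Subgroup.mem_top x) (Subgroup.mem_top g)
  rw [commutator_def]
  exact this

/-- The key step. -/
theorem key_step [Finite G] (hk : 2 ≤ k) {U : Fin k → G} (hU : NGen Ω U)
    (hT : commutator G ≠ ⊥) :
    ∃ U' : Fin k → G, ACE Ω U U' ∧ ∃ M : Subgroup G, Inv Ω M ∧ M ≠ ⊥ ∧ M ≤ commutator G ∧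
      ∀ V : Fin k → G, NGen Ω V → Cong M U' V → ACE Ω U' V := by
  obtain ⟨U', hUU', i, j, hij, hW⟩ := exists_pair hk hU hT
  refine ⟨U', hUU', ?_⟩
  obtain ⟨M, hM, hMle⟩ := exists_minl (inv_inf (W_inv (Ω := Ω) (U' i)) (W_inv (U' j))) hW
  refine ⟨M, hM.1, hM.2.1, (hMle.trans inf_le_left).trans (W_le_commutator _), ?_⟩
  intro V hV hUV
  by_cases hc : Subgroup.centralizer (M : Set G) = ⊤
  · refine central_main ?_ hUV hij hMle
    intro m hm g
    have : g ∈ Subgroup.centralizer (M : Set G) := hc ▸ Subgroup.mem_top g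
    exact Subgroup.mem_centralizer_iff.mp this m hm
  · exact nc_main hk hM hc (ace_ngen hUU' hU) hV hUV


/-- the action on the quotient by an invariant subgroup -/
@[reducible] def quotAct (M : Subgroup G) [M.Normal] (hM : ∀ ω : Ω, ∀ h ∈ M, ω • h ∈ M) :
    MulDistribMulAction Ω (G ⧸ M) where
  smul ω := QuotientGroup.map M M (MulDistribMulAction.toMonoidHom G ω) (fun m hm => hM ω m hm)
  one_smul x := by
    obtain ⟨x, rfl⟩ := QuotientGroup.mk'_surjective M x
    change ((((1 : Ω) • x : G)) : G ⧸ M) = (x : G ⧸ M)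
    rw [one_smul]
  mul_smul ω ω' x := by
    obtain ⟨x, rfl⟩ := QuotientGroup.mk'_surjective M x
    change ((((ω * ω') • x : G)) : G ⧸ M) = ((ω • ω' • x : G) : G ⧸ M)
    rw [mul_smul]
  smul_mul ω x y := map_mul (QuotientGroup.map M M (MulDistribMulAction.toMonoidHom G ω)
    (fun m hm => hM ω m hm)) x y
  smul_one ω := map_one (QuotientGroup.map M M (MulDistribMulAction.toMonoidHom G ω)
    (fun m hm => hM ω m hm))

theorem quot_lift {M : Subgroup G} [M.Normal] (hM : ∀ ω : Ω, ∀ h ∈ M, ω • h ∈ M)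
    (a : Fin k → G) (c : Fin k → G ⧸ M)
    (h : letI := quotAct M hM; Step Ω (fun l => (a l : G ⧸ M)) c) :
    ∃ b : Fin k → G, Step Ω a b ∧ (fun l => (b l : G ⧸ M)) = c := by
  let _ := quotAct M hM
  have key : ∀ (i : Fin k) (x : G), (fun l => ((update a i x l : G) : G ⧸ M))
      = update (fun l => (a l : G ⧸ M)) i (x : G ⧸ M) := by
    intro i x
    funext l
    by_cases hl : l = i
    · subst hl; simp
    · rw [Function.update_of_ne hl, Function.update_of_ne hl]
  rcases h with ⟨i, j, hij, h⟩ | ⟨i, rfl⟩ | ⟨i, g, rfl⟩ | ⟨i, ω, rfl⟩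
  · rcases h with rfl | rfl | rfl | rfl
    · exact ⟨_, Or.inl ⟨i, j, hij, Or.inl rfl⟩, key i _⟩
    · exact ⟨_, Or.inl ⟨i, j, hij, Or.inr (Or.inl rfl)⟩, key i _⟩
    · exact ⟨_, Or.inl ⟨i, j, hij, Or.inr (Or.inr (Or.inl rfl))⟩, key i _⟩
    · exact ⟨_, Or.inl ⟨i, j, hij, Or.inr (Or.inr (Or.inr rfl))⟩, key i _⟩
  · exact ⟨_, Or.inr (Or.inl ⟨i, rfl⟩), key i _⟩
  · obtain ⟨g, rfl⟩ := QuotientGroup.mk'_surjective M g
    exact ⟨_, Or.inr (Or.inr (Or.inl ⟨i, g, rfl⟩)), key i _⟩
  · exact ⟨_, Or.inr (Or.inr (Or.inr ⟨i, ω, rfl⟩)), key i _⟩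

theorem quot_lift_ace {M : Subgroup G} [M.Normal] (hM : ∀ ω : Ω, ∀ h ∈ M, ω • h ∈ M)
    (a : Fin k → G) (c : Fin k → G ⧸ M)
    (h : letI := quotAct M hM; ACE Ω (fun l => (a l : G ⧸ M)) c) :
    ∃ b : Fin k → G, ACE Ω a b ∧ (fun l => (b l : G ⧸ M)) = c := by
  let _ := quotAct M hM
  induction h with
  | refl => exact ⟨a, Relation.ReflTransGen.refl, rfl⟩
  | tail _ hs ih =>
    obtain ⟨b, h1, h2⟩ := ih
    rw [← h2] at hs
    obtain ⟨b', h3, h4⟩ := quot_lift hM b _ hs
    exact ⟨b', Relation.ReflTransGen.tail h1 h3, h4⟩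

theorem quot_ngen {M : Subgroup G} [M.Normal] (hM : ∀ ω : Ω, ∀ h ∈ M, ω • h ∈ M)
    {a : Fin k → G} (ha : NGen Ω a) :
    letI := quotAct M hM; NGen Ω (fun l => (a l : G ⧸ M)) := by
  let _ := quotAct M hM
  intro H h1 h2 h3
  have : H.comap (QuotientGroup.mk' M) = ⊤ := by
    refine ha _ inferInstance ?_ ?_
    · intro ω h hh
      exact h2 ω _ hh
    · intro i
      exact h3 i
  rw [eq_top_iff]
  intro x _
  obtain ⟨x, rfl⟩ := QuotientGroup.mk'_surjective M x
  have hx : x ∈ H.comap (QuotientGroup.mk' M) := this ▸ Subgroup.mem_top x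
  exact hx

end Pool.Agent.Helper667.ACRel

namespace Pool.Agent.Helper667.ACRel

open Function

universe u v

variable {Ω : Type v} [Group Ω] {k : ℕ}

theorem core (hk : 2 ≤ k) : ∀ (n : ℕ) (G : Type u) [Group G] [Finite G] [MulDistribMulAction Ω G],
    Nat.card G = n → ∀ U V : Fin k → G, NGen Ω U → NGen Ω V → Cong (commutator G) U V →
    ACE Ω U V := by
  intro n
  induction n using Nat.strong_induction_on with
  | _ n ih =>
    intro G _ _ _ hn U V hU hV hUV
    by_cases hT : commutator G = ⊥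
    · have : U = V := by
        funext l
        have := hUV l
        rw [hT, Subgroup.mem_bot, inv_mul_eq_one] at this
        exact this
      rw [this]
    · obtain ⟨U', hUU', M, hM, hM1, hMT, hfree⟩ := key_step hk hU hT
      obtain ⟨V', hVV', hcong⟩ := lift_ace (inv_commutator (Ω := Ω) (G := G)) hUU' hUV
      have hMn := hM.1
      let _ := quotAct M hM.2
      have hcard : Nat.card (G ⧸ M) < n := by
        rw [← hn, Subgroup.card_eq_card_quotient_mul_card_subgroup M]
        have h1 : 1 < Nat.card M := (Subgroup.one_lt_card_iff_ne_bot M).mpr hM1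
        have h2 : 0 < Nat.card (G ⧸ M) := Nat.card_pos
        nlinarith
      have hq : ACE Ω (fun l => (V' l : G ⧸ M)) (fun l => (U' l : G ⧸ M)) := by
        refine ih _ hcard (G ⧸ M) rfl _ _ (quot_ngen hM.2 (ace_ngen hVV' hV))
          (quot_ngen hM.2 (ace_ngen hUU' hU)) ?_
        intro l
        have h1 := hcong.symm' l
        have h2 : (QuotientGroup.mk' M) ((V' l)⁻¹ * U' l) ∈
            (commutator G).map (QuotientGroup.mk' M) := ⟨_, h1, rfl⟩
        have h3 : (commutator G).map (QuotientGroup.mk' M) ≤ commutator (G ⧸ M) := by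
          rw [commutator_def, Subgroup.map_commutator]
          exact Subgroup.commutator_mono le_top le_top
        exact h3 h2
      obtain ⟨U'', h1, h2⟩ := quot_lift_ace hM.2 V' _ hq
      have h3 : Cong M U' U'' := by
        intro l
        rw [← QuotientGroup.eq]
        exact (congrFun h2 l).symm
      have h4 : ACE Ω U' U'' := hfree U'' (ace_ngen h1 (ace_ngen hVV' hV)) h3
      exact hUU'.trans' (h4.trans' (h1.symm'.trans' hVV'.symm'))

end Pool.Agent.Helper667.ACRel
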