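import Mathlib

set_option autoImplicit false

/-! Coherent families of finite sets on a well-order with countable initial segments. -/

namespace Pool.Agent.Helper667.ER

open Set

/-- A coherent family: `F b n` is an increasing sequence of finite subsets of the initial segment
ending at `b`, exhausting it, and `F b n` restricted to the initial segment of `a ∈ F b n`
is `F a n`. -/
structure Coh {ι : Type} [LinearOrder ι] (F : ι → ℕ → Finset ι) : Prop where
  zero : ∀ b, F b 0 = ∅
  self : ∀ b n, b ∈ F b (n + 1)
  le : ∀ b n d, d ∈ F b n → d ≤ b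
  mono : ∀ b n, F b n ⊆ F b (n + 1)
  ex : ∀ b d, d ≤ b → ∃ n, d ∈ F b n
  co : ∀ b n a, a ∈ F b n → ∀ d, d ∈ F a n ↔ d ∈ F b n ∧ d ≤ a

/-- one step of the construction -/
structure Good {ι : Type} [LinearOrder ι] (b : ι) (F : ∀ a, a < b → ℕ → Finset ι)
    (G : ℕ → Finset ι) : Prop where
  zero : G 0 = ∅
  self : ∀ n, b ∈ G (n + 1)
  le : ∀ n d, d ∈ G n → d ≤ b
  mono : ∀ n, G n ⊆ G (n + 1)
  ex : ∀ d, d ≤ b → ∃ n, d ∈ G n
  co : ∀ n a (ha : a < b), a ∈ G n → ∀ d, d ∈ F a ha n ↔ d ∈ G n ∧ d ≤ a

/-- a cofinal monotone sequence below `b` -/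
theorem exists_seq {ι : Type} [LinearOrder ι] (b : ι) (hc : (Iio b).Countable)
    (hne : (Iio b).Nonempty) :
    ∃ β : ℕ → ι, (∀ j, β j < b) ∧ Monotone β ∧ ∀ d, d < b → ∃ j, d ≤ β j := by
  obtain ⟨e, he⟩ := hc.exists_eq_range hne
  have heb : ∀ j, e j < b := fun j => by
    have : e j ∈ Iio b := by rw [he]; exact ⟨j, rfl⟩
    exact this
  refine ⟨fun j => Nat.rec (e 0) (fun j x => max x (e (j + 1))) j, ?_, ?_, ?_⟩
  · intro j
    induction j with
    | zero => exact heb 0
    | succ j ih => exact max_lt ih (heb _)
  · apply monotone_nat_of_le_succ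
    intro j
    exact le_max_left _ _
  · intro d hd
    have : d ∈ range e := by rw [← he]; exact hd
    obtain ⟨j, rfl⟩ := this
    refine ⟨j, ?_⟩
    cases j with
    | zero => exact le_rfl
    | succ j => exact le_max_right _ _

theorem good_step {ι : Type} [LinearOrder ι] (b : ι) (hc : (Iio b).Countable)
    (F : ι → ℕ → Finset ι) (hF : ∀ a, a < b → Good a (fun a' _ => F a') (F a)) :
    ∃ G, Good b (fun a _ => F a) G := by
  classical
  rcases (Iio b).eq_empty_or_nonempty with he | hne
  · have hmin : ∀ a, ¬ a < b := fun a ha => by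
      have : a ∈ Iio b := ha
      rw [he] at this
      exact this
    refine ⟨fun n => if n = 0 then ∅ else {b}, ?_, ?_, ?_, ?_, ?_, ?_⟩
    · simp
    · intro n
      simp
    · intro n d hd
      beta_reduce at hd
      split_ifs at hd
      · simp at hd
      · rw [Finset.mem_singleton] at hd
        exact hd.le
    · intro n d hd
      beta_reduce at hd ⊢
      split_ifs at hd
      · simp at hd
      · rw [if_neg (by omega)]
        exact hd
    · intro d hd
      refine ⟨1, ?_⟩
      simp only [one_ne_zero, if_false, Finset.mem_singleton]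
      exact hd.eq_of_not_lt (hmin d)
    · intro n a ha
      exact absurd ha (hmin a)
  · obtain ⟨β, hβ, hmono, hcof⟩ := exists_seq b hc hne
    have hFm : ∀ a, a < b → ∀ n m, n ≤ m → F a n ⊆ F a m := by
      intro a ha n m hnm
      induction m with
      | zero =>
        have : n = 0 := by omega
        rw [this]
      | succ m ih =>
        rcases Nat.lt_or_ge m n with h | h
        · have : n = m + 1 := by omega
          rw [this]
        · exact (ih h).trans ((hF a ha).mono m)
    have hFco : ∀ c, c < b → ∀ n a, a ∈ F c n → ∀ d, d ∈ F a n ↔ d ∈ F c n ∧ d ≤ a := by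
      intro c hcb n a ha d
      rcases ((hF c hcb).le n a ha).lt_or_eq with h | h
      · exact (hF c hcb).co n a h ha d
      · subst h
        exact ⟨fun hd => ⟨hd, (hF a hcb).le n d hd⟩, fun hd => hd.1⟩
    let P : ℕ → ℕ → Prop := fun n k => ∀ j < k, β j ∈ F (β (j + 1)) n
    let k : ℕ → ℕ := fun n => Nat.findGreatest (P n) n
    have hP0 : ∀ n, P n 0 := fun n j hj => absurd hj (Nat.not_lt_zero j)
    have hPk : ∀ n, P n (k n) := fun n => Nat.findGreatest_spec (m := 0) (Nat.zero_le n) (hP0 n)
    have hkmono : ∀ n, k n ≤ k (n + 1) := by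
      intro n
      apply Nat.findGreatest_mono
      · intro l hl j hj
        exact hFm _ (hβ _) n (n + 1) (Nat.le_succ n) (hl j hj)
      · exact Nat.le_succ n
    have hkinf : ∀ K, ∃ N, ∀ n, N ≤ n → K ≤ k n := by
      intro K
      have h1 : ∀ K, ∃ N, ∀ n, N ≤ n → P n K := by
        intro K
        induction K with
        | zero => exact ⟨0, fun n _ => hP0 n⟩
        | succ K ih =>
          obtain ⟨N, hN⟩ := ih
          obtain ⟨M, hM⟩ := (hF (β (K + 1)) (hβ _)).ex (β K) (hmono (Nat.le_succ K))
          refine ⟨max N M, fun n hn j hj => ?_⟩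
          rcases Nat.lt_or_ge j K with h | h
          · exact hN n ((le_max_left _ _).trans hn) j h
          · have : j = K := by omega
            rw [this]
            exact hFm _ (hβ _) M n ((le_max_right _ _).trans hn) hM
      obtain ⟨N, hN⟩ := h1 K
      refine ⟨max N K, fun n hn => ?_⟩
      exact Nat.le_findGreatest ((le_max_right _ _).trans hn) (hN n ((le_max_left _ _).trans hn))
    have hA : ∀ n l, P n l → 1 ≤ n → ∀ i, i ≤ l → β i ∈ F (β l) n := by
      intro n l
      induction l with
      | zero =>
        intro _ hn i hi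
        have : i = 0 := by omega
        rw [this]
        obtain ⟨m, rfl⟩ : ∃ m, n = m + 1 := ⟨n - 1, by omega⟩
        exact (hF _ (hβ 0)).self m
      | succ l ih =>
        intro hPl hn i hi
        obtain ⟨m, rfl⟩ : ∃ m, n = m + 1 := ⟨n - 1, by omega⟩
        rcases Nat.lt_or_ge l i with h | h
        · have : i = l + 1 := by omega
          rw [this]
          exact (hF _ (hβ _)).self m
        · have h1 := ih (fun j hj => hPl j (by omega)) hn i h
          have h2 := hPl l (Nat.lt_succ_self l)
          exact ((hFco _ (hβ _) _ _ h2 _).1 h1).1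
    refine ⟨fun n => if n = 0 then ∅ else insert b (F (β (k n)) n), ?_, ?_, ?_, ?_, ?_, ?_⟩
    · simp
    · intro n
      simp
    · intro n d hd
      beta_reduce at hd
      split_ifs at hd
      · simp at hd
      · rw [Finset.mem_insert] at hd
        rcases hd with hd | hd
        · exact hd.le
        · exact ((hF _ (hβ _)).le n d hd).trans (hβ _).le
    · intro n d hd
      beta_reduce at hd ⊢
      rw [if_neg (by omega)]
      split_ifs at hd with h0
      · simp at hd
      · rw [Finset.mem_insert] at hd ⊢
        rcases hd with hd | hd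
        · exact Or.inl hd
        · right
          have h1 := hA (n + 1) (k (n + 1)) (hPk _) (by omega) (k n) (hkmono n)
          have h2 : d ∈ F (β (k n)) (n + 1) := hFm _ (hβ _) n (n + 1) (Nat.le_succ n) hd
          exact ((hFco _ (hβ _) _ _ h1 _).1 h2).1
    · intro d hd
      rcases hd.lt_or_eq with hd | hd
      · obtain ⟨j, hj⟩ := hcof d hd
        obtain ⟨m, hm⟩ := (hF _ (hβ j)).ex d hj
        obtain ⟨N, hN⟩ := hkinf j
        refine ⟨max (max m N) 1, ?_⟩
        obtain ⟨n, hn⟩ : ∃ n, n = max (max m N) 1 := ⟨_, rfl⟩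
        rw [← hn]
        have hn1 : 1 ≤ n := by rw [hn]; exact le_max_right _ _
        have hnm : m ≤ n := by rw [hn]; exact (le_max_left _ _).trans (le_max_left _ _)
        have hnN : N ≤ n := by rw [hn]; exact (le_max_right _ _).trans (le_max_left _ _)
        beta_reduce
        rw [if_neg (by omega), Finset.mem_insert]
        right
        have h1 := hA n (k n) (hPk _) hn1 j (hN n hnN)
        have h2 : d ∈ F (β j) n := hFm _ (hβ _) m n hnm hm
        exact ((hFco _ (hβ _) _ _ h1 _).1 h2).1
      · refine ⟨1, ?_⟩
        simp [hd]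
    · intro n a ha han d
      beta_reduce at han ⊢
      split_ifs at han ⊢ with h0
      · simp at han
      · rw [Finset.mem_insert] at han
        rcases han with han | han
        · exact absurd han ha.ne
        · rw [hFco _ (hβ _) n a han d, Finset.mem_insert]
          constructor
          · rintro ⟨h1, h2⟩
            exact ⟨Or.inr h1, h2⟩
          · rintro ⟨h1, h2⟩
            rcases h1 with h1 | h1
            · rw [h1] at h2
              exact absurd ha (not_lt.2 h2)
            · exact ⟨h1, h2⟩

theorem exists_coh (ι : Type) [LinearOrder ι] [WellFoundedLT ι]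
    (hc : ∀ b : ι, (Iio b).Countable) : ∃ F : ι → ℕ → Finset ι, Coh F := by
  classical
  have hwf : WellFounded (fun a b : ι => a < b) := wellFounded_lt
  let step : ∀ b : ι, (∀ a, a < b → ℕ → Finset ι) → ℕ → Finset ι := fun b F =>
    if h : ∃ G, Good b F G then h.choose else fun _ => ∅
  let F : ι → ℕ → Finset ι := hwf.fix step
  have hfix : ∀ b, F b = step b (fun a _ => F a) := fun b => hwf.fix_eq step b
  have hgood : ∀ b, Good b (fun a _ => F a) (F b) := by
    intro b
    induction b using hwf.induction with
    | _ b ih =>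
      have h := good_step b (hc b) F ih
      rw [hfix b]
      simp only [step]
      rw [dif_pos h]
      exact h.choose_spec
  refine ⟨F, fun b => (hgood b).zero, fun b => (hgood b).self, fun b => (hgood b).le,
    fun b => (hgood b).mono, fun b => (hgood b).ex, ?_⟩
  intro b n a ha d
  rcases ((hgood b).le n a ha).lt_or_eq with h | h
  · exact (hgood b).co n a h ha d
  · subst h
    exact ⟨fun hd => ⟨hd, (hgood a).le n d hd⟩, fun hd => hd.1⟩

end Pool.Agent.Helper667.ER
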