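import Pool.Agent.Helper667.ERA

set_option autoImplicit false

/-! The index set and its combinatorics. -/

namespace Pool.Agent.Helper667.ER

open Set

variable {ι : Type} [LinearOrder ι] {F : ι → ℕ → Finset ι}

open Classical in
/-- first time at which `d` appears in `F b` -/
noncomputable def tt (F : ι → ℕ → Finset ι) (b d : ι) : ℕ :=
  if h : ∃ n, d ∈ F b n then Nat.find h else 0

theorem Coh.mono' (hF : Coh F) {b : ι} {m n : ℕ} (h : m ≤ n) : F b m ⊆ F b n := by
  induction n, h using Nat.le_induction with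
  | base => exact Finset.Subset.refl _
  | succ n _ ih => exact ih.trans (hF.mono b n)

theorem Coh.mem_iff (hF : Coh F) {b d : ι} (hd : d ≤ b) (n : ℕ) : d ∈ F b n ↔ tt F b d ≤ n := by
  classical
  have hex := hF.ex b d hd
  have ht : tt F b d = Nat.find hex := by
    unfold tt
    rw [dif_pos hex]
  rw [ht]
  constructor
  · intro h
    exact Nat.find_min' hex h
  · intro h
    exact hF.mono' h (Nat.find_spec hex)

theorem Coh.tt_pos (hF : Coh F) {b d : ι} (hd : d ≤ b) : 1 ≤ tt F b d := by
  by_contra h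
  have h0 : tt F b d ≤ 0 := by omega
  rw [← hF.mem_iff hd, hF.zero] at h0
  simp at h0

/-- the position of `d` in the enumeration of the elements below `b` -/
noncomputable def pos (F : ι → ℕ → Finset ι) (b d : ι) : ℕ ×ₗ ι := toLex (tt F b d, d)

theorem pos_lt {b d e : ι} : pos F b d < pos F b e ↔
    tt F b d < tt F b e ∨ (tt F b d = tt F b e ∧ d < e) := by
  unfold pos
  rw [Prod.Lex.toLex_lt_toLex]

theorem pos_inj {b d e : ι} (h : pos F b d = pos F b e) : d = e := by
  unfold pos at h
  have := congrArg (fun x => (ofLex x).2) h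
  exact this

/-- the elements which are enumerated before `a` -/
noncomputable def S (F : ι → ℕ → Finset ι) (b a : ι) : Finset ι :=
  (F b (tt F b a)).filter (fun d => d < b ∧ pos F b d < pos F b a)

theorem Coh.mem_S (hF : Coh F) {b a d : ι} :
    d ∈ S F b a ↔ d < b ∧ pos F b d < pos F b a := by
  unfold S
  rw [Finset.mem_filter]
  constructor
  · exact fun h => h.2
  · intro h
    refine ⟨?_, h⟩
    rw [hF.mem_iff h.1.le]
    rcases pos_lt.1 h.2 with h2 | h2
    · exact h2.le
    · exact h2.1.le

/-- indices -/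
inductive Ix (ι : Type) : Type
  | c : Ix ι
  | r (b : ι) : Ix ι
  | h (b a : ι) (A : Finset ι) : Ix ι

/-- valid indices -/
def Valid (F : ι → ℕ → Finset ι) : Ix ι → Prop
  | Ix.c => True
  | Ix.r _ => True
  | Ix.h b a A => a < b ∧ A ⊆ S F b a

/-- the top coordinate satisfies `p` -/
def Below (p : ι → Prop) : Ix ι → Prop
  | Ix.c => True
  | Ix.r b => p b
  | Ix.h b _ _ => p b

/-- coordinates on which the function depends -/
noncomputable def supp (F : ι → ℕ → Finset ι) : Ix ι → Finset ι
  | Ix.c => ∅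
  | Ix.r b => {b}
  | Ix.h b a _ => insert b (insert a (S F b a))

/-- coordinates in which the function is antisymmetric -/
def anti : Ix ι → Finset ι
  | Ix.c => ∅
  | Ix.r b => {b}
  | Ix.h b a _ => {b, a}

/-- the level -/
noncomputable def lv (F : ι → ℕ → Finset ι) (β : ι) : Ix ι → ℕ
  | Ix.c => 0
  | Ix.r b => tt F β b
  | Ix.h b a _ => max (tt F β b) (tt F b a)

theorem Coh.lv_iff (hF : Coh F) {β : ι} {j : Ix ι} (hj : Valid F j) (hb : Below (· ≤ β) j)
    (p : ι → Prop) [DecidablePred p] (hp : ∀ x y, x ≤ y → p y → p x) (n : ℕ) :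
    anti j ⊆ (F β n).filter p ↔ lv F β j ≤ n ∧ Below p j := by
  cases j with
  | c => simp [anti, lv, Below]
  | r b =>
    have hb' : b ≤ β := hb
    simp only [anti, lv, Below, Finset.singleton_subset_iff, Finset.mem_filter]
    rw [hF.mem_iff hb']
  | h b a A =>
    have hb' : b ≤ β := hb
    have hab : a < b := hj.1
    simp only [anti, lv, Below, Finset.insert_subset_iff, Finset.singleton_subset_iff,
      Finset.mem_filter, max_le_iff]
    rw [← hF.mem_iff hb', ← hF.mem_iff hab.le]
    constructor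
    · rintro ⟨⟨h1, h2⟩, h3, h4⟩
      exact ⟨⟨h1, (hF.co β n b h1 a).2 ⟨h3, hab.le⟩⟩, h2⟩
    · rintro ⟨⟨h1, h2⟩, h3⟩
      exact ⟨⟨h1, h3⟩, ((hF.co β n b h1 a).1 h2).1, hp a b hab.le h3⟩

theorem Coh.supp_sub (hF : Coh F) {β : ι} {j : Ix ι} (hj : Valid F j) (hb : Below (· ≤ β) j)
    (p : ι → Prop) [DecidablePred p] (hp : ∀ x y, x ≤ y → p y → p x) (n : ℕ)
    (h : lv F β j ≤ n ∧ Below p j) : supp F j ⊆ (F β n).filter p := by
  have h1 := (hF.lv_iff hj hb p hp n).2 h
  cases j with
  | c => simp [supp]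
  | r b => exact h1
  | h b a A =>
    have hb' : b ≤ β := hb
    have hab : a < b := hj.1
    simp only [anti, Finset.insert_subset_iff, Finset.singleton_subset_iff] at h1
    have h2 : tt F b a ≤ n := (le_max_right _ _).trans h.1
    simp only [supp, Finset.insert_subset_iff]
    refine ⟨h1.1, h1.2, ?_⟩
    intro d hd
    have hd' := hd
    rw [hF.mem_S] at hd'
    unfold S at hd
    rw [Finset.mem_filter] at hd
    have h3 : d ∈ F b n := hF.mono' h2 hd.1
    have h4 := ((hF.co β n b (Finset.mem_filter.1 h1.1).1 d).1 h3).1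
    rw [Finset.mem_filter]
    exact ⟨h4, hp d b hd'.1.le h.2⟩

theorem Coh.lv_pos (hF : Coh F) {β : ι} {j : Ix ι} (hb : Below (· ≤ β) j) (hc : j ≠ Ix.c) :
    1 ≤ lv F β j := by
  cases j with
  | c => exact absurd rfl hc
  | r b => exact hF.tt_pos hb
  | h b a A => exact (hF.tt_pos hb).trans (le_max_left _ _)

/-- flip of a coordinate -/
def fl (d : ι) (ω : ι → Bool) : ι → Bool := fun i => if i = d then !ω i else ω i

/-- Rademacher function -/
def rad (b : ι) (ω : ι → Bool) : ℝ := if ω b = true then 1 else -1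

/-- indicator of an atom -/
def atm (s A : Finset ι) (ω : ι → Bool) : ℝ := if s.filter (fun d => ω d = true) = A then 1 else 0

/-- the family -/
noncomputable def X (F : ι → ℕ → Finset ι) : Ix ι → (ι → Bool) → ℝ
  | Ix.c => fun _ => 1
  | Ix.r b => rad b
  | Ix.h b a A => fun ω => rad b ω * rad a ω * atm (S F b a) A ω

theorem rad_self (b : ι) (ω : ι → Bool) : rad b (fl b ω) = - rad b ω := by
  unfold rad fl
  cases h : ω b <;> simp [h]

theorem rad_ne {b d : ι} (h : b ≠ d) (ω : ι → Bool) : rad b (fl d ω) = rad b ω := by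
  unfold rad fl
  rw [if_neg h]

theorem atm_fl {s A : Finset ι} {d : ι} (h : d ∉ s) (ω : ι → Bool) :
    atm s A (fl d ω) = atm s A ω := by
  unfold atm
  have : s.filter (fun i => fl d ω i = true) = s.filter (fun i => ω i = true) := by
    apply Finset.filter_congr
    intro i hi
    unfold fl
    rw [if_neg (fun he : i = d => h (he ▸ hi))]
  rw [this]

theorem X_ind {j : Ix ι} {d : ι} (hd : d ∉ supp F j) (ω : ι → Bool) :
    X F j (fl d ω) = X F j ω := by
  cases j with
  | c => rfl
  | r b =>
    simp only [supp, Finset.mem_singleton] at hd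
    exact rad_ne (Ne.symm hd) ω
  | h b a A =>
    simp only [supp, Finset.mem_insert, not_or] at hd
    show rad b (fl d ω) * rad a (fl d ω) * atm (S F b a) A (fl d ω) =
      rad b ω * rad a ω * atm (S F b a) A ω
    rw [rad_ne (Ne.symm hd.1), rad_ne (Ne.symm hd.2.1), atm_fl hd.2.2]

theorem Coh.X_anti (hF : Coh F) {j : Ix ι} (hj : Valid F j) {d : ι} (hd : d ∈ anti j)
    (ω : ι → Bool) : X F j (fl d ω) = - X F j ω := by
  cases j with
  | c => simp [anti] at hd
  | r b =>
    simp only [anti, Finset.mem_singleton] at hd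
    rw [hd]
    exact rad_self b ω
  | h b a A =>
    have hab : a < b := hj.1
    have hbS : b ∉ S F b a := fun h => lt_irrefl _ (hF.mem_S.1 h).1
    have haS : a ∉ S F b a := fun h => lt_irrefl _ (hF.mem_S.1 h).2
    simp only [anti, Finset.mem_insert, Finset.mem_singleton] at hd
    show rad b (fl d ω) * rad a (fl d ω) * atm (S F b a) A (fl d ω) =
      -(rad b ω * rad a ω * atm (S F b a) A ω)
    rcases hd with rfl | rfl
    · rw [rad_self, rad_ne hab.ne, atm_fl hbS]
      ring
    · rw [rad_self, rad_ne hab.ne', atm_fl haS]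
      ring

end Pool.Agent.Helper667.ER
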