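import Pool.Agent.Helper667.ERB

set_option autoImplicit false

/-! Averaging operators. -/

namespace Pool.Agent.Helper667.ER

open Set MeasureTheory

variable {ι : Type} [LinearOrder ι] {F : ι → ℕ → Finset ι}

theorem fl_comm (d e : ι) (ω : ι → Bool) : fl d (fl e ω) = fl e (fl d ω) := by
  funext i
  unfold fl
  split_ifs <;> rfl

/-- average over the flip of the coordinate `d` -/
noncomputable def Ad (d : ι) : ((ι → Bool) → ℝ) →ₗ[ℝ] ((ι → Bool) → ℝ) where
  toFun f := fun ω => (f ω + f (fl d ω)) / 2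
  map_add' f g := by
    funext ω
    simp only [Pi.add_apply]
    ring
  map_smul' c f := by
    funext ω
    simp only [Pi.smul_apply, smul_eq_mul, RingHom.id_apply]
    ring

theorem Ad_apply (d : ι) (f : (ι → Bool) → ℝ) (ω : ι → Bool) :
    Ad d f ω = (f ω + f (fl d ω)) / 2 := rfl

/-- average over the flips of the coordinates in the list which are not in `R` -/
noncomputable def E (R : Finset ι) : List ι → ((ι → Bool) → ℝ) →ₗ[ℝ] ((ι → Bool) → ℝ)
  | [] => LinearMap.id
  | d :: l => if d ∈ R then E R l else Ad d ∘ₗ E R l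

theorem E_cons_mem {R : Finset ι} {d : ι} {l : List ι} (h : d ∈ R) (f : (ι → Bool) → ℝ) :
    E R (d :: l) f = E R l f := by
  rw [E, if_pos h]

theorem E_cons_notMem {R : Finset ι} {d : ι} {l : List ι} (h : d ∉ R) (f : (ι → Bool) → ℝ) :
    E R (d :: l) f = Ad d (E R l f) := by
  rw [E, if_neg h]
  rfl

theorem E_comm (R : Finset ι) (l : List ι) (d : ι) (f : (ι → Bool) → ℝ) :
    E R l (fun ω => f (fl d ω)) = fun ω => E R l f (fl d ω) := by
  induction l with
  | nil => rfl
  | cons e l ih =>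
    by_cases he : e ∈ R
    · rw [E_cons_mem he, E_cons_mem he]
      exact ih
    · rw [E_cons_notMem he, E_cons_notMem he, ih]
      funext ω
      rw [Ad_apply, Ad_apply, fl_comm]

theorem E_ind {R : Finset ι} {l : List ι} {d : ι} {f : (ι → Bool) → ℝ}
    (h : ∀ ω, f (fl d ω) = f ω) (ω : ι → Bool) : E R l f (fl d ω) = E R l f ω := by
  have h1 : (fun ω => f (fl d ω)) = f := funext h
  have h2 := E_comm R l d f
  rw [h1] at h2
  exact (congrFun h2 ω).symm

theorem E_fix {R : Finset ι} {l : List ι} {f : (ι → Bool) → ℝ}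
    (h : ∀ d, d ∉ R → ∀ ω, f (fl d ω) = f ω) : E R l f = f := by
  induction l with
  | nil => rfl
  | cons e l ih =>
    by_cases he : e ∈ R
    · rw [E_cons_mem he, ih]
    · rw [E_cons_notMem he, ih]
      funext ω
      rw [Ad_apply, h e he ω]
      ring

theorem E_kill {R : Finset ι} {l : List ι} {f : (ι → Bool) → ℝ} {d : ι} (hl : d ∈ l)
    (hR : d ∉ R) (h : ∀ ω, f (fl d ω) = - f ω) : E R l f = 0 := by
  induction l with
  | nil => simp at hl
  | cons e l ih =>
    by_cases hdl : d ∈ l
    · by_cases he : e ∈ R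
      · rw [E_cons_mem he, ih hdl]
      · rw [E_cons_notMem he, ih hdl, map_zero]
    · have hde : d = e := by
        rcases List.mem_cons.1 hl with h1 | h1
        · exact h1
        · exact absurd h1 hdl
      subst hde
      rw [E_cons_notMem hR]
      funext ω
      have h1 : (fun ω => f (fl d ω)) = -f := funext h
      have h2 := E_comm R l d f
      rw [h1, map_neg] at h2
      have h3 := congrFun h2 ω
      rw [Ad_apply, ← h3]
      simp

theorem E_ins {R : Finset ι} {l : List ι} {f : (ι → Bool) → ℝ} {b : ι}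
    (h : ∀ ω, f (fl b ω) = f ω) : E (insert b R) l f = E R l f := by
  induction l with
  | nil => rfl
  | cons e l ih =>
    by_cases heb : e = b
    · subst heb
      rw [E_cons_mem (Finset.mem_insert_self _ _), ih]
      by_cases he : e ∈ R
      · rw [E_cons_mem he]
      · rw [E_cons_notMem he]
        funext ω
        rw [Ad_apply, E_ind h]
        ring
    · by_cases he : e ∈ R
      · rw [E_cons_mem he, E_cons_mem (Finset.mem_insert_of_mem he), ih]
      · rw [E_cons_notMem he, E_cons_notMem (by simp [heb, he]), ih]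

/-- bounded in `L¹` -/
def Bd (μ : Measure (ι → Bool)) (K : ℝ) (T : ((ι → Bool) → ℝ) →ₗ[ℝ] ((ι → Bool) → ℝ)) : Prop :=
  ∀ f, Integrable f μ → Integrable (T f) μ ∧ ∫ ω, |T f ω| ∂μ ≤ K * ∫ ω, |f ω| ∂μ

variable {μ : Measure (ι → Bool)}

theorem Bd.zero : Bd μ 0 0 := by
  intro f hf
  refine ⟨?_, ?_⟩
  · simp only [LinearMap.zero_apply]
    exact integrable_zero _ _ _
  · simp

theorem Bd.id : Bd μ 1 LinearMap.id := by
  intro f hf
  refine ⟨hf, ?_⟩
  rw [one_mul]
  exact le_rfl

theorem Bd.add {K K' : ℝ} {T T' : ((ι → Bool) → ℝ) →ₗ[ℝ] ((ι → Bool) → ℝ)} (h : Bd μ K T)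
    (h' : Bd μ K' T') : Bd μ (K + K') (T + T') := by
  intro f hf
  obtain ⟨h1, h2⟩ := h f hf
  obtain ⟨h1', h2'⟩ := h' f hf
  refine ⟨h1.add h1', ?_⟩
  have h3 : ∫ ω, |(T + T') f ω| ∂μ ≤ ∫ ω, (|T f ω| + |T' f ω|) ∂μ :=
    integral_mono (h1.add h1').abs (h1.abs.add h1'.abs) (fun ω => abs_add_le _ _)
  rw [integral_add h1.abs h1'.abs] at h3
  linarith

theorem Bd.neg {K : ℝ} {T : ((ι → Bool) → ℝ) →ₗ[ℝ] ((ι → Bool) → ℝ)} (h : Bd μ K T) :
    Bd μ K (-T) := by
  intro f hf
  obtain ⟨h1, h2⟩ := h f hf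
  refine ⟨h1.neg, ?_⟩
  have h3 : ∀ ω, |(-T) f ω| = |T f ω| := fun ω => abs_neg _
  simp only [h3]
  exact h2

theorem Bd.sub {K K' : ℝ} {T T' : ((ι → Bool) → ℝ) →ₗ[ℝ] ((ι → Bool) → ℝ)} (h : Bd μ K T)
    (h' : Bd μ K' T') : Bd μ (K + K') (T - T') := by
  rw [sub_eq_add_neg]
  exact h.add h'.neg

theorem Bd.mul {K : ℝ} {T : ((ι → Bool) → ℝ) →ₗ[ℝ] ((ι → Bool) → ℝ)} (h : Bd μ K T)
    {W : (ι → Bool) → ℝ} (hW : Measurable W) (hW1 : ∀ ω, |W ω| ≤ 1) :
    Bd μ K (LinearMap.mulLeft ℝ W ∘ₗ T) := by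
  intro f hf
  obtain ⟨h1, h2⟩ := h f hf
  have h3 : Integrable (fun ω => W ω * T f ω) μ :=
    h1.bdd_mul (c := 1) hW.aestronglyMeasurable (Filter.Eventually.of_forall hW1)
  refine ⟨h3, ?_⟩
  refine le_trans ?_ h2
  refine integral_mono h3.abs h1.abs (fun ω => ?_)
  show |W ω * T f ω| ≤ |T f ω|
  rw [abs_mul]
  have := mul_le_mul_of_nonneg_right (hW1 ω) (abs_nonneg (T f ω))
  linarith

theorem Bd.Ad {K : ℝ} {T : ((ι → Bool) → ℝ) →ₗ[ℝ] ((ι → Bool) → ℝ)} (h : Bd μ K T) {d : ι}
    (hd : MeasurePreserving (fl d) μ μ) : Bd μ K (Ad d ∘ₗ T) := by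
  intro f hf
  obtain ⟨h1, h2⟩ := h f hf
  have h4 : Integrable (fun ω => T f (fl d ω)) μ :=
    (hd.integrable_comp h1.aestronglyMeasurable).2 h1
  have h5 : ∫ ω, |T f (fl d ω)| ∂μ = ∫ ω, |T f ω| ∂μ := by
    have h6 : Integrable (fun ω => |T f ω|) (Measure.map (fl d) μ) := by
      rw [hd.map_eq]
      exact h1.abs
    have h7 := integral_map hd.measurable.aemeasurable h6.aestronglyMeasurable
    rw [hd.map_eq] at h7
    exact h7.symm
  have h3 : Integrable (fun ω => (T f ω + T f (fl d ω)) / 2) μ := (h1.add h4).div_const 2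
  refine ⟨h3, ?_⟩
  refine le_trans ?_ h2
  have h8 : ∫ ω, |(T f ω + T f (fl d ω)) / 2| ∂μ ≤ ∫ ω, (|T f ω| + |T f (fl d ω)|) / 2 ∂μ := by
    refine integral_mono h3.abs ((h1.abs.add h4.abs).div_const 2) (fun ω => ?_)
    beta_reduce
    rw [abs_div, abs_two]
    exact div_le_div_of_nonneg_right (abs_add_le _ _) (by norm_num)
  have h9 : ∫ ω, (|T f ω| + |T f (fl d ω)|) / 2 ∂μ = ∫ ω, |T f ω| ∂μ := by
    rw [integral_div, integral_add h1.abs h4.abs, h5]
    ring
  rw [h9] at h8
  exact h8

theorem Bd.E (hfl : ∀ d : ι, MeasurePreserving (fl d) μ μ) (R : Finset ι) (l : List ι) :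
    Bd μ 1 (E R l) := by
  induction l with
  | nil => exact Bd.id
  | cons d l ih =>
    unfold ER.E
    split_ifs with h
    · exact ih
    · exact ih.Ad (hfl d)

theorem meas_atom (s A : Finset ι) :
    MeasurableSet {ω : ι → Bool | s.filter (fun d => ω d = true) = A} := by
  by_cases hA : A ⊆ s
  · have h1 : {ω : ι → Bool | s.filter (fun d => ω d = true) = A} =
        ⋂ d ∈ s, {ω : ι → Bool | ω d = decide (d ∈ A)} := by
      ext ω
      simp only [Set.mem_ofPred_eq, Set.mem_iInter]
      constructor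
      · intro h d hd
        rw [← h]
        simp [hd]
      · intro h
        ext d
        rw [Finset.mem_filter]
        constructor
        · rintro ⟨h1, h2⟩
          have h3 := h d h1
          rw [h2] at h3
          exact of_decide_eq_true h3.symm
        · intro h1
          refine ⟨hA h1, ?_⟩
          rw [h d (hA h1)]
          exact decide_eq_true h1
    rw [h1]
    refine Finset.measurableSet_biInter _ (fun d _ => ?_)
    have h1 : Measurable (fun ω : ι → Bool => ω d) := measurable_pi_apply d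
    exact h1 (measurableSet_singleton _)
  · have h1 : {ω : ι → Bool | s.filter (fun d => ω d = true) = A} = ∅ := by
      ext ω
      simp only [Set.mem_ofPred_eq, Set.mem_empty_iff_false, iff_false]
      intro h
      apply hA
      rw [← h]
      exact Finset.filter_subset _ _
    rw [h1]
    exact MeasurableSet.empty

open Classical in
theorem meas_W (s : Finset ι) (𝒜 : Set (Finset ι)) :
    Measurable (fun ω : ι → Bool => if s.filter (fun d => ω d = true) ∈ 𝒜 then (1 : ℝ) else 0) := by
  refine Measurable.ite ?_ measurable_const measurable_const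
  have h1 : {ω : ι → Bool | s.filter (fun d => ω d = true) ∈ 𝒜} =
      ⋃ A ∈ s.powerset.filter (fun A => A ∈ 𝒜),
        {ω : ι → Bool | s.filter (fun d => ω d = true) = A} := by
    ext ω
    simp only [Set.mem_ofPred_eq, Set.mem_iUnion, Finset.mem_filter, Finset.mem_powerset,
      exists_prop]
    constructor
    · intro h
      exact ⟨_, ⟨Finset.filter_subset _ _, h⟩, rfl⟩
    · rintro ⟨A, ⟨_, h⟩, h2⟩
      rw [h2]
      exact h
  rw [h1]
  exact Finset.measurableSet_biUnion _ (fun A _ => meas_atom s A)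

theorem meas_atm (s A : Finset ι) : Measurable (atm s A) :=
  Measurable.ite (meas_atom s A) measurable_const measurable_const

theorem meas_rad (b : ι) : Measurable (rad b) := by
  have h : MeasurableSet {ω : ι → Bool | ω b = true} := by
    have h1 : Measurable (fun ω : ι → Bool => ω b) := measurable_pi_apply b
    exact h1 (measurableSet_singleton true)
  exact Measurable.ite h measurable_const measurable_const

theorem meas_X (j : Ix ι) : Measurable (X F j) := by
  cases j with
  | c => exact measurable_const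
  | r b => exact meas_rad b
  | h b a A => exact ((meas_rad b).mul (meas_rad a)).mul (meas_atm _ _)

theorem rad_abs (b : ι) (ω : ι → Bool) : |rad b ω| = 1 := by
  unfold rad
  split_ifs <;> simp

theorem X_abs (j : Ix ι) (ω : ι → Bool) : |X F j ω| ≤ 1 := by
  cases j with
  | c => simp [X]
  | r b => exact (rad_abs b ω).le
  | h b a A =>
    show |rad b ω * rad a ω * atm (S F b a) A ω| ≤ 1
    rw [abs_mul, abs_mul, rad_abs, rad_abs]
    unfold atm
    split_ifs <;> simp

theorem int_X [IsFiniteMeasure μ] (j : Ix ι) : Integrable (X F j) μ := by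
  refine Integrable.mono' (integrable_const (1 : ℝ)) (meas_X j).aestronglyMeasurable ?_
  exact Filter.Eventually.of_forall (fun ω => X_abs j ω)

end Pool.Agent.Helper667.ER
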