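import Pool.Agent.Helper667.ERC

set_option autoImplicit false

/-! The cut operators. -/

namespace Pool.Agent.Helper667.ER

open Set MeasureTheory

variable {ι : Type} [LinearOrder ι] {F : ι → ℕ → Finset ι}

theorem Coh.E_low (hF : Coh F) {β : ι} {j : Ix ι} (hj : Valid F j) (hb : Below (· ≤ β) j)
    (p : ι → Prop) [DecidablePred p] (hp : ∀ x y, x ≤ y → p y → p x) (n : ℕ) {l : List ι}
    (hl : ∀ d ∈ anti j, d ∈ l) :
    (lv F β j ≤ n ∧ Below p j → E ((F β n).filter p) l (X F j) = X F j) ∧
    (¬ (lv F β j ≤ n ∧ Below p j) → E ((F β n).filter p) l (X F j) = 0) := by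
  constructor
  · intro h
    have h1 := hF.supp_sub hj hb p hp n h
    exact E_fix (fun d hd ω => X_ind (fun hd' => hd (h1 hd')) ω)
  · intro h
    rw [← hF.lv_iff hj hb p hp n, Finset.not_subset] at h
    obtain ⟨d, hd, hd'⟩ := h
    exact E_kill (hl d hd) hd' (hF.X_anti hj hd)

open Classical in
/-- indicator of the event that the trace on `s` is in `𝒜` -/
noncomputable def W (s : Finset ι) (𝒜 : Set (Finset ι)) (ω : ι → Bool) : ℝ :=
  if s.filter (fun d => ω d = true) ∈ 𝒜 then 1 else 0

/-- the top block operator -/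
noncomputable def P (F : ι → ℕ → Finset ι) (b a : ι) (𝒜 : Set (Finset ι)) (l : List ι) :
    ((ι → Bool) → ℝ) →ₗ[ℝ] ((ι → Bool) → ℝ) :=
  LinearMap.mulLeft ℝ (W (S F b a) 𝒜) ∘ₗ
      (E (insert b (insert a (S F b a))) l - E (insert a (S F b a)) l) +
    LinearMap.mulLeft ℝ (fun ω => 1 - W (S F b a) 𝒜 ω) ∘ₗ
      (E (insert b (S F b a)) l - E (S F b a) l)

/-- the elements with top `b` which are retained -/
def Kept (F : ι → ℕ → Finset ι) (b a : ι) (𝒜 : Set (Finset ι)) : Ix ι → Prop
  | Ix.c => False
  | Ix.r b' => b' = b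
  | Ix.h b' a' A' => b' = b ∧ (pos F b a' < pos F b a ∨ (a' = a ∧ A' ∈ 𝒜))

theorem P_apply (b a : ι) (𝒜 : Set (Finset ι)) (l : List ι) (f : (ι → Bool) → ℝ) :
    P F b a 𝒜 l f = W (S F b a) 𝒜 *
      (E (insert b (insert a (S F b a))) l f - E (insert a (S F b a)) l f) +
      (fun ω => 1 - W (S F b a) 𝒜 ω) * (E (insert b (S F b a)) l f - E (S F b a) l f) := rfl

theorem P_indep {b a : ι} {𝒜 : Set (Finset ι)} {l : List ι} {f : (ι → Bool) → ℝ}
    (h : ∀ ω, f (fl b ω) = f ω) : P F b a 𝒜 l f = 0 := by
  rw [P_apply, E_ins h, E_ins h, sub_self, sub_self, mul_zero, mul_zero, add_zero]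

theorem P_kill {b a : ι} {𝒜 : Set (Finset ι)} {l : List ι} {f : (ι → Bool) → ℝ} {d : ι}
    (hl : d ∈ l) (hd : d ∉ insert b (insert a (S F b a))) (h : ∀ ω, f (fl d ω) = - f ω) :
    P F b a 𝒜 l f = 0 := by
  simp only [Finset.mem_insert, not_or] at hd
  rw [P_apply, E_kill hl (by simp [hd]) h, E_kill hl (by simp [hd]) h, E_kill hl (by simp [hd]) h,
    E_kill hl hd.2.2 h, sub_self, mul_zero, mul_zero, add_zero]

theorem Coh.P_spec (hF : Coh F) {b a : ι} (hab : a < b) (𝒜 : Set (Finset ι)) {l : List ι}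
    {j : Ix ι} (hj : Valid F j) (hl : ∀ d ∈ anti j, d ∈ l) :
    (Kept F b a 𝒜 j → P F b a 𝒜 l (X F j) = X F j) ∧
    (¬ Kept F b a 𝒜 j → P F b a 𝒜 l (X F j) = 0) := by
  have hbS : b ∉ S F b a := fun h => lt_irrefl _ (hF.mem_S.1 h).1
  have haS : a ∉ S F b a := fun h => lt_irrefl _ (hF.mem_S.1 h).2
  have hSlt : ∀ d ∈ S F b a, d < b := fun d hd => (hF.mem_S.1 hd).1
  cases j with
  | c =>
    refine ⟨fun h => absurd h id, fun _ => ?_⟩
    exact P_indep (fun ω => rfl)
  | r b' =>
    by_cases hbb : b' = b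
    · subst hbb
      refine ⟨fun _ => ?_, fun h => absurd rfl h⟩
      have hanti := hF.X_anti (j := Ix.r b') hj (d := b') (by simp [anti])
      have hbl : b' ∈ l := hl b' (by simp [anti])
      have e1 : E (insert b' (insert a (S F b' a))) l (X F (Ix.r b')) = X F (Ix.r b') :=
        E_fix (fun d hd ω => X_ind (by
          simp only [supp, Finset.mem_singleton]
          rintro rfl
          exact hd (Finset.mem_insert_self _ _)) ω)
      have e2 : E (insert b' (S F b' a)) l (X F (Ix.r b')) = X F (Ix.r b') :=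
        E_fix (fun d hd ω => X_ind (by
          simp only [supp, Finset.mem_singleton]
          rintro rfl
          exact hd (Finset.mem_insert_self _ _)) ω)
      rw [P_apply, e1, e2, E_kill hbl (by simp [hbS, hab.ne']) hanti, E_kill hbl hbS hanti,
        sub_zero]
      funext ω
      show W (S F b' a) 𝒜 ω * X F (Ix.r b') ω + (1 - W (S F b' a) 𝒜 ω) * X F (Ix.r b') ω =
        X F (Ix.r b') ω
      ring
    · refine ⟨fun h => absurd h hbb, fun _ => ?_⟩
      exact P_indep (fun ω => X_ind (by simp [supp, Ne.symm hbb]) ω)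
  | h b' a' A' =>
    have hab' : a' < b' := hj.1
    rcases lt_trichotomy b' b with hlt | heq | hgt
    · refine ⟨fun h => absurd h.1 hlt.ne, fun _ => ?_⟩
      refine P_indep (fun ω => X_ind ?_ ω)
      simp only [supp, Finset.mem_insert, not_or]
      refine ⟨hlt.ne', (hab'.trans hlt).ne', fun h => ?_⟩
      exact lt_asymm hlt (hF.mem_S.1 h).1
    · subst heq
      have hab2 := hl b' (by simp [anti])
      have haa2 := hl a' (by simp [anti])
      have antib := hF.X_anti hj (d := b') (by simp [anti])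
      have antia := hF.X_anti hj (d := a') (by simp [anti])
      by_cases h1 : pos F b' a' < pos F b' a
      · refine ⟨fun _ => ?_, fun h => absurd ⟨rfl, Or.inl h1⟩ h⟩
        have haS' : a' ∈ S F b' a := hF.mem_S.2 ⟨hab', h1⟩
        have hsub : S F b' a' ⊆ S F b' a := by
          intro d hd
          rw [hF.mem_S] at hd ⊢
          exact ⟨hd.1, hd.2.trans h1⟩
        have e2 : E (insert b' (S F b' a)) l (X F (Ix.h b' a' A')) = X F (Ix.h b' a' A') :=
          E_fix (fun d hd ω => X_ind (by
            simp only [supp, Finset.mem_insert, not_or]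
            simp only [Finset.mem_insert, not_or] at hd
            exact ⟨hd.1, fun h => hd.2 (h ▸ haS'), fun h => hd.2 (hsub h)⟩) ω)
        have e1 : E (insert b' (insert a (S F b' a))) l (X F (Ix.h b' a' A')) =
            X F (Ix.h b' a' A') :=
          E_fix (fun d hd ω => X_ind (by
            simp only [supp, Finset.mem_insert, not_or]
            simp only [Finset.mem_insert, not_or] at hd
            exact ⟨hd.1, fun h => hd.2.2 (h ▸ haS'), fun h => hd.2.2 (hsub h)⟩) ω)
        rw [P_apply, e1, e2, E_kill hab2 (by simp [hbS, hab.ne']) antib, E_kill hab2 hbS antib,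
          sub_zero]
        funext ω
        show W (S F b' a) 𝒜 ω * X F (Ix.h b' a' A') ω +
          (1 - W (S F b' a) 𝒜 ω) * X F (Ix.h b' a' A') ω = X F (Ix.h b' a' A') ω
        ring
      · by_cases h2 : a' = a
        · subst h2
          have e1 : E (insert b' (insert a' (S F b' a'))) l (X F (Ix.h b' a' A')) =
              X F (Ix.h b' a' A') :=
            E_fix (fun d hd ω => X_ind hd ω)
          have e3 : P F b' a' 𝒜 l (X F (Ix.h b' a' A')) =
              W (S F b' a') 𝒜 * X F (Ix.h b' a' A') := by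
            rw [P_apply, e1, E_kill hab2 (by simp [hbS, hab.ne']) antib,
              E_kill haa2 (by simp [haS, hab.ne]) antia, E_kill hab2 hbS antib, sub_zero, sub_zero,
              mul_zero, add_zero]
          rw [e3]
          constructor
          · rintro ⟨-, h | ⟨-, h⟩⟩
            · exact absurd h h1
            · funext ω
              show W (S F b' a') 𝒜 ω * (rad b' ω * rad a' ω * atm (S F b' a') A' ω) =
                rad b' ω * rad a' ω * atm (S F b' a') A' ω
              unfold atm W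
              by_cases hA : (S F b' a').filter (fun d => ω d = true) = A'
              · rw [hA, if_pos h, one_mul]
              · rw [if_neg hA, mul_zero, mul_zero]
          · intro h
            funext ω
            show W (S F b' a') 𝒜 ω * (rad b' ω * rad a' ω * atm (S F b' a') A' ω) = 0
            unfold atm W
            by_cases hA : (S F b' a').filter (fun d => ω d = true) = A'
            · have hn : A' ∉ 𝒜 := fun hA' => h ⟨rfl, Or.inr ⟨rfl, hA'⟩⟩
              rw [hA, if_neg hn, zero_mul]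
            · rw [if_neg hA, mul_zero, mul_zero]
        · refine ⟨fun h => ?_, fun _ => ?_⟩
          · rcases h.2 with h3 | h3
            · exact absurd h3 h1
            · exact absurd h3.1 h2
          · refine P_kill haa2 ?_ antia
            simp only [Finset.mem_insert, not_or]
            exact ⟨hab'.ne, h2, fun h => h1 (hF.mem_S.1 h).2⟩
    · refine ⟨fun h => absurd h.1 hgt.ne', fun _ => ?_⟩
      refine P_kill (hl b' (by simp [anti])) ?_ (hF.X_anti hj (by simp [anti]))
      simp only [Finset.mem_insert, not_or]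
      exact ⟨hgt.ne', (hab.trans hgt).ne', fun h => lt_asymm hgt (hSlt _ h)⟩

/-- the lower part of the cut operator -/
noncomputable def T0 (F : ι → ℕ → Finset ι) (β : ι) (n : ℕ) (b : ι) (l : List ι) :
    ((ι → Bool) → ℝ) →ₗ[ℝ] ((ι → Bool) → ℝ) :=
  E ((F β n).filter (fun _ => True)) l + E ((F β (n + 1)).filter (fun x => x < b)) l -
    E ((F β n).filter (fun x => x ≤ b)) l

open Classical in
theorem Coh.T0_spec (hF : Coh F) {β : ι} (n : ℕ) (b : ι) {l : List ι} {j : Ix ι}
    (hj : Valid F j) (hb : Below (· ≤ β) j) (hl : ∀ d ∈ anti j, d ∈ l) :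
    T0 F β n b l (X F j) = (if lv F β j ≤ n then X F j else 0) +
      (if lv F β j ≤ n + 1 ∧ Below (· < b) j then X F j else 0) -
      (if lv F β j ≤ n ∧ Below (· ≤ b) j then X F j else 0) := by
  have h1 := hF.E_low hj hb (fun _ => True) (fun _ _ _ _ => trivial) n hl
  have h2 := hF.E_low hj hb (fun x => x < b) (fun _ _ h h' => lt_of_le_of_lt h h') (n + 1) hl
  have h3 := hF.E_low hj hb (fun x => x ≤ b) (fun _ _ h h' => le_trans h h') n hl
  have hT : Below (fun _ : ι => True) j := by
    cases j <;> trivial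
  show E ((F β n).filter (fun _ => True)) l (X F j) +
    E ((F β (n + 1)).filter (fun x => x < b)) l (X F j) -
    E ((F β n).filter (fun x => x ≤ b)) l (X F j) = _
  have e1 : E ((F β n).filter (fun _ => True)) l (X F j) =
      if lv F β j ≤ n then X F j else 0 := by
    split_ifs with h
    · exact h1.1 ⟨h, hT⟩
    · exact h1.2 (fun h' => h h'.1)
  have e2 : E ((F β (n + 1)).filter (fun x => x < b)) l (X F j) =
      if lv F β j ≤ n + 1 ∧ Below (· < b) j then X F j else 0 := by
    split_ifs with h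
    · exact h2.1 h
    · exact h2.2 h
  have e3 : E ((F β n).filter (fun x => x ≤ b)) l (X F j) =
      if lv F β j ≤ n ∧ Below (· ≤ b) j then X F j else 0 := by
    split_ifs with h
    · exact h3.1 h
    · exact h3.2 h
  rw [e1, e2, e3]

variable {μ : Measure (ι → Bool)}

theorem W_abs (s : Finset ι) (𝒜 : Set (Finset ι)) (ω : ι → Bool) :
    |W s 𝒜 ω| ≤ 1 ∧ |1 - W s 𝒜 ω| ≤ 1 := by
  unfold W
  split_ifs <;> simp

theorem T0_bd (hfl : ∀ d : ι, MeasurePreserving (fl d) μ μ) (β : ι) (n : ℕ) (b : ι)
    (l : List ι) : Bd μ 3 (T0 F β n b l) := by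
  have h := ((Bd.E hfl ((F β n).filter (fun _ => True)) l).add
    (Bd.E hfl ((F β (n + 1)).filter (fun x => x < b)) l)).sub
    (Bd.E hfl ((F β n).filter (fun x => x ≤ b)) l)
  have h3 : (1 : ℝ) + 1 + 1 = 3 := by norm_num
  rw [h3] at h
  exact h

theorem P_bd (hfl : ∀ d : ι, MeasurePreserving (fl d) μ μ) (b a : ι) (𝒜 : Set (Finset ι))
    (l : List ι) : Bd μ 4 (P F b a 𝒜 l) := by
  have hW : Measurable (W (S F b a) 𝒜) := meas_W _ _
  have h := (((Bd.E hfl (insert b (insert a (S F b a))) l).sub
    (Bd.E hfl (insert a (S F b a)) l)).mul hW (fun ω => (W_abs _ _ ω).1)).add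
    (((Bd.E hfl (insert b (S F b a)) l).sub (Bd.E hfl (S F b a) l)).mul
      (measurable_const.sub hW) (fun ω => (W_abs _ _ ω).2))
  have h3 : (1 : ℝ) + 1 + (1 + 1) = 4 := by norm_num
  rw [h3] at h
  exact h

end Pool.Agent.Helper667.ER
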