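import Pool.Agent.Helper667.ERD

set_option autoImplicit false

/-! The cut lemma. -/

namespace Pool.Agent.Helper667.ER

open Set MeasureTheory

variable {ι : Type} [LinearOrder ι] {F : ι → ℕ → Finset ι}

/-- the top coordinate -/
def top : Ix ι → WithBot ι
  | Ix.c => ⊥
  | Ix.r b => (b : WithBot ι)
  | Ix.h b _ _ => (b : WithBot ι)

/-- the second entry of the key -/
noncomputable def sec (F : ι → ℕ → Finset ι) : Ix ι → WithBot (ℕ ×ₗ ι)
  | Ix.c => ⊥
  | Ix.r _ => ⊥
  | Ix.h b a _ => ((pos F b a : ℕ ×ₗ ι) : WithBot (ℕ ×ₗ ι))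

/-- the key of an index -/
noncomputable def key (F : ι → ℕ → Finset ι) (β : ι) (f : ℕ → Ix ι) (k : ℕ) :
    ℕ ×ₗ (WithBot ι ×ₗ (WithBot (ℕ ×ₗ ι) ×ₗ ℕ)) :=
  toLex (lv F β (f k), toLex (top (f k), toLex (sec F (f k), k)))

theorem key_lt {β : ι} {f : ℕ → Ix ι} {k m : ℕ} :
    key F β f k < key F β f m ↔ lv F β (f k) < lv F β (f m) ∨
      (lv F β (f k) = lv F β (f m) ∧ (top (f k) < top (f m) ∨
        (top (f k) = top (f m) ∧ (sec F (f k) < sec F (f m) ∨
          (sec F (f k) = sec F (f m) ∧ k < m))))) := by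
  unfold key
  rw [Prod.Lex.toLex_lt_toLex, Prod.Lex.toLex_lt_toLex, Prod.Lex.toLex_lt_toLex]

theorem key_inj {β : ι} {f : ℕ → Ix ι} {k m : ℕ} (h : key F β f k = key F β f m) : k = m := by
  unfold key at h
  exact congrArg (fun x => (ofLex (ofLex (ofLex x).2).2).2) h

theorem below_lt {j : Ix ι} {b : ι} : Below (· < b) j ↔ top j < (b : WithBot ι) := by
  cases j with
  | c => simp [Below, top]
  | r b' => simp [Below, top]
  | h b' a' A' => simp [Below, top]

theorem below_le {j : Ix ι} {b : ι} : Below (· ≤ b) j ↔ top j ≤ (b : WithBot ι) := by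
  cases j with
  | c => simp [Below, top]
  | r b' => simp [Below, top]
  | h b' a' A' => simp [Below, top]

theorem Kept_top {b a : ι} {𝒜 : Set (Finset ι)} {j : Ix ι} (h : Kept F b a 𝒜 j) :
    top j = (b : WithBot ι) := by
  cases j with
  | c => exact absurd h id
  | r b' => exact congrArg _ h
  | h b' a' A' => exact congrArg _ h.1

/-- `T` keeps the earlier functions and kills the others -/
def Cut (F : ι → ℕ → Finset ι) (β : ι) (f : ℕ → Ix ι) (l : List ι) (m : ℕ)
    (T : ((ι → Bool) → ℝ) →ₗ[ℝ] ((ι → Bool) → ℝ)) : Prop :=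
  ∀ k, (∀ d ∈ anti (f k), d ∈ l) →
    (key F β f k < key F β f m → T (X F (f k)) = X F (f k)) ∧
    (¬ key F β f k < key F β f m → T (X F (f k)) = 0)

theorem Bd.mono {μ : Measure (ι → Bool)} {K K' : ℝ}
    {T : ((ι → Bool) → ℝ) →ₗ[ℝ] ((ι → Bool) → ℝ)} (h : Bd μ K T) (hK : K ≤ K') : Bd μ K' T := by
  intro f hf
  obtain ⟨h1, h2⟩ := h f hf
  refine ⟨h1, h2.trans ?_⟩
  exact mul_le_mul_of_nonneg_right hK (integral_nonneg (fun ω => abs_nonneg _))

theorem cut_c {β : ι} {f : ℕ → Ix ι} (hf : Function.Injective f) (hF : Coh F)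
    (hb : ∀ k, Below (· ≤ β) (f k)) (l : List ι) (m : ℕ) (hm : f m = Ix.c) :
    Cut F β f l m 0 := by
  intro k _
  refine ⟨fun h => ?_, fun _ => rfl⟩
  exfalso
  rw [key_lt, hm] at h
  by_cases hk : f k = Ix.c
  · have : k = m := hf (hk.trans hm.symm)
    subst this
    rw [hk] at h
    rcases h with h | ⟨_, h | ⟨_, h | ⟨_, h⟩⟩⟩
    · exact lt_irrefl _ h
    · exact lt_irrefl _ h
    · exact lt_irrefl _ h
    · exact lt_irrefl _ h
  · have h1 := hF.lv_pos (hb k) hk
    have h2 : lv F β (Ix.c : Ix ι) = 0 := rfl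
    rw [h2] at h
    omega

theorem cut_r {β : ι} {f : ℕ → Ix ι} (hf : Function.Injective f) (hF : Coh F)
    (hv : ∀ k, Valid F (f k)) (hb : ∀ k, Below (· ≤ β) (f k)) (l : List ι) (m : ℕ) {b : ι}
    (hm : f m = Ix.r b) :
    Cut F β f l m (T0 F β (lv F β (f m) - 1) b l) := by
  classical
  intro k hl
  have hpos : 1 ≤ lv F β (f m) := hF.lv_pos (hb m) (by rw [hm]; simp)
  obtain ⟨n, hn⟩ : ∃ n, lv F β (f m) = n + 1 := ⟨lv F β (f m) - 1, by omega⟩
  have hspec := hF.T0_spec n b (hv k) (hb k) hl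
  rw [hn, Nat.add_sub_cancel]
  rw [below_lt, below_le] at hspec
  have htop : top (f m) = (b : WithBot ι) := by rw [hm]; rfl
  have hsec : sec F (f m) = ⊥ := by rw [hm]; rfl
  have hlvb : lv F β (f m) = tt F β b := by rw [hm]; rfl
  rw [key_lt, hn, htop, hsec, hspec]
  have hbk := hb k
  -- the elements with top `b`
  have hbt : top (f k) = (b : WithBot ι) → n + 1 ≤ lv F β (f k) := by
    intro h
    cases hk : f k with
    | c => rw [hk] at h; exact absurd h (by simp [top])
    | r b' =>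
      rw [hk] at h
      have hbb : b' = b := WithBot.coe_injective h
      rw [hbb, ← hn, hlvb]
      exact le_rfl
    | h b' a' A' =>
      rw [hk] at h
      have hbb : b' = b := WithBot.coe_injective h
      rw [hbb, ← hn, hlvb]
      exact le_max_left _ _
  have hsame : top (f k) = (b : WithBot ι) → ¬ (sec F (f k) < ⊥ ∨ (sec F (f k) = ⊥ ∧ k < m)) := by
    intro h
    rintro (h1 | ⟨h1, h2⟩)
    · exact not_lt_bot h1
    · cases hk : f k with
      | c => rw [hk] at h; exact absurd h (by simp [top])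
      | r b' =>
        rw [hk] at h
        have hbb : b' = b := WithBot.coe_injective h
        have : k = m := hf (by rw [hk, hm, hbb])
        omega
      | h b' a' A' =>
        rw [hk] at h1
        exact absurd h1 (by simp [sec])
  by_cases h1 : lv F β (f k) ≤ n
  · have hne : top (f k) ≠ (b : WithBot ι) := fun h => by have := hbt h; omega
    refine ⟨fun _ => ?_, fun h => absurd (Or.inl (by omega)) h⟩
    by_cases h2 : top (f k) < (b : WithBot ι)
    · rw [if_pos h1, if_pos ⟨by omega, h2⟩, if_pos ⟨h1, h2.le⟩]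
      simp
    · have h3 : ¬ top (f k) ≤ (b : WithBot ι) := fun h => h2 (lt_of_le_of_ne h hne)
      rw [if_pos h1, if_neg (fun h => h2 h.2), if_neg (fun h => h3 h.2)]
      simp
  · rw [if_neg h1, if_neg (fun h : _ ∧ _ => h1 h.1)]
    constructor
    · rintro (h | ⟨h, h2 | ⟨h2, h3⟩⟩)
      · omega
      · rw [if_pos ⟨by omega, h2⟩]
        simp
      · exact absurd h3 (hsame h2)
    · intro h
      have h3 : ¬ (lv F β (f k) ≤ n + 1 ∧ top (f k) < (b : WithBot ι)) := by
        rintro ⟨h4, h5⟩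
        exact h (Or.inr ⟨by omega, Or.inl h5⟩)
      rw [if_neg h3]
      simp

theorem cut_h {β : ι} {f : ℕ → Ix ι} (hf : Function.Injective f) (hF : Coh F)
    (hv : ∀ k, Valid F (f k)) (hb : ∀ k, Below (· ≤ β) (f k)) (l : List ι) (m : ℕ) {b a : ι}
    {A : Finset ι} (hm : f m = Ix.h b a A) :
    Cut F β f l m (T0 F β (lv F β (f m) - 1) b l +
      P F b a {A' | ∃ k, k < m ∧ f k = Ix.h b a A'} l) := by
  classical
  intro k hl
  have hvm := hv m
  rw [hm] at hvm
  have hab : a < b := hvm.1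
  have hpos : 1 ≤ lv F β (f m) := hF.lv_pos (hb m) (by rw [hm]; simp)
  obtain ⟨n, hn⟩ : ∃ n, lv F β (f m) = n + 1 := ⟨lv F β (f m) - 1, by omega⟩
  have hspec := hF.T0_spec n b (hv k) (hb k) hl
  have hP := hF.P_spec hab {A' | ∃ k, k < m ∧ f k = Ix.h b a A'} (hv k) hl
  rw [hn, Nat.add_sub_cancel]
  rw [below_lt, below_le] at hspec
  have htop : top (f m) = (b : WithBot ι) := by rw [hm]; rfl
  have hsec : sec F (f m) = ((pos F b a : ℕ ×ₗ ι) : WithBot (ℕ ×ₗ ι)) := by rw [hm]; rfl
  have hlvb : lv F β (f m) = max (tt F β b) (tt F b a) := by rw [hm]; rfl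
  rw [LinearMap.add_apply, key_lt, hn, htop, hsec]
  by_cases htk : top (f k) = (b : WithBot ι)
  · -- same top
    have hT0 : T0 F β n b l (X F (f k)) = 0 := by
      have h0 : ¬ (lv F β (f k) ≤ n + 1 ∧ top (f k) < (b : WithBot ι)) := by
        rintro ⟨_, h⟩
        rw [htk] at h
        exact lt_irrefl _ h
      by_cases h1 : lv F β (f k) ≤ n
      · rw [hspec, if_pos h1, if_neg h0, if_pos ⟨h1, htk.le⟩]
        simp
      · rw [hspec, if_neg h1, if_neg h0, if_neg (fun h : _ ∧ _ => h1 h.1)]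
        simp
    have hiff : (lv F β (f k) < n + 1 ∨ (lv F β (f k) = n + 1 ∧ (top (f k) < (b : WithBot ι) ∨
        (top (f k) = (b : WithBot ι) ∧ (sec F (f k) < ((pos F b a : ℕ ×ₗ ι) : WithBot (ℕ ×ₗ ι)) ∨
          (sec F (f k) = ((pos F b a : ℕ ×ₗ ι) : WithBot (ℕ ×ₗ ι)) ∧ k < m)))))) ↔
        Kept F b a {A' | ∃ k, k < m ∧ f k = Ix.h b a A'} (f k) := by
      cases hk : f k with
      | c => rw [hk] at htk; exact absurd htk (by simp [top])
      | r b' =>
        rw [hk] at htk
        have hbb : b' = b := WithBot.coe_injective htk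
        subst hbb
        have h1 : lv F β (Ix.r b' : Ix ι) ≤ n + 1 := by
          rw [← hn, hlvb]
          exact le_max_left _ _
        refine ⟨fun _ => rfl, fun _ => ?_⟩
        rcases Nat.lt_or_ge (lv F β (Ix.r b' : Ix ι)) (n + 1) with h2 | h2
        · exact Or.inl h2
        · exact Or.inr ⟨le_antisymm h1 h2, Or.inr ⟨rfl, Or.inl (WithBot.bot_lt_coe _)⟩⟩
      | h b' a' A' =>
        rw [hk] at htk
        have hbb : b' = b := WithBot.coe_injective htk
        subst hbb
        have h1 : lv F β (Ix.h b' a' A' : Ix ι) = max (tt F β b') (tt F b' a') := rfl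
        have h2 : top (Ix.h b' a' A' : Ix ι) = (b' : WithBot ι) := rfl
        have h3 : sec F (Ix.h b' a' A' : Ix ι) =
          ((pos F b' a' : ℕ ×ₗ ι) : WithBot (ℕ ×ₗ ι)) := rfl
        have hn' : n + 1 = max (tt F β b') (tt F b' a) := by rw [← hn, hlvb]
        have h4 : Kept F b' a {A' | ∃ k, k < m ∧ f k = Ix.h b' a A'} (Ix.h b' a' A') ↔
          (pos F b' a' < pos F b' a ∨ (a' = a ∧ ∃ k, k < m ∧ f k = Ix.h b' a A')) := by
          constructor
          · exact fun h => h.2
          · exact fun h => ⟨rfl, h⟩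
        rw [h4, h1, h2, h3, hn']
        constructor
        · rintro (h | ⟨h, h5 | ⟨_, h5 | ⟨h5, h6⟩⟩⟩)
          · left
            rw [pos_lt]
            left
            have h6 := (max_lt_iff.1 h).1
            have h7 := (max_lt_iff.1 h).2
            rcases lt_max_iff.1 h6 with h9 | h9
            · exact absurd h9 (lt_irrefl _)
            · rcases lt_max_iff.1 h7 with h8 | h8
              · exact h8.trans h9
              · exact h8
          · exact absurd h5 (lt_irrefl _)
          · exact Or.inl (WithBot.coe_lt_coe.1 h5)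
          · right
            have haa : a' = a := pos_inj (WithBot.coe_injective h5)
            exact ⟨haa, k, h6, by rw [hk, haa]⟩
        · rintro (h | ⟨haa, k', hk', hfk'⟩)
          · have h5 : tt F b' a' ≤ tt F b' a := by
              rcases pos_lt.1 h with h6 | h6
              · exact h6.le
              · exact h6.1.le
            rcases lt_or_eq_of_le (max_le_max (le_refl (tt F β b')) h5) with h6 | h6
            · exact Or.inl h6
            · exact Or.inr ⟨h6, Or.inr ⟨rfl, Or.inl (WithBot.coe_lt_coe.2 h)⟩⟩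
          · subst haa
            have : k = k' := hf (by rw [hk, hfk'])
            subst this
            exact Or.inr ⟨rfl, Or.inr ⟨rfl, Or.inr ⟨rfl, hk'⟩⟩⟩
    constructor
    · intro h
      rw [hP.1 (hiff.1 h), hT0, zero_add]
    · intro h
      rw [hP.2 (fun h' => h (hiff.2 h')), hT0, zero_add]
  · -- different top
    have hnk : ¬ Kept F b a {A' | ∃ k, k < m ∧ f k = Ix.h b a A'} (f k) :=
      fun h => htk (Kept_top h)
    rw [hP.2 hnk, add_zero, hspec]
    by_cases h1 : lv F β (f k) ≤ n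
    · refine ⟨fun _ => ?_, fun h => absurd (Or.inl (by omega)) h⟩
      by_cases h2 : top (f k) < (b : WithBot ι)
      · rw [if_pos h1, if_pos ⟨by omega, h2⟩, if_pos ⟨h1, h2.le⟩]
        simp
      · have h3 : ¬ top (f k) ≤ (b : WithBot ι) := fun h => h2 (lt_of_le_of_ne h htk)
        rw [if_pos h1, if_neg (fun h => h2 h.2), if_neg (fun h => h3 h.2)]
        simp
    · rw [if_neg h1, if_neg (fun h : _ ∧ _ => h1 h.1)]
      constructor
      · rintro (h | ⟨h, h2 | ⟨h2, h3⟩⟩)
        · omega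
        · rw [if_pos ⟨by omega, h2⟩]
          simp
        · exact absurd h2 htk
      · intro h
        have h3 : ¬ (lv F β (f k) ≤ n + 1 ∧ top (f k) < (b : WithBot ι)) := by
          rintro ⟨h4, h5⟩
          exact h (Or.inr ⟨by omega, Or.inl h5⟩)
        rw [if_neg h3]
        simp

end Pool.Agent.Helper667.ER
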