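import Pool.Agent.Helper667.ERE

set_option autoImplicit false

/-! The basic sequence property (at the level of functions). -/

namespace Pool.Agent.Helper667.ER

open Set MeasureTheory

variable {ι : Type} [LinearOrder ι] {F : ι → ℕ → Finset ι}

theorem cut_exists {μ : Measure (ι → Bool)} (hfl : ∀ d : ι, MeasurePreserving (fl d) μ μ)
    {β : ι} {f : ℕ → Ix ι} (hf : Function.Injective f) (hF : Coh F)
    (hv : ∀ k, Valid F (f k)) (hb : ∀ k, Below (· ≤ β) (f k)) (l : List ι) (m : ℕ) :
    ∃ T, Bd μ 7 T ∧ Cut F β f l m T := by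
  cases hm : f m with
  | c => exact ⟨0, Bd.zero.mono (by norm_num), cut_c hf hF hb l m hm⟩
  | r b => exact ⟨_, (T0_bd hfl β _ b l).mono (by norm_num), cut_r hf hF hv hb l m hm⟩
  | h b a A =>
    refine ⟨_, ?_, cut_h hf hF hv hb l m hm⟩
    have h := (T0_bd (F := F) hfl β (lv F β (f m) - 1) b l).add
      (P_bd (F := F) hfl b a {A' | ∃ k, k < m ∧ f k = Ix.h b a A'} l)
    exact h.mono (by norm_num)

theorem fin_lv (hF : Coh F) (β : ι) (n : ℕ) :
    {j : Ix ι | Valid F j ∧ Below (· ≤ β) j ∧ lv F β j ≤ n}.Finite := by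
  classical
  have h1 : {j : Ix ι | Valid F j ∧ Below (· ≤ β) j ∧ lv F β j ≤ n} ⊆
      ({Ix.c} : Set (Ix ι)) ∪ (Ix.r '' (F β n : Set ι)) ∪
      ((fun q : ι × ι × Finset ι => Ix.h q.1 q.2.1 q.2.2) ''
        (((F β n) ×ˢ ((F β n) ×ˢ (F β n).powerset) : Finset (ι × ι × Finset ι)) :
          Set (ι × ι × Finset ι))) := by
    rintro j ⟨hv, hb, hl⟩
    have hs := hF.supp_sub hv hb (fun _ => True) (fun _ _ _ _ => trivial) n
      ⟨hl, by cases j <;> trivial⟩
    have hs' : supp F j ⊆ F β n := hs.trans (Finset.filter_subset _ _)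
    cases j with
    | c => exact Or.inl (Or.inl rfl)
    | r b => exact Or.inl (Or.inr ⟨b, hs' (by simp [supp]), rfl⟩)
    | h b a A =>
      refine Or.inr ⟨(b, a, A), ?_, rfl⟩
      rw [Finset.mem_coe, Finset.mem_product, Finset.mem_product, Finset.mem_powerset]
      refine ⟨hs' (by simp [supp]), hs' (by simp [supp]), ?_⟩
      exact hv.2.trans (fun d hd => hs' (by simp [supp, hd]))
  refine Set.Finite.subset ?_ h1
  exact ((Set.finite_singleton _).union ((Finset.finite_toSet _).image _)).union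
    ((Finset.finite_toSet _).image _)

theorem fin_key (hF : Coh F) {β : ι} {f : ℕ → Ix ι} (hf : Function.Injective f)
    (hv : ∀ k, Valid F (f k)) (hb : ∀ k, Below (· ≤ β) (f k)) (m : ℕ) :
    {k | key F β f k < key F β f m}.Finite := by
  have h1 : {k | key F β f k < key F β f m} ⊆
      f ⁻¹' {j : Ix ι | Valid F j ∧ Below (· ≤ β) j ∧ lv F β j ≤ lv F β (f m)} := by
    intro k hk
    refine ⟨hv k, hb k, ?_⟩
    rcases key_lt.1 hk with h | h
    · exact h.le
    · exact h.1.le
  exact ((fin_lv hF β _).preimage hf.injOn).subset h1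

/-- enumeration of `ℕ` along a key with finite initial segments -/
theorem enum_key {κ : Type} [LinearOrder κ] (g : ℕ → κ) (hg : Function.Injective g)
    (hfin : ∀ m, {k | g k < g m}.Finite) :
    ∃ π : Equiv.Perm ℕ, ∀ i j, i < j ↔ g (π i) < g (π j) := by
  let rk : ℕ → ℕ := fun m => {k | g k < g m}.ncard
  have hmono : ∀ k m, g k < g m → rk k < rk m := by
    intro k m h
    apply Set.ncard_lt_ncard _ (hfin m)
    refine ⟨fun x hx => lt_trans hx h, fun hsub => ?_⟩
    exact lt_irrefl _ (hsub h)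
  have hiff : ∀ k m, rk k < rk m ↔ g k < g m := by
    intro k m
    constructor
    · intro h
      by_contra hcon
      rcases lt_or_eq_of_le (not_lt.1 hcon) with h1 | h1
      · exact absurd (hmono _ _ h1) (by omega)
      · have := hg h1
        subst this
        omega
    · exact hmono k m
  have hinj : Function.Injective rk := by
    intro k m h
    by_contra hne
    rcases lt_trichotomy (g k) (g m) with h1 | h1 | h1
    · have := hmono _ _ h1; omega
    · exact hne (hg h1)
    · have := hmono _ _ h1; omega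
  have : Infinite (Set.range rk) := (Set.infinite_range_of_injective hinj).to_subtype
  let e1 : ℕ ≃o Set.range rk := Nat.Subtype.orderIsoOfNat (Set.range rk)
  let e2 : ℕ ≃ Set.range rk := Equiv.ofInjective rk hinj
  refine ⟨e1.toEquiv.trans e2.symm, fun i j => ?_⟩
  have h1 : ∀ i, rk ((e1.toEquiv.trans e2.symm) i) = (e1 i : ℕ) := by
    intro i
    have : e2 (e2.symm (e1 i)) = e1 i := e2.apply_symm_apply _
    exact congrArg Subtype.val this
  rw [← hiff, h1, h1]
  constructor
  · intro h
    exact_mod_cast e1.lt_iff_lt.2 h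
  · intro h
    exact e1.lt_iff_lt.1 (by exact_mod_cast h)

/-- the basic sequence inequality for functions -/
theorem basis_fun {μ : Measure (ι → Bool)} [IsFiniteMeasure μ]
    (hfl : ∀ d : ι, MeasurePreserving (fl d) μ μ)
    {β : ι} {f : ℕ → Ix ι} (hf : Function.Injective f) (hF : Coh F)
    (hv : ∀ k, Valid F (f k)) (hb : ∀ k, Below (· ≤ β) (f k)) :
    ∃ π : Equiv.Perm ℕ, ∀ (a : ℕ → ℝ) (m n : ℕ), m ≤ n →
      ∫ ω, |∑ k ∈ Finset.range m, a k * X F (f (π k)) ω| ∂μ ≤
        7 * ∫ ω, |∑ k ∈ Finset.range n, a k * X F (f (π k)) ω| ∂μ := by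
  classical
  obtain ⟨π, hπ⟩ := enum_key (key F β f) (fun _ _ h => key_inj h) (fin_key hF hf hv hb)
  refine ⟨π, fun a m n hmn => ?_⟩
  rcases Nat.eq_or_lt_of_le hmn with rfl | hlt
  · have h0 : 0 ≤ ∫ ω, |∑ k ∈ Finset.range m, a k * X F (f (π k)) ω| ∂μ :=
      integral_nonneg (fun ω => abs_nonneg _)
    linarith
  obtain ⟨T, hT, hcut⟩ := cut_exists hfl hf hF hv hb
    ((Finset.range n).biUnion (fun k => anti (f (π k)))).toList (π m)
  have hint : Integrable (∑ k ∈ Finset.range n, a k • X F (f (π k))) μ := by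
    refine integrable_finsetSum' _ (fun k _ => ?_)
    exact (int_X (F := F) (μ := μ) (f (π k))).smul (a k)
  have hTs : T (∑ k ∈ Finset.range n, a k • X F (f (π k))) =
      ∑ k ∈ Finset.range m, a k • X F (f (π k)) := by
    rw [map_sum]
    have h1 : ∀ k ∈ Finset.range n, T (a k • X F (f (π k))) =
        if k < m then a k • X F (f (π k)) else 0 := by
      intro k hk
      have h2 := hcut (π k) (fun d hd => by
        rw [Finset.mem_toList, Finset.mem_biUnion]
        exact ⟨k, hk, hd⟩)
      rw [map_smul]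
      by_cases hkm : k < m
      · rw [if_pos hkm, h2.1 ((hπ k m).1 hkm)]
      · rw [if_neg hkm, h2.2 (fun h => hkm ((hπ k m).2 h)), smul_zero]
    rw [Finset.sum_congr rfl h1, ← Finset.sum_filter]
    congr 1
    ext k
    simp only [Finset.mem_filter, Finset.mem_range]
    omega
  obtain ⟨h1, h2⟩ := hT _ hint
  rw [hTs] at h2
  have h3 : ∀ (N : ℕ) (ω : ι → Bool), (∑ k ∈ Finset.range N, a k • X F (f (π k))) ω =
      ∑ k ∈ Finset.range N, a k * X F (f (π k)) ω := by
    intro N ω
    rw [Finset.sum_apply]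
    rfl
  simp only [h3] at h2
  exact h2

end Pool.Agent.Helper667.ER
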