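import Pool.Agent.Helper667.ERF

set_option autoImplicit false

/-! Transfer to `L¹`. -/

namespace Pool.Agent.Helper667.ER

open Set MeasureTheory

variable {ι : Type} [LinearOrder ι] {F : ι → ℕ → Finset ι} {μ : Measure (ι → Bool)}

/-- the class of `X F j` in `L¹` -/
noncomputable def XL (F : ι → ℕ → Finset ι) (μ : Measure (ι → Bool)) [IsFiniteMeasure μ]
    (j : Ix ι) : Lp ℝ 1 μ := (int_X (F := F) (μ := μ) j).toL1 (X F j)

theorem sum_XL [IsFiniteMeasure μ] (a : ℕ → ℝ) (g : ℕ → Ix ι) (n : ℕ) :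
    ∃ h : Integrable (fun ω => ∑ k ∈ Finset.range n, a k * X F (g k) ω) μ,
      ∑ k ∈ Finset.range n, a k • XL F μ (g k) = h.toL1 _ := by
  induction n with
  | zero =>
    refine ⟨by simp, ?_⟩
    simp only [Finset.range_zero, Finset.sum_empty]
    exact (Integrable.toL1_zero _).symm
  | succ n ih =>
    obtain ⟨h, he⟩ := ih
    have h2 : Integrable (fun ω => a n * X F (g n) ω) μ :=
      (int_X (F := F) (μ := μ) (g n)).const_mul (a n)
    have h3 : Integrable (fun ω => ∑ k ∈ Finset.range (n + 1), a k * X F (g k) ω) μ := by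
      simp only [Finset.sum_range_succ]
      exact h.add h2
    refine ⟨h3, ?_⟩
    rw [Finset.sum_range_succ, he]
    have e1 : a n • XL F μ (g n) = h2.toL1 _ := by
      unfold XL
      rw [← Integrable.toL1_smul]
      rfl
    rw [e1, ← Integrable.toL1_add]
    congr 1
    funext ω
    simp only [Finset.sum_range_succ, Pi.add_apply]

theorem norm_XL [IsFiniteMeasure μ] (a : ℕ → ℝ) (g : ℕ → Ix ι) (n : ℕ) :
    ‖∑ k ∈ Finset.range n, a k • XL F μ (g k)‖ =
      ∫ ω, |∑ k ∈ Finset.range n, a k * X F (g k) ω| ∂μ := by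
  obtain ⟨h, he⟩ := sum_XL (F := F) (μ := μ) a g n
  rw [he, L1.norm_eq_integral_norm]
  refine integral_congr_ae ?_
  filter_upwards [h.coeFn_toL1] with ω hω
  rw [hω, Real.norm_eq_abs]

theorem basis_L1 [IsFiniteMeasure μ]
    (hfl : ∀ d : ι, MeasurePreserving (fl d) μ μ)
    {β : ι} {f : ℕ → Ix ι} (hf : Function.Injective f) (hF : Coh F)
    (hv : ∀ k, Valid F (f k)) (hb : ∀ k, Below (· ≤ β) (f k)) :
    ∃ π : Equiv.Perm ℕ, ∀ (a : ℕ → ℝ) (m n : ℕ), m ≤ n →
      ‖∑ k ∈ Finset.range m, a k • XL F μ (f (π k))‖ ≤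
        7 * ‖∑ k ∈ Finset.range n, a k • XL F μ (f (π k))‖ := by
  obtain ⟨π, hπ⟩ := basis_fun hfl hf hF hv hb
  refine ⟨π, fun a m n hmn => ?_⟩
  rw [norm_XL a (fun k => f (π k)) m, norm_XL a (fun k => f (π k)) n]
  exact hπ a m n hmn

end Pool.Agent.Helper667.ER
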