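import Pool.Agent.Helper667.ERG

set_option autoImplicit false

/-! Density. -/

namespace Pool.Agent.Helper667.ER

open Set MeasureTheory Filter Topology

/-- the sets on which the coordinates in `D` are `true` -/
def TS {ι : Type} (D : Finset ι) : Set (ι → Bool) := {ω | ∀ d ∈ D, ω d = true}

theorem meas_TS {ι : Type} (D : Finset ι) : MeasurableSet (TS D) := by
  have h : TS D = ⋂ d ∈ D, (fun ω : ι → Bool => ω d) ⁻¹' {true} := by
    ext ω
    simp [TS]
  rw [h]
  exact Finset.measurableSet_biInter D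
    (fun d _ => measurable_pi_apply d (MeasurableSet.singleton _))

theorem gen_TS {ι : Type} : (MeasurableSpace.pi : MeasurableSpace (ι → Bool)) =
    MeasurableSpace.generateFrom (range (TS (ι := ι))) := by
  apply le_antisymm
  · apply iSup_le
    intro d
    rw [← measurable_iff_comap_le]
    refine @measurable_to_bool _ (MeasurableSpace.generateFrom (range (TS (ι := ι)))) _ ?_
    apply MeasurableSpace.measurableSet_generateFrom
    exact ⟨{d}, by ext ω; simp [TS]⟩
  · apply MeasurableSpace.generateFrom_le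
    rintro _ ⟨D, rfl⟩
    exact meas_TS D

theorem pi_TS {ι : Type} : IsPiSystem (range (TS (ι := ι))) := by
  classical
  rintro _ ⟨D, rfl⟩ _ ⟨D', rfl⟩ -
  exact ⟨D ∪ D', by ext ω; simp [TS, or_imp, forall_and]⟩

theorem ind_congr {Ω : Type} [MeasurableSpace Ω] {μ : Measure Ω} {s t : Set Ω} (h : s = t)
    (hs : MeasurableSet s) (ht : MeasurableSet t) (hs' : μ s ≠ ⊤) (ht' : μ t ≠ ⊤) (c : ℝ) :
    indicatorConstLp 1 hs hs' c = indicatorConstLp 1 ht ht' c := by
  subst h
  rfl

theorem ind_iUnion {Ω : Type} [MeasurableSpace Ω] {μ : Measure Ω} [IsFiniteMeasure μ]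
    (M : Submodule ℝ (Lp ℝ 1 μ)) (hcl : IsClosed (M : Set (Lp ℝ 1 μ)))
    (f : ℕ → Set Ω) (hd : Pairwise (Function.onFun Disjoint f)) (hm : ∀ i, MeasurableSet (f i)) (c : ℝ)
    (h : ∀ i, indicatorConstLp 1 (hm i) (measure_ne_top μ _) c ∈ M) :
    indicatorConstLp 1 (MeasurableSet.iUnion hm) (measure_ne_top μ _) c ∈ M := by
  have hU : ∀ n : ℕ, MeasurableSet {ω | ∃ i < n, ω ∈ f i} := by
    intro n
    have : {ω | ∃ i < n, ω ∈ f i} = ⋃ i ∈ Finset.range n, f i := by
      ext ω
      simp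
    rw [this]
    exact Finset.measurableSet_biUnion _ (fun i _ => hm i)
  have hmem : ∀ n : ℕ, indicatorConstLp 1 (hU n) (measure_ne_top μ _) c ∈ M := by
    intro n
    induction n with
    | zero =>
      have e : {ω | ∃ i < 0, ω ∈ f i} = ∅ := by
        ext ω
        simp
      rw [ind_congr e (hU 0) MeasurableSet.empty (measure_ne_top μ _) (measure_ne_top μ _) c,
        indicatorConstLp_empty]
      exact M.zero_mem
    | succ n ih =>
      have e : {ω | ∃ i < n + 1, ω ∈ f i} = {ω | ∃ i < n, ω ∈ f i} ∪ f n := by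
        ext ω
        simp only [Set.mem_ofPred_eq, Set.mem_union]
        constructor
        · rintro ⟨i, hi, hω⟩
          rcases Nat.lt_succ_iff_lt_or_eq.1 hi with h1 | h1
          · exact Or.inl ⟨i, h1, hω⟩
          · exact Or.inr (h1 ▸ hω)
        · rintro (⟨i, hi, hω⟩ | hω)
          · exact ⟨i, by omega, hω⟩
          · exact ⟨n, by omega, hω⟩
      have hdis : Disjoint {ω | ∃ i < n, ω ∈ f i} (f n) := by
        rw [Set.disjoint_left]
        rintro ω ⟨i, hi, hω⟩ hω2
        exact Set.disjoint_left.1 (hd (by omega : i ≠ n)) hω hω2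
      rw [ind_congr e (hU (n + 1)) ((hU n).union (hm n)) (measure_ne_top μ _)
        (measure_ne_top μ _) c]
      have h3 := indicatorConstLp_disjoint_union (p := 1) (hU n) (hm n) (measure_ne_top μ _)
        (measure_ne_top μ _) hdis c
      rw [h3]
      exact M.add_mem ih (h n)
  have ht : Tendsto (fun n : ℕ => μ (symmDiff {ω | ∃ i < n, ω ∈ f i} (⋃ i, f i))) atTop (𝓝 0) := by
    have h1 : ∀ n : ℕ, symmDiff {ω | ∃ i < n, ω ∈ f i} (⋃ i, f i) =
        (⋃ i, f i) \ {ω | ∃ i < n, ω ∈ f i} := by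
      intro n
      apply symmDiff_of_le
      rintro ω ⟨i, -, hω⟩
      exact Set.mem_iUnion.2 ⟨i, hω⟩
    simp only [h1]
    have h2 := tendsto_measure_iInter_atTop (μ := μ)
      (s := fun n : ℕ => (⋃ i, f i) \ {ω | ∃ i < n, ω ∈ f i})
      (fun n => ((MeasurableSet.iUnion hm).diff (hU n)).nullMeasurableSet)
      (by
        intro m n hmn ω hω
        refine ⟨hω.1, fun h => hω.2 ?_⟩
        obtain ⟨i, hi, h⟩ := h
        exact ⟨i, lt_of_lt_of_le hi hmn, h⟩)
      ⟨0, measure_ne_top μ _⟩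
    have h3 : ⋂ n : ℕ, ((⋃ i, f i) \ {ω | ∃ i < n, ω ∈ f i}) = ∅ := by
      rw [Set.eq_empty_iff_forall_notMem]
      intro ω hω
      rw [Set.mem_iInter] at hω
      obtain ⟨i, hi⟩ := Set.mem_iUnion.1 (hω 0).1
      exact (hω (i + 1)).2 ⟨i, by omega, hi⟩
    rw [h3, measure_empty] at h2
    exact h2
  exact hcl.mem_of_tendsto (tendsto_indicatorConstLp_set (by norm_num) ht)
    (Eventually.of_forall hmem)

theorem dense_of_TS {ι : Type} {μ : Measure (ι → Bool)} [IsFiniteMeasure μ]
    (M : Submodule ℝ (Lp ℝ 1 μ)) (hcl : IsClosed (M : Set (Lp ℝ 1 μ)))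
    (hM : ∀ (D : Finset ι) (c : ℝ),
      indicatorConstLp 1 (meas_TS D) (measure_ne_top μ _) c ∈ M) : M = ⊤ := by
  have key : ∀ (A : Set (ι → Bool)) (hA : MeasurableSet A), ∀ c : ℝ,
      indicatorConstLp 1 hA (measure_ne_top μ A) c ∈ M := by
    intro A hA
    refine MeasurableSpace.induction_on_inter
      (C := fun A hA => ∀ c : ℝ, indicatorConstLp 1 hA (measure_ne_top μ A) c ∈ M)
      (gen_TS (ι := ι)) pi_TS ?_ ?_ ?_ ?_ A hA
    · intro c
      rw [indicatorConstLp_empty]
      exact M.zero_mem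
    · rintro _ ⟨D, rfl⟩ c
      exact hM D c
    · intro A hA h c
      have h1 := indicatorConstLp_disjoint_union (p := 1) hA hA.compl (measure_ne_top μ _)
        (measure_ne_top μ _) disjoint_compl_right c
      have e : A ∪ Aᶜ = TS ∅ := by
        ext ω
        simp [TS]
      rw [ind_congr e (hA.union hA.compl) (meas_TS ∅) (measure_ne_top μ _)
        (measure_ne_top μ _) c] at h1
      have h2 := hM ∅ c
      rw [h1] at h2
      exact (M.add_mem_iff_right (h c)).1 h2
    · intro f hd hm h c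
      exact ind_iUnion M hcl f hd hm c (fun i => h i c)
  rw [eq_top_iff]
  intro x _
  refine Lp.induction (p := 1) (by norm_num) (fun x => x ∈ M) ?_ ?_ hcl x
  · intro c s hs hμs
    rw [Lp.simpleFunc.coe_indicatorConst]
    exact key s hs c
  · intro f g hf hg _ h1 h2
    exact M.add_mem h1 h2

end Pool.Agent.Helper667.ER
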