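import Pool.Agent.Helper667.ERH

set_option autoImplicit false

/-! Completeness of the family. -/

namespace Pool.Agent.Helper667.ER

open Set MeasureTheory Filter Topology

theorem toL1_sum_mem {Ω : Type} [MeasurableSpace Ω] {μ : Measure Ω} {κ : Type}
    (M : Submodule ℝ (Lp ℝ 1 μ)) (s : Finset κ) (c : κ → ℝ) (g : κ → Ω → ℝ)
    (hg : ∀ i, Integrable (g i) μ) (hM : ∀ i ∈ s, (hg i).toL1 (g i) ∈ M) (f : Ω → ℝ)
    (hf : Integrable f μ) (he : ∀ ω, f ω = ∑ i ∈ s, c i * g i ω) : hf.toL1 f ∈ M := by
  classical
  induction s using Finset.induction_on generalizing f with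
  | empty =>
    have h0 : f = 0 := by
      funext ω
      rw [he]
      simp
    subst h0
    have : hf.toL1 (0 : Ω → ℝ) = 0 := Integrable.toL1_zero _
    rw [this]
    exact M.zero_mem
  | insert i s hi ih =>
    have h1 : Integrable (fun ω => ∑ i ∈ s, c i * g i ω) μ :=
      integrable_finsetSum _ (fun i _ => (hg i).const_mul (c i))
    have h2 := ih (fun j hj => hM j (Finset.mem_insert_of_mem hj)) _ h1 (fun ω => rfl)
    have h3 : Integrable (c i • g i) μ := (hg i).smul (c i)
    have h4 : h3.toL1 (c i • g i) ∈ M := by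
      rw [Integrable.toL1_smul' _ (hg i)]
      exact M.smul_mem _ (hM i (Finset.mem_insert_self i s))
    have h5 : f = c i • g i + fun ω => ∑ i ∈ s, c i * g i ω := by
      funext ω
      rw [he, Finset.sum_insert hi]
      rfl
    subst h5
    have h6 := Integrable.toL1_add _ _ h3 h1
    rw [h6]
    exact M.add_mem h4 h2

variable {ι : Type} [LinearOrder ι] {F : ι → ℕ → Finset ι} {μ : Measure (ι → Bool)}

/-- Walsh functions -/
def wal (D : Finset ι) (ω : ι → Bool) : ℝ := ∏ d ∈ D, rad d ω

theorem int_wal [IsFiniteMeasure μ] (D : Finset ι) : Integrable (wal D) μ := by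
  have hm : Measurable (wal D) := by
    unfold wal
    exact Finset.measurable_fun_prod D (fun d _ => meas_rad d)
  refine Integrable.mono' (integrable_const (1 : ℝ)) hm.aestronglyMeasurable
    (Eventually.of_forall fun ω => ?_)
  unfold wal
  rw [Real.norm_eq_abs, Finset.abs_prod]
  simp [rad_abs]

theorem wal_atm {s D : Finset ι} (hD : D ⊆ s) (ω : ι → Bool) :
    wal D ω = ∑ A ∈ s.powerset, (∏ d ∈ D, (if d ∈ A then (1 : ℝ) else -1)) * atm s A ω := by
  classical
  rw [Finset.sum_eq_single (s.filter (fun d => ω d = true))]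
  · unfold atm wal
    rw [if_pos rfl, mul_one]
    refine Finset.prod_congr rfl (fun d hd => ?_)
    unfold rad
    by_cases h : ω d = true
    · rw [if_pos h, if_pos (Finset.mem_filter.2 ⟨hD hd, h⟩)]
    · have h3 : d ∉ s.filter (fun d => ω d = true) := fun h2 => h (Finset.mem_filter.1 h2).2
      rw [if_neg h, if_neg h3]
  · intro A _ hne
    unfold atm
    rw [if_neg (Ne.symm hne), mul_zero]
  · intro h
    exact absurd (Finset.mem_powerset.2 (Finset.filter_subset _ _)) h

theorem wal_mem [IsFiniteMeasure μ] (hF : Coh F) (M : Submodule ℝ (Lp ℝ 1 μ))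
    (hM : ∀ j, Valid F j → XL F μ j ∈ M) (D : Finset ι) :
    (int_wal (μ := μ) D).toL1 (wal D) ∈ M := by
  classical
  rcases D.eq_empty_or_nonempty with rfl | hne
  · refine toL1_sum_mem M {Ix.c} (fun _ => 1) (fun j => X F j) (fun j => int_X j) ?_ _ _ ?_
    · intro i hi
      rw [Finset.mem_singleton] at hi
      subst hi
      exact hM Ix.c trivial
    · intro ω
      rw [Finset.sum_singleton, one_mul]
      simp [wal, X]
  · obtain ⟨b, hb⟩ : ∃ b, b = D.max' hne := ⟨_, rfl⟩
    have hbD : b ∈ D := hb ▸ Finset.max'_mem D hne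
    have hble : ∀ d ∈ D, d ≤ b := fun d hd => hb ▸ Finset.le_max' D d hd
    rcases (D.erase b).eq_empty_or_nonempty with he | hne2
    · have hDb : D = {b} := by
        rw [← Finset.insert_erase hbD, he]
        rfl
      refine toL1_sum_mem M {Ix.r b} (fun _ => 1) (fun j => X F j) (fun j => int_X j) ?_ _ _ ?_
      · intro i hi
        rw [Finset.mem_singleton] at hi
        subst hi
        exact hM (Ix.r b) trivial
      · intro ω
        rw [Finset.sum_singleton, one_mul]
        rw [hDb]
        simp [wal, X]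
    · obtain ⟨a, ha, hmax⟩ := Finset.exists_max_image (D.erase b) (pos F b) hne2
      have hab : a < b := lt_of_le_of_ne (hble a (Finset.mem_of_mem_erase ha))
        (Finset.ne_of_mem_erase ha)
      have hsub : (D.erase b).erase a ⊆ S F b a := by
        intro d hd
        have hd1 := Finset.mem_of_mem_erase hd
        have hda := Finset.ne_of_mem_erase hd
        rw [hF.mem_S]
        refine ⟨lt_of_le_of_ne (hble d (Finset.mem_of_mem_erase hd1))
          (Finset.ne_of_mem_erase hd1), lt_of_le_of_ne (hmax d hd1) ?_⟩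
        intro h
        exact hda (pos_inj h)
      refine toL1_sum_mem M (S F b a).powerset
        (fun A => ∏ d ∈ (D.erase b).erase a, (if d ∈ A then (1 : ℝ) else -1))
        (fun A => X F (Ix.h b a A)) (fun A => int_X _) ?_ _ _ ?_
      · intro A hA
        exact hM (Ix.h b a A) ⟨hab, Finset.mem_powerset.1 hA⟩
      · intro ω
        have h1 : wal D ω = rad b ω * (rad a ω * wal ((D.erase b).erase a) ω) := by
          unfold wal
          rw [← Finset.mul_prod_erase D (fun d => rad d ω) hbD,
            ← Finset.mul_prod_erase (D.erase b) (fun d => rad d ω) ha]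
        rw [h1, wal_atm hsub, Finset.mul_sum, Finset.mul_sum]
        refine Finset.sum_congr rfl (fun A _ => ?_)
        show _ = _ * (rad b ω * rad a ω * atm (S F b a) A ω)
        ring

theorem TS_mem [IsFiniteMeasure μ] (hF : Coh F) (M : Submodule ℝ (Lp ℝ 1 μ))
    (hM : ∀ j, Valid F j → XL F μ j ∈ M) (D : Finset ι) (c : ℝ) :
    indicatorConstLp 1 (meas_TS D) (measure_ne_top μ _) c ∈ M := by
  classical
  have hint : Integrable ((TS D).indicator (fun _ => c)) μ :=
    (integrable_const c).indicator (meas_TS D)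
  have h1 : indicatorConstLp 1 (meas_TS D) (measure_ne_top μ _) c = hint.toL1 _ := rfl
  rw [h1]
  refine toL1_sum_mem M D.powerset (fun _ => c / 2 ^ D.card) (fun D' => wal D')
    (fun D' => int_wal D') (fun D' _ => wal_mem hF M hM D') _ _ ?_
  intro ω
  rw [← Finset.mul_sum]
  have h2 : ∑ D' ∈ D.powerset, wal D' ω = ∏ d ∈ D, (1 + rad d ω) := by
    rw [Finset.prod_one_add]
    rfl
  rw [h2]
  by_cases hω : ω ∈ TS D
  · rw [Set.indicator_of_mem hω]
    have h3 : ∏ d ∈ D, (1 + rad d ω) = 2 ^ D.card := by
      rw [Finset.prod_congr rfl (g := fun _ => (2 : ℝ)), Finset.prod_const]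
      intro d hd
      unfold rad
      rw [if_pos (hω d hd)]
      norm_num
    rw [h3]
    field_simp
  · rw [Set.indicator_of_notMem hω]
    have h3 : ∃ d ∈ D, ω d ≠ true := by
      by_contra hcon
      push Not at hcon
      exact hω hcon
    obtain ⟨d, hd, hωd⟩ := h3
    rw [Finset.prod_eq_zero hd, mul_zero]
    unfold rad
    rw [if_neg hωd]
    norm_num

theorem dense_X [IsFiniteMeasure μ] (hF : Coh F) :
    (Submodule.span ℝ (range (fun j : {j : Ix ι // Valid F j} => XL F μ j))).topologicalClosure
      = ⊤ := by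
  refine dense_of_TS _ (Submodule.isClosed_topologicalClosure _) (fun D c => ?_)
  refine TS_mem hF _ (fun j hj => ?_) D c
  exact Submodule.le_topologicalClosure _ (Submodule.subset_span ⟨⟨j, hj⟩, rfl⟩)

end Pool.Agent.Helper667.ER
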