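import Pool.Agent.Helper667.ERI

set_option autoImplicit false

/-! The product measure. -/

namespace Pool.Agent.Helper667.ER

open Set MeasureTheory Filter Topology

/-- the fair coin measure on the two point space -/
noncomputable def coin : Measure Bool := (2 : ENNReal)⁻¹ • (Measure.dirac true + Measure.dirac false)

theorem coin_single (x : Bool) : coin {x} = 2⁻¹ := by
  unfold coin
  rw [Measure.smul_apply, Measure.add_apply, Measure.dirac_apply' _ (MeasurableSet.singleton _),
    Measure.dirac_apply' _ (MeasurableSet.singleton _)]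
  cases x <;> simp

instance : IsProbabilityMeasure coin := by
  constructor
  unfold coin
  rw [Measure.smul_apply, Measure.add_apply, measure_univ, measure_univ, smul_eq_mul, one_add_one_eq_two]
  exact ENNReal.inv_mul_cancel (by norm_num) (by norm_num)

theorem coin_not : coin.map (fun b : Bool => !b) = coin := by
  have hm : Measurable (fun b : Bool => !b) := measurable_of_finite _
  refine Measure.ext_of_singleton (fun x => ?_)
  rw [Measure.map_apply hm (MeasurableSet.singleton _)]
  have : (fun b : Bool => !b) ⁻¹' {x} = {!x} := by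
    ext b
    cases b <;> cases x <;> simp
  rw [this, coin_single, coin_single]

/-- the product measure -/
noncomputable def cube (ι : Type) : Measure (ι → Bool) := Measure.infinitePi (fun _ : ι => coin)

instance (ι : Type) : IsProbabilityMeasure (cube ι) := by
  unfold cube
  infer_instance

theorem fl_mp {ι : Type} [LinearOrder ι] (d : ι) : MeasurePreserving (fl d) (cube ι) (cube ι) := by
  have hm : ∀ i : ι, Measurable (fun b : Bool => if i = d then !b else b) :=
    fun i => measurable_of_finite _
  have h1 := Measure.infinitePi_map_pi (μ := fun _ : ι => coin) hm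
  have h2 : (fun (x : ι → Bool) (i : ι) => if i = d then !(x i) else x i) = fl d := rfl
  rw [h2] at h1
  refine ⟨?_, ?_⟩
  · rw [← h2]
    exact measurable_pi_lambda _ (fun i => (hm i).comp (measurable_pi_apply i))
  · show (Measure.infinitePi (fun _ : ι => coin)).map (fl d) = Measure.infinitePi (fun _ : ι => coin)
    rw [h1]
    congr 1
    funext i
    by_cases hi : i = d
    · simp only [hi, if_true]
      exact coin_not
    · simp only [hi, if_false]
      exact Measure.map_id

theorem cube_atom {ι : Type} [DecidableEq ι] (s A : Finset ι) :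
    cube ι (Set.pi s (fun d => if d ∈ A then {true} else {false})) ≠ 0 := by
  unfold cube
  rw [Measure.infinitePi_pi]
  · rw [Finset.prod_ne_zero_iff]
    intro d _
    split_ifs
    · rw [coin_single]
      simp
    · rw [coin_single]
      simp
  · intro d _
    exact (Set.toFinite _).measurableSet

theorem rad_ne_zero {ι : Type} (b : ι) (ω : ι → Bool) : rad b ω ≠ 0 := by
  unfold rad
  split_ifs <;> norm_num

variable {ι : Type} [LinearOrder ι] {F : ι → ℕ → Finset ι}

theorem XL_ne {j : Ix ι} (hv : Valid F j) : XL F (cube ι) j ≠ 0 := by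
  classical
  intro h0
  have h1 : X F j =ᵐ[cube ι] 0 := by
    have h2 := (int_X (F := F) (μ := cube ι) j).coeFn_toL1
    have h3 : (int_X (F := F) (μ := cube ι) j).toL1 (X F j) = 0 := h0
    rw [h3] at h2
    exact h2.symm.trans (Lp.coeFn_zero _ _ _)
  have h2 : cube ι {ω | ¬ X F j ω = 0} = 0 := h1
  have h3 : ∃ s A : Finset ι, Set.pi s (fun d => if d ∈ A then {true} else {false}) ⊆
      {ω : ι → Bool | ¬ X F j ω = 0} := by
    cases j with
    | c =>
      refine ⟨∅, ∅, fun ω _ => ?_⟩
      show ¬ (1 : ℝ) = 0
      norm_num
    | r b => exact ⟨∅, ∅, fun ω _ => rad_ne_zero b ω⟩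
    | h b a A =>
      refine ⟨S F b a, A, fun ω hω => ?_⟩
      show ¬ rad b ω * rad a ω * atm (S F b a) A ω = 0
      have h4 : (S F b a).filter (fun d => ω d = true) = A := by
        ext d
        rw [Finset.mem_filter]
        constructor
        · rintro ⟨h5, h6⟩
          by_contra h7
          have h8 := hω d h5
          beta_reduce at h8
          rw [if_neg h7, h6] at h8
          exact absurd h8 (by decide)
        · intro h5
          have h6 := hv.2 h5
          have h8 := hω d h6
          beta_reduce at h8
          rw [if_pos h5] at h8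
          exact ⟨h6, h8⟩
      have h5 : atm (S F b a) A ω = 1 := by
        unfold atm
        rw [if_pos h4]
      rw [h5, mul_one]
      exact mul_ne_zero (rad_ne_zero b ω) (rad_ne_zero a ω)
  obtain ⟨s, A, h4⟩ := h3
  exact cube_atom s A (measure_mono_null h4 h2)

theorem sep_XL {b b' : ι} (h : b ≠ b') :
    (1 / 2 : ℝ) ≤ ‖XL F (cube ι) (Ix.r b) - XL F (cube ι) (Ix.r b')‖ := by
  classical
  have hi1 : Integrable (X F (Ix.r b)) (cube ι) := int_X _
  have hi2 : Integrable (X F (Ix.r b')) (cube ι) := int_X _
  have e : XL F (cube ι) (Ix.r b) - XL F (cube ι) (Ix.r b') = (hi1.sub hi2).toL1 _ := rfl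
  rw [e, L1.norm_eq_integral_norm]
  have e2 : ∫ ω, ‖((hi1.sub hi2).toL1 _ : (ι → Bool) → ℝ) ω‖ ∂(cube ι) =
      ∫ ω, |rad b ω - rad b' ω| ∂(cube ι) := by
    refine integral_congr_ae ?_
    filter_upwards [(hi1.sub hi2).coeFn_toL1] with ω hω
    rw [hω, Real.norm_eq_abs]
    rfl
  rw [e2]
  obtain ⟨P, hP⟩ : ∃ P : Set (ι → Bool), P = Set.pi (({b, b'} : Finset ι) : Set ι)
    (fun d => if d ∈ ({b} : Finset ι) then {true} else {false}) := ⟨_, rfl⟩
  have hPm : MeasurableSet P := by
    rw [hP]
    exact MeasurableSet.pi (Finset.countable_toSet _) (fun d _ => (Set.toFinite _).measurableSet)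
  have hP1 : (cube ι).real P = 1 / 4 := by
    have h1 : cube ι P = 2⁻¹ * 2⁻¹ := by
      rw [hP]
      unfold cube
      rw [Measure.infinitePi_pi _ (fun d _ => (Set.toFinite _).measurableSet),
        Finset.prod_pair h]
      simp only [Finset.mem_singleton, if_true, if_neg h.symm, coin_single]
    rw [Measure.real, h1, ENNReal.toReal_mul, ENNReal.toReal_inv]
    norm_num
  have e3 : ∫ ω, P.indicator (fun _ => (2 : ℝ)) ω ∂(cube ι) = 1 / 2 := by
    rw [integral_indicator_const _ hPm, hP1]
    norm_num
  rw [← e3]
  refine integral_mono ((integrable_const _).indicator hPm) (hi1.sub hi2).abs (fun ω => ?_)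
  show P.indicator (fun _ => (2 : ℝ)) ω ≤ |rad b ω - rad b' ω|
  by_cases hω : ω ∈ P
  · rw [Set.indicator_of_mem hω]
    rw [hP] at hω
    have h1 : ω b = true := by
      have := hω b (by simp)
      simpa using this
    have h2 : ω b' = false := by
      have := hω b' (by simp)
      simpa [h.symm] using this
    unfold rad
    rw [h1, h2]
    norm_num
  · rw [Set.indicator_of_notMem hω]
    exact abs_nonneg _

theorem not_sep (F : ι → ℕ → Finset ι) (hunc : ¬ Countable ι) :
    ¬ TopologicalSpace.SeparableSpace (Lp ℝ 1 (cube ι)) := by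
  intro hs
  have h1 : (univ : Set ι).Countable := by
    refine Set.PairwiseDisjoint.countable_of_isOpen
      (s := fun b => Metric.ball (XL F (cube ι) (Ix.r b)) (1/4)) ?_
      (fun b _ => Metric.isOpen_ball) (fun b _ => ⟨_, Metric.mem_ball_self (by norm_num)⟩)
    intro b _ b' _ hne
    refine Metric.ball_disjoint_ball ?_
    rw [dist_eq_norm]
    have := sep_XL (F := F) hne
    linarith
  exact hunc (countable_univ_iff.1 h1)

end Pool.Agent.Helper667.ER
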