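import Pool.Agent.Helper667.ERJ

set_option autoImplicit false

/-! The main theorem. -/

namespace Pool.Agent.Helper667.ER

open Set MeasureTheory Filter Topology

theorem exists_order (ι : Type) (hι : Cardinal.mk ι = Cardinal.aleph 1) :
    ∃ (_ : LinearOrder ι), WellFoundedLT ι ∧ (∀ b : ι, (Iio b).Countable) ∧
      (∀ A : Set ι, A.Countable → ∃ b, ∀ a ∈ A, a ≤ b) ∧ ¬ Countable ι := by
  have hnc : ¬ Countable ι := by
    rw [← Cardinal.mk_le_aleph0_iff, hι, not_le]
    exact Cardinal.aleph0_lt_aleph_one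
  have hO : Cardinal.mk (Cardinal.aleph 1 : Cardinal.{0}).ord.ToType = Cardinal.aleph 1 :=
    Cardinal.mk_ord_toType _
  obtain ⟨e⟩ : Nonempty (ι ≃ (Cardinal.aleph 1 : Cardinal.{0}).ord.ToType) :=
    Cardinal.eq.1 (by rw [hι, hO])
  have hIio : ∀ x : (Cardinal.aleph 1 : Cardinal.{0}).ord.ToType, (Iio x).Countable := by
    intro x
    have h : Cardinal.mk (Iio x) < Cardinal.mk (Cardinal.aleph 1 : Cardinal.{0}).ord.ToType :=
      Cardinal.mk_Iio_lt (α := (Cardinal.aleph 1 : Cardinal.{0}).ord.ToType) x (by simp)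
    rw [hO] at h
    rwa [← Cardinal.le_aleph0_iff_set_countable, ← Order.lt_succ_iff, Cardinal.succ_aleph0]
  letI : LinearOrder ι := LinearOrder.lift' e e.injective
  have hlt : ∀ a b : ι, a < b ↔ e a < e b := fun a b => Iff.rfl
  have hI : ∀ b : ι, (Iio b).Countable := by
    intro b
    have h1 : Iio b = e ⁻¹' (Iio (e b)) := by
      ext a
      exact hlt a b
    rw [h1]
    exact (hIio (e b)).preimage e.injective
  refine ⟨inferInstance, ?_, hI, ?_, hnc⟩
  · constructor
    exact InvImage.wf e (wellFounded_lt (α := (Cardinal.aleph 1 : Cardinal.{0}).ord.ToType))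
  · intro A hA
    by_contra hcon
    push Not at hcon
    have h1 : (univ : Set ι) ⊆ ⋃ a ∈ A, Iio a := by
      intro x _
      obtain ⟨a, ha, hx⟩ := hcon x
      exact mem_biUnion ha hx
    exact hnc (countable_univ_iff.1 ((hA.biUnion fun a _ => hI a).mono h1))

theorem main (ι : Type) (hι : Cardinal.mk ι = Cardinal.aleph 1) :
    ¬ TopologicalSpace.SeparableSpace (Lp ℝ 1 (cube ι)) ∧
    ∃ (I : Type) (x : I → Lp ℝ 1 (cube ι)),
      (Submodule.span ℝ (Set.range x)).topologicalClosure = ⊤ ∧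
      ∀ f : ℕ → I, Function.Injective f →
        ∃ π : Equiv.Perm ℕ, (∀ n, x (f (π n)) ≠ 0) ∧
          ∀ (a : ℕ → ℝ) (m n : ℕ), m ≤ n →
            ‖∑ k ∈ Finset.range m, a k • x (f (π k))‖ ≤
              7 * ‖∑ k ∈ Finset.range n, a k • x (f (π k))‖ := by
  obtain ⟨_, hwf, hI, hbdd, hnc⟩ := exists_order ι hι
  obtain ⟨F, hF⟩ := exists_coh ι hI
  refine ⟨not_sep F hnc, {j : Ix ι // Valid F j}, fun j => XL F (cube ι) j, dense_X hF, ?_⟩
  intro f hf
  have hg : Function.Injective (fun k => (f k).1) := fun k m h => hf (Subtype.ext h)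
  obtain ⟨β, hβ⟩ := hbdd ((fun b : ι => (b : WithBot ι)) ⁻¹' (range fun k => top (f k).1))
    ((countable_range _).preimage WithBot.coe_injective)
  have hb : ∀ k, Below (· ≤ β) (f k).1 := by
    intro k
    rw [below_le]
    rcases h : top (f k).1 with _ | b
    · exact bot_le
    · exact WithBot.coe_le_coe.2 (hβ b ⟨k, h⟩)
  obtain ⟨π, hπ⟩ := basis_L1 (μ := cube ι) fl_mp hg hF (fun k => (f k).2) hb
  exact ⟨π, fun n => XL_ne (f (π n)).2, fun a m n hmn => hπ a m n hmn⟩

end Pool.Agent.Helper667.ER
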