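import Pool.Agent.Helper667.SLTwo

set_option autoImplicit false
set_option linter.unusedSimpArgs false

namespace Pool.Agent.Helper667.ElemGroup

open Matrix Pool.Agent.Helper667.SLTwo

variable {A : Type*} [CommRing A]

/-- generators attached to a set of pairs of mutually inverse elements -/
def gens (L : Set (A × A)) : Set (SpecialLinearGroup (Fin 2) A) :=
  (⋃ p ∈ L, {E12 p.1, E12 p.2, E21 p.1, E21 p.2}) ∪ {E12 1, E21 1}

theorem gens_finite {L : Set (A × A)} (hL : L.Finite) : (gens L).Finite := by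
  refine Set.Finite.union (hL.biUnion (fun p _ => ?_)) ?_
  · exact Set.toFinite _
  · exact Set.toFinite _

/-- the group generated -/
def Gr (L : Set (A × A)) : Subgroup (SpecialLinearGroup (Fin 2) A) := Subgroup.closure (gens L)

/-- the ring generated by the squares -/
def R0 (L : Set (A × A)) : Subring A :=
  Subring.closure {r | ∃ p ∈ L, r = p.1 ^ 2 ∨ r = p.2 ^ 2}

variable {L : Set (A × A)}

theorem gens_mem {g : SpecialLinearGroup (Fin 2) A} (h : g ∈ gens L) : g ∈ Gr L :=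
  Subgroup.subset_closure h

theorem E12_one_mem : (E12 1 : SpecialLinearGroup (Fin 2) A) ∈ Gr L :=
  gens_mem (Or.inr (by simp))

theorem E21_one_mem : (E21 1 : SpecialLinearGroup (Fin 2) A) ∈ Gr L :=
  gens_mem (Or.inr (by simp))

theorem E12_fst_mem {p : A × A} (hp : p ∈ L) : E12 p.1 ∈ Gr L :=
  gens_mem (Or.inl (Set.mem_biUnion hp (by simp)))
theorem E12_snd_mem {p : A × A} (hp : p ∈ L) : E12 p.2 ∈ Gr L :=
  gens_mem (Or.inl (Set.mem_biUnion hp (by simp)))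
theorem E21_fst_mem {p : A × A} (hp : p ∈ L) : E21 p.1 ∈ Gr L :=
  gens_mem (Or.inl (Set.mem_biUnion hp (by simp)))
theorem E21_snd_mem {p : A × A} (hp : p ∈ L) : E21 p.2 ∈ Gr L :=
  gens_mem (Or.inl (Set.mem_biUnion hp (by simp)))

theorem Wy_mem : (Wy : SpecialLinearGroup (Fin 2) A) ∈ Gr L := by
  unfold Wy
  refine (Gr L).mul_mem ((Gr L).mul_mem E12_one_mem ?_) E12_one_mem
  rw [E21_neg]
  exact (Gr L).inv_mem E21_one_mem

theorem D_fst_mem {p : A × A} (hp : p ∈ L) (h : p.1 * p.2 = 1) : D p.1 p.2 h ∈ Gr L := by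
  rw [D_eq, E21_neg, E12_neg]
  exact (Gr L).mul_mem ((Gr L).mul_mem ((Gr L).mul_mem ((Gr L).mul_mem ((Gr L).mul_mem
    (E12_fst_mem hp) ((Gr L).inv_mem (E21_snd_mem hp))) (E12_fst_mem hp))
    ((Gr L).inv_mem E12_one_mem)) E21_one_mem) ((Gr L).inv_mem E12_one_mem)

theorem D_snd_mem {p : A × A} (hp : p ∈ L) (h : p.2 * p.1 = 1) : D p.2 p.1 h ∈ Gr L := by
  rw [D_eq, E21_neg, E12_neg]
  exact (Gr L).mul_mem ((Gr L).mul_mem ((Gr L).mul_mem ((Gr L).mul_mem ((Gr L).mul_mem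
    (E12_snd_mem hp) ((Gr L).inv_mem (E21_fst_mem hp))) (E12_snd_mem hp))
    ((Gr L).inv_mem E12_one_mem)) E21_one_mem) ((Gr L).inv_mem E12_one_mem)

/-- multipliers -/
def mults (H : Subgroup (SpecialLinearGroup (Fin 2) A)) : Subring A where
  carrier := {s | ∀ r, E12 r ∈ H → E12 (s * r) ∈ H}
  mul_mem' := by
    intro a b ha hb r hr
    rw [mul_assoc]
    exact ha _ (hb _ hr)
  one_mem' := by
    intro r hr; rwa [one_mul]
  add_mem' := by
    intro a b ha hb r hr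
    rw [add_mul, E12_add]
    exact H.mul_mem (ha _ hr) (hb _ hr)
  zero_mem' := by
    intro r _
    rw [zero_mul, E12_zero]
    exact H.one_mem
  neg_mem' := by
    intro a ha r hr
    rw [neg_mul, E12_neg]
    exact H.inv_mem (ha _ hr)

theorem mul_of_R0 (hL : ∀ p ∈ L, p.1 * p.2 = 1) (H : Subgroup (SpecialLinearGroup (Fin 2) A))
    (hn : ∀ g ∈ Gr L, ∀ h ∈ H, g * h * g⁻¹ ∈ H) {s : A} (hs : s ∈ R0 L) {r : A}
    (hr : E12 r ∈ H) : E12 (s * r) ∈ H := by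
  have : R0 L ≤ mults H := by
    refine Subring.closure_le.mpr ?_
    rintro s ⟨p, hp, rfl | rfl⟩ r hr
    · have := hn _ (D_fst_mem hp (hL p hp)) _ hr
      rwa [conj_D] at this
    · have := hn _ (D_snd_mem hp (by rw [mul_comm]; exact hL p hp)) _ hr
      rwa [conj_D] at this
  exact this hs r hr

theorem E12_mem (hL : ∀ p ∈ L, p.1 * p.2 = 1) {s : A} (hs : s ∈ R0 L) : E12 s ∈ Gr L := by
  have := mul_of_R0 hL (Gr L) (fun _ hg _ hh => (Gr L).mul_mem ((Gr L).mul_mem hg hh)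
    ((Gr L).inv_mem hg)) hs E12_one_mem
  rwa [mul_one] at this

theorem E21_of_E12 (H : Subgroup (SpecialLinearGroup (Fin 2) A))
    (hn : ∀ g ∈ Gr L, ∀ h ∈ H, g * h * g⁻¹ ∈ H) {s : A} (hs : E12 s ∈ H) : E21 s ∈ H := by
  have := hn _ Wy_mem _ (H.inv_mem hs)
  rw [← E12_neg, conj_Wy, neg_neg] at this
  exact this

theorem E21_mem (hL : ∀ p ∈ L, p.1 * p.2 = 1) {s : A} (hs : s ∈ R0 L) : E21 s ∈ Gr L :=
  E21_of_E12 (Gr L) (fun _ hg _ hh => (Gr L).mul_mem ((Gr L).mul_mem hg hh)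
    ((Gr L).inv_mem hg)) (E12_mem hL hs)

theorem snd_mem_R0 (hL : ∀ p ∈ L, p.1 * p.2 = 1) (hT : ∀ p ∈ L, p.1 ∈ R0 L) {p : A × A}
    (hp : p ∈ L) : p.2 ∈ R0 L := by
  have h1 : p.2 = p.1 * p.2 ^ 2 := by
    linear_combination (-p.2) * hL p hp
  rw [h1]
  exact (R0 L).mul_mem (hT p hp) (Subring.subset_closure ⟨p, hp, Or.inr rfl⟩)

theorem le_of_one (hL : ∀ p ∈ L, p.1 * p.2 = 1) (hT : ∀ p ∈ L, p.1 ∈ R0 L)
    (H : Subgroup (SpecialLinearGroup (Fin 2) A))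
    (hn : ∀ g ∈ Gr L, ∀ h ∈ H, g * h * g⁻¹ ∈ H) (h1 : E12 1 ∈ H) : Gr L ≤ H := by
  have k1 : ∀ s ∈ R0 L, E12 s ∈ H := by
    intro s hs
    have := mul_of_R0 hL H hn hs h1
    rwa [mul_one] at this
  have k2 : ∀ s ∈ R0 L, E21 s ∈ H := fun s hs => E21_of_E12 H hn (k1 s hs)
  refine (Subgroup.closure_le _).mpr ?_
  rintro g (hg | hg)
  · simp only [Set.mem_iUnion] at hg
    obtain ⟨p, hp, hg⟩ := hg
    have e1 := hT p hp
    have e2 := snd_mem_R0 hL hT hp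
    rcases hg with rfl | rfl | rfl | rfl
    · exact k1 _ e1
    · exact k1 _ e2
    · exact k2 _ e1
    · exact k2 _ e2
  · rcases hg with rfl | rfl
    · exact h1
    · exact k2 _ (R0 L).one_mem

/-- The three extraction functions -/
def q (g : SpecialLinearGroup (Fin 2) A) : Fin 3 → A :=
  ![g 1 0, -g 0 1, g 1 0 + g 0 0 - g 1 1 - g 0 1]

theorem extract_q (hL : ∀ p ∈ L, p.1 * p.2 = 1) (hT : ∀ p ∈ L, p.1 ∈ R0 L)
    (H : Subgroup (SpecialLinearGroup (Fin 2) A))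
    (hn : ∀ g ∈ Gr L, ∀ h ∈ H, g * h * g⁻¹ ∈ H) (g : SpecialLinearGroup (Fin 2) A)
    (hg : g ∈ H) (hgR : ∀ i j, g i j ∈ R0 L) (j : Fin 3) (κ' : A)
    (hp : (1 + (q g j) ^ 2, κ') ∈ L) : E12 (1 - κ' ^ 4) ∈ H := by
  obtain ⟨g', hg', hq, hR⟩ : ∃ g' ∈ H, g' 1 0 = q g j ∧ g' 0 0 ∈ R0 L := by
    fin_cases j
    · exact ⟨g, hg, rfl, hgR 0 0⟩
    · refine ⟨Wy * g * Wy⁻¹, hn _ Wy_mem _ hg, ?_, ?_⟩
      · simp [mul_00, mul_01, mul_10, mul_11, inv_00, inv_01, inv_10, inv_11, Wy_00, Wy_01,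
          Wy_10, Wy_11, q, -SpecialLinearGroup.coe_mul, -SpecialLinearGroup.coe_inv]
      · have : (Wy * g * Wy⁻¹ : SpecialLinearGroup (Fin 2) A) 0 0 = g 1 1 := by
          simp [mul_00, mul_01, mul_10, mul_11, inv_00, inv_01, inv_10, inv_11, Wy_00, Wy_01,
            Wy_10, Wy_11, q, -SpecialLinearGroup.coe_mul, -SpecialLinearGroup.coe_inv]
        rw [this]
        exact hgR 1 1
    · refine ⟨E21 1 * g * (E21 1)⁻¹, hn _ E21_one_mem _ hg, ?_, ?_⟩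
      · simp [mul_00, mul_01, mul_10, mul_11, inv_00, inv_01, inv_10, inv_11, q,
          -SpecialLinearGroup.coe_mul, -SpecialLinearGroup.coe_inv]
        ring
      · have : (E21 1 * g * (E21 1)⁻¹ : SpecialLinearGroup (Fin 2) A) 0 0 = g 0 0 - g 0 1 := by
          simp [mul_00, mul_01, mul_10, mul_11, inv_00, inv_01, inv_10, inv_11, q,
            -SpecialLinearGroup.coe_mul, -SpecialLinearGroup.coe_inv]
          ring
        rw [this]
        exact (R0 L).sub_mem (hgR 0 0) (hgR 0 1)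
  rw [← hq] at hp
  have hκ : κ' * (1 + (g' 1 0) ^ 2) = 1 := by
    have := hL _ hp
    simpa [mul_comm] using this
  have hκR : κ' ∈ R0 L := snd_mem_R0 hL hT hp
  have hcR : g' 1 0 ∈ R0 L := by
    rw [hq]
    fin_cases j
    · exact hgR 1 0
    · exact (R0 L).neg_mem (hgR 0 1)
    · exact (R0 L).sub_mem ((R0 L).sub_mem ((R0 L).add_mem (hgR 1 0) (hgR 0 0)) (hgR 1 1))
        (hgR 0 1)
  refine extract (Gr L) H hn g' hg' κ' hκ E12_one_mem (E12_mem hL ((R0 L).pow_mem hκR 2))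
    (E12_mem hL ?_) (D_snd_mem hp hκ)
  refine (R0 L).mul_mem hR ((R0 L).add_mem ((R0 L).mul_mem ?_ hcR) ((R0 L).pow_mem hcR 3))
  exact_mod_cast natCast_mem (R0 L) 2

end Pool.Agent.Helper667.ElemGroup
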