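import Mathlib

set_option autoImplicit false

namespace Pool.Agent.Helper667.NoRetract

open Set Metric MeasureTheory Polynomial
open scoped RealInnerProductSpace NNReal

variable {E : Type*} [NormedAddCommGroup E] [InnerProductSpace ℝ E] [FiniteDimensional ℝ E]

/-- determinant of `1 + t A` is a polynomial in `t` of bounded degree. -/
theorem exists_poly (A : E →L[ℝ] E) : ∃ p : ℝ[X], p.natDegree ≤ Module.finrank ℝ E ∧
    ∀ t : ℝ, p.eval t = (1 + t • A : E →L[ℝ] E).det := by
  classical
  let b := Module.finBasis ℝ E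
  let M := LinearMap.toMatrix b b (A : E →ₗ[ℝ] E)
  refine ⟨Matrix.det ((X : ℝ[X]) • M.map C + (1 : Matrix _ _ ℝ).map C), ?_, ?_⟩
  · simpa using Polynomial.natDegree_det_X_add_C_le M (1 : Matrix _ _ ℝ)
  · intro t
    rw [← Polynomial.coe_evalRingHom, RingHom.map_det]
    have h1 : (1 + t • A : E →L[ℝ] E).det = (1 + t • M).det := by
      change LinearMap.det _ = _
      rw [← LinearMap.det_toMatrix b]
      congr 1
      have : ((1 + t • A : E →L[ℝ] E) : E →ₗ[ℝ] E) = LinearMap.id + t • (A : E →ₗ[ℝ] E) := rfl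
      rw [this, map_add, map_smul, LinearMap.toMatrix_id]
    rw [h1]
    congr 1
    ext i j
    simp only [RingHom.mapMatrix_apply, Matrix.map_apply, Matrix.add_apply, Matrix.smul_apply,
      smul_eq_mul, map_add, Polynomial.coe_evalRingHom, Polynomial.eval_C]
    rw [add_comm, Polynomial.eval_mul, Polynomial.eval_X, Polynomial.eval_C]

theorem det_ne_zero_of_norm_lt (A : E →L[ℝ] E) (hA : ‖A‖ < 1) : (1 + A : E →L[ℝ] E).det ≠ 0 := by
  have hu : IsUnit (1 + A : E →L[ℝ] E) := by
    have := (Units.oneSub (-A) (by rwa [norm_neg])).isUnit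
    simpa using this
  have h2 : IsUnit ((1 + A : E →L[ℝ] E) : E →ₗ[ℝ] E) := by
    exact hu.map (ContinuousLinearMap.toLinearMapRingHom (R₁ := ℝ) (M₁ := E))
  exact (LinearMap.isUnit_iff_isUnit_det _).mp h2 |>.ne_zero

theorem det_pos_of_norm_lt (A : E →L[ℝ] E) (hA : ‖A‖ < 1) : 0 < (1 + A : E →L[ℝ] E).det := by
  by_contra hcon
  push Not at hcon
  have hc : Continuous (fun s : ℝ => (1 + s • A : E →L[ℝ] E).det) :=
    ContinuousLinearMap.continuous_det.comp (by fun_prop)
  have h0 : (1 + (0 : ℝ) • A : E →L[ℝ] E).det = 1 := by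
    rw [zero_smul, add_zero]
    change LinearMap.det (LinearMap.id : E →ₗ[ℝ] E) = 1
    exact LinearMap.det_id
  have h1 : (0 : ℝ) ∈ Icc ((1 + (1 : ℝ) • A : E →L[ℝ] E).det)
      ((1 + (0 : ℝ) • A : E →L[ℝ] E).det) := by
    rw [h0, one_smul]; exact ⟨hcon, zero_le_one⟩
  obtain ⟨s, hs, hs0⟩ := intermediate_value_Icc' (zero_le_one (α := ℝ)) hc.continuousOn h1
  refine det_ne_zero_of_norm_lt (s • A) ?_ hs0
  rw [norm_smul, Real.norm_of_nonneg hs.1]
  calc s * ‖A‖ ≤ 1 * ‖A‖ := mul_le_mul_of_nonneg_right hs.2 (norm_nonneg _)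
    _ = ‖A‖ := one_mul _
    _ < 1 := hA

omit [FiniteDimensional ℝ E] in
theorem crossing {x y : E} (hx : ‖x‖ ≤ 1) (hy : 1 < ‖y‖) :
    ∃ z : E, ‖z‖ = 1 ∧ ‖x - z‖ ≤ ‖x - y‖ := by
  have hc : Continuous (fun s : ℝ => ‖x + s • (y - x)‖) := by fun_prop
  have h1 : (1 : ℝ) ∈ Icc ((fun s : ℝ => ‖x + s • (y - x)‖) 0)
      ((fun s : ℝ => ‖x + s • (y - x)‖) 1) := by
    simp only [zero_smul, add_zero, one_smul, add_sub_cancel]
    exact ⟨hx, hy.le⟩
  obtain ⟨s, hs, hs1⟩ := intermediate_value_Icc (zero_le_one (α := ℝ)) hc.continuousOn h1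
  refine ⟨x + s • (y - x), hs1, ?_⟩
  have : x - (x + s • (y - x)) = s • (x - y) := by
    rw [sub_add_cancel_left, ← smul_neg, neg_sub]
  rw [this, norm_smul, Real.norm_of_nonneg hs.1]
  calc s * ‖x - y‖ ≤ 1 * ‖x - y‖ := mul_le_mul_of_nonneg_right hs.2 (norm_nonneg _)
    _ = ‖x - y‖ := one_mul _

variable [Nontrivial E] [MeasurableSpace E] [BorelSpace E]

theorem no_retraction (f : E → E) (hf : ∀ x ∈ closedBall (0 : E) 1, ContDiffAt ℝ 1 f x)
    (hn : ∀ x ∈ closedBall (0 : E) 1, ‖f x‖ = 1) (hs : ∀ x : E, ‖x‖ = 1 → f x = x) : False := by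
  classical
  -- derivative facts
  have hdiff : ∀ x ∈ closedBall (0 : E) 1, DifferentiableAt ℝ f x :=
    fun x hx => (hf x hx).differentiableAt (by norm_num)
  have hcont : ContinuousOn (fderiv ℝ f) (closedBall (0 : E) 1) := by
    intro x hx
    have := (hf x hx).fderiv_right (m := 0) (by norm_num)
    exact this.continuousAt.continuousWithinAt
  -- a bound
  obtain ⟨C, hC⟩ := (isCompact_closedBall (0 : E) 1).exists_bound_of_continuousOn
    (f := fun x => fderiv ℝ f x - 1) (hcont.sub continuousOn_const)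
  have hC0 : 0 ≤ C := (norm_nonneg _).trans (hC 0 (by simp))
  have hdiff' : ∀ x ∈ closedBall (0 : E) 1,
      HasFDerivAt (fun y => f y - y) (fderiv ℝ f x - 1) x := by
    intro x hx
    exact (hdiff x hx).hasFDerivAt.sub (hasFDerivAt_id x)
  have hLipB : ∀ x ∈ closedBall (0 : E) 1, ∀ y ∈ closedBall (0 : E) 1,
      ‖(f y - y) - (f x - x)‖ ≤ C * ‖y - x‖ := by
    intro x hx y hy
    exact (convex_closedBall (0 : E) 1).norm_image_sub_le_of_norm_hasFDerivWithin_le
      (fun z hz => (hdiff' z hz).hasFDerivWithinAt) hC hx hy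
  -- the perturbation
  let h : E → E := fun x => if ‖x‖ ≤ 1 then f x - x else 0
  have hin : ∀ x : E, ‖x‖ ≤ 1 → h x = f x - x := fun x hx => if_pos hx
  have hout : ∀ x : E, 1 ≤ ‖x‖ → h x = 0 := by
    intro x hx
    rcases hx.eq_or_lt with h1 | h1
    · rw [hin x h1.symm.le, hs x h1.symm, sub_self]
    · exact if_neg (not_le.mpr h1)
  have hmem : ∀ x : E, x ∈ closedBall (0 : E) 1 ↔ ‖x‖ ≤ 1 := fun x => mem_closedBall_zero_iff
  have hcross : ∀ x y : E, ‖x‖ ≤ 1 → 1 < ‖y‖ → ‖h x - h y‖ ≤ C * ‖x - y‖ := by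
    intro x y hx hy
    obtain ⟨z, hz1, hz2⟩ := crossing hx hy
    rw [hout y hy.le, ← hout z hz1.ge, hin x hx, hin z hz1.le]
    refine (hLipB z ((hmem z).mpr hz1.le) x ((hmem x).mpr hx)).trans ?_
    exact mul_le_mul_of_nonneg_left hz2 hC0
  have hLip : ∀ x y : E, ‖h x - h y‖ ≤ C * ‖x - y‖ := by
    intro x y
    by_cases hx : ‖x‖ ≤ 1
    · by_cases hy : ‖y‖ ≤ 1
      · rw [hin x hx, hin y hy]
        exact hLipB y ((hmem y).mpr hy) x ((hmem x).mpr hx)
      · exact hcross x y hx (not_le.mp hy)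
    · by_cases hy : ‖y‖ ≤ 1
      · rw [norm_sub_rev, norm_sub_rev x y]
        exact hcross y x hy (not_le.mp hx)
      · rw [hout x (not_le.mp hx).le, hout y (not_le.mp hy).le, sub_self, norm_zero]
        positivity
  -- the key integral identity for small t
  have key : ∀ t : ℝ, 0 ≤ t → t * C < 1 →
      ∫ x in ball (0 : E) 1, (1 + t • (fderiv ℝ f x - 1) : E →L[ℝ] E).det =
        (volume (ball (0 : E) 1)).toReal := by
    intro t ht htC
    let g : E → E := fun x => x + t • h x
    have happ : ApproximatesLinearOn g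
        ((ContinuousLinearEquiv.refl ℝ E : E ≃L[ℝ] E) : E →L[ℝ] E) univ
        (Real.toNNReal (t * C)) := by
      intro x _ y _
      rw [Real.coe_toNNReal _ (mul_nonneg ht hC0)]
      have e : g x - g y - ((ContinuousLinearEquiv.refl ℝ E : E ≃L[ℝ] E) : E →L[ℝ] E) (x - y)
          = t • (h x - h y) := by
        change x + t • h x - (y + t • h y) - (x - y) = t • (h x - h y)
        rw [smul_sub]; abel
      rw [e, norm_smul, Real.norm_of_nonneg ht, mul_assoc]
      exact mul_le_mul_of_nonneg_left (hLip x y) ht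
    have hN : Real.toNNReal (t * C) <
        ‖(((ContinuousLinearEquiv.refl ℝ E).symm : E ≃L[ℝ] E) : E →L[ℝ] E)‖₊⁻¹ := by
      rw [← NNReal.coe_lt_coe, Real.coe_toNNReal _ (mul_nonneg ht hC0)]
      simp only [ContinuousLinearEquiv.refl_symm, ContinuousLinearEquiv.coe_refl,
        NNReal.coe_inv, coe_nnnorm, ContinuousLinearMap.norm_id, inv_one]
      exact htC
    have hinj : Function.Injective g := injOn_univ.mp (happ.injOn (Or.inr hN))
    have hsurj : Function.Surjective g := happ.surjective (Or.inr hN)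
    have himg : g '' ball (0 : E) 1 = ball (0 : E) 1 := by
      have hfix : ∀ x : E, 1 ≤ ‖x‖ → g x = x := by
        intro x hx
        simp [g, hout x hx]
      ext y
      rw [mem_ball_zero_iff]
      constructor
      · rintro ⟨x, hx, rfl⟩
        by_contra hcon
        push Not at hcon
        have : g (g x) = g x := hfix _ hcon
        have := hinj this
        rw [this] at hcon
        rw [mem_ball_zero_iff] at hx
        linarith
      · intro hy
        obtain ⟨x, rfl⟩ := hsurj y
        refine ⟨x, ?_, rfl⟩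
        rw [mem_ball_zero_iff]
        by_contra hcon
        push Not at hcon
        rw [hfix x hcon] at hy
        linarith
    have hder : ∀ x ∈ ball (0 : E) 1,
        HasFDerivWithinAt g (1 + t • (fderiv ℝ f x - 1) : E →L[ℝ] E) (ball (0 : E) 1) x := by
      intro x hx
      have h1 : HasFDerivAt (fun y => y + t • (f y - y))
          (1 + t • (fderiv ℝ f x - 1) : E →L[ℝ] E) x :=
        (hasFDerivAt_id x).add ((hdiff' x (ball_subset_closedBall hx)).const_smul t)
      refine h1.hasFDerivWithinAt.congr ?_ ?_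
      · intro y hy
        simp only [g]
        rw [hin y (mem_ball_zero_iff.mp hy).le]
      · simp only [g]
        rw [hin x (mem_ball_zero_iff.mp hx).le]
    have hch := integral_image_eq_integral_abs_det_fderiv_smul volume measurableSet_ball hder
      hinj.injOn (fun _ => (1 : ℝ))
    rw [himg] at hch
    have hL : ∫ x in ball (0 : E) 1, (1 : ℝ) = (volume (ball (0 : E) 1)).toReal := by
      simp [Measure.real]
    rw [← hL, hch]
    refine setIntegral_congr_fun measurableSet_ball (fun x hx => ?_)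
    have hpos : 0 < (1 + t • (fderiv ℝ f x - 1) : E →L[ℝ] E).det := by
      refine det_pos_of_norm_lt _ ?_
      rw [norm_smul, Real.norm_of_nonneg ht]
      exact (mul_le_mul_of_nonneg_left (hC x (ball_subset_closedBall hx)) ht).trans_lt htC
    simp only [smul_eq_mul, mul_one]
    rw [abs_of_pos hpos]
  -- determinant of the derivative vanishes
  have hdet0 : ∀ x ∈ ball (0 : E) 1, (fderiv ℝ f x).det = 0 := by
    intro x hx
    by_contra hne
    have hxB := ball_subset_closedBall hx
    have hnhds : ∀ᶠ y in nhds x, ⟪f y, f y⟫ = 1 := by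
      filter_upwards [isOpen_ball.mem_nhds hx] with y hy
      rw [real_inner_self_eq_norm_sq, hn y (ball_subset_closedBall hy)]
      norm_num
    have hd := (hdiff x hxB).hasFDerivAt
    have h1 : HasFDerivAt (fun y => ⟪f y, f y⟫) (0 : E →L[ℝ] ℝ) x :=
      (hasFDerivAt_const (1 : ℝ) x).congr_of_eventuallyEq hnhds
    have h2 := hd.inner ℝ hd
    have h3 := h1.unique h2
    have hsurj : Function.Surjective (fderiv ℝ f x) := by
      have hu : IsUnit ((fderiv ℝ f x : E →L[ℝ] E) : E →ₗ[ℝ] E) :=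
        (LinearMap.isUnit_iff_isUnit_det _).mpr (isUnit_iff_ne_zero.mpr hne)
      exact ((Module.End.isUnit_iff _).mp hu).2
    obtain ⟨v, hv⟩ := hsurj (f x)
    have h4 := congrArg (fun L => L v) h3
    simp only [zero_apply, ContinuousLinearMap.comp_apply,
      ContinuousLinearMap.prod_apply, fderivInnerCLM_apply, hv] at h4
    rw [real_inner_self_eq_norm_sq, hn x hxB] at h4
    norm_num at h4
  -- choose nodes
  obtain ⟨τ, hτ0, hτ⟩ : ∃ τ : ℝ, 0 < τ ∧ τ * C < 1 := by
    refine ⟨1 / (C + 1), by positivity, ?_⟩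
    rw [div_mul_eq_mul_div, div_lt_one (by positivity)]
    linarith
  set n := Module.finrank ℝ E with hndef
  let v : ℕ → ℝ := fun j => τ * (1 / ((j : ℝ) + 1))
  have hvinj : Function.Injective v := by
    intro a b hab
    have h1 : (1 : ℝ) / ((a : ℝ) + 1) = 1 / ((b : ℝ) + 1) := mul_left_cancel₀ hτ0.ne' hab
    have ha : ((a : ℝ) + 1) ≠ 0 := by positivity
    have hb : ((b : ℝ) + 1) ≠ 0 := by positivity
    field_simp at h1
    have : (a : ℝ) = b := by linarith
    exact_mod_cast this
  have hv0 : ∀ j, 0 ≤ v j := fun j => by positivity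
  have hv1 : ∀ j, v j * C < 1 := by
    intro j
    have : v j ≤ τ := by
      have h1 : (1 : ℝ) / ((j : ℝ) + 1) ≤ 1 := by
        rw [div_le_one (by positivity)]
        have : (0 : ℝ) ≤ j := Nat.cast_nonneg j
        linarith
      calc v j = τ * (1 / ((j : ℝ) + 1)) := rfl
        _ ≤ τ * 1 := mul_le_mul_of_nonneg_left h1 hτ0.le
        _ = τ := mul_one τ
    exact (mul_le_mul_of_nonneg_right this hC0).trans_lt hτ
  let s := Finset.range (n + 1)
  have hvs : Set.InjOn v (s : Set ℕ) := hvinj.injOn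
  let w : ℕ → ℝ := fun j => (Lagrange.basis s v j).eval 1
  have hw : ∑ j ∈ s, w j = 1 := by
    have := congrArg (Polynomial.eval 1) (Lagrange.sum_basis hvs (by simp [s]))
    simpa [w, Polynomial.eval_finsetSum] using this
  have hinterp : ∀ A : E →L[ℝ] E,
      (1 + (1 : ℝ) • A : E →L[ℝ] E).det = ∑ j ∈ s, w j * (1 + v j • A : E →L[ℝ] E).det := by
    intro A
    obtain ⟨p, hp, hpe⟩ := exists_poly A
    have hdeg : p.degree < (s.card : WithBot ℕ) := by
      refine lt_of_le_of_lt Polynomial.degree_le_natDegree ?_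
      simp only [s, Finset.card_range]
      exact_mod_cast Nat.lt_succ_of_le hp
    have h1 := Lagrange.eq_interpolate hvs hdeg
    have h2 := congrArg (Polynomial.eval 1) h1
    rw [hpe, Lagrange.interpolate_apply, Polynomial.eval_finsetSum] at h2
    rw [h2]
    refine Finset.sum_congr rfl (fun j _ => ?_)
    rw [Polynomial.eval_mul, Polynomial.eval_C, hpe, mul_comm]
  have hintble : ∀ j, IntegrableOn
      (fun x => (1 + v j • (fderiv ℝ f x - 1) : E →L[ℝ] E).det) (ball (0 : E) 1) := by
    intro j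
    have : ContinuousOn (fun x => (1 + v j • (fderiv ℝ f x - 1) : E →L[ℝ] E).det)
        (closedBall (0 : E) 1) := by
      refine ContinuousLinearMap.continuous_det.comp_continuousOn ?_
      exact continuousOn_const.add ((hcont.sub continuousOn_const).const_smul (v j))
    exact (this.integrableOn_compact (isCompact_closedBall _ _)).mono_set ball_subset_closedBall
  have hfinal : ∫ x in ball (0 : E) 1, (fderiv ℝ f x).det =
      (volume (ball (0 : E) 1)).toReal := by
    have h1 : ∀ x, (fderiv ℝ f x).det =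
        ∑ j ∈ s, w j * (1 + v j • (fderiv ℝ f x - 1) : E →L[ℝ] E).det := by
      intro x
      rw [← hinterp, one_smul, add_sub_cancel]
    simp_rw [h1]
    rw [integral_finsetSum _ (fun j _ => (hintble j).const_mul (w j))]
    simp_rw [integral_const_mul, key _ (hv0 _) (hv1 _)]
    rw [← Finset.sum_mul, hw, one_mul]
  have hzero : ∫ x in ball (0 : E) 1, (fderiv ℝ f x).det = 0 := by
    rw [setIntegral_congr_fun measurableSet_ball hdet0]
    simp
  rw [hzero] at hfinal
  have hpos : 0 < (volume (ball (0 : E) 1)).toReal :=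
    ENNReal.toReal_pos (measure_ball_pos volume 0 one_pos).ne' measure_ball_lt_top.ne
  linarith


theorem no_outward (F : E → E) (hF : ∀ x ∈ closedBall (0 : E) 1, ContDiffAt ℝ 1 F x)
    (hne : ∀ x ∈ closedBall (0 : E) 1, F x ≠ 0)
    (hout : ∀ x : E, ‖x‖ = 1 → 0 < ⟪x, F x⟫) : False := by
  let N : E → ℝ := fun x => ⟪F x, F x⟫
  let b : E → ℝ := fun x => ⟪x, F x⟫
  let D : E → ℝ := fun x => b x ^ 2 + N x * (1 - ⟪x, x⟫)
  let t : E → ℝ := fun x => (-b x + Real.sqrt (D x)) / N x
  let f : E → E := fun x => x + t x • F x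
  have hN : ∀ x ∈ closedBall (0 : E) 1, 0 < N x := by
    intro x hx
    have h1 : 0 < ‖F x‖ := norm_pos_iff.mpr (hne x hx)
    simp only [N, real_inner_self_eq_norm_sq]
    positivity
  have hx1 : ∀ x ∈ closedBall (0 : E) 1, ⟪x, x⟫ ≤ 1 := by
    intro x hx
    rw [mem_closedBall_zero_iff] at hx
    rw [real_inner_self_eq_norm_sq]
    exact pow_le_one₀ (norm_nonneg x) hx
  have hD : ∀ x ∈ closedBall (0 : E) 1, 0 < D x := by
    intro x hx
    rcases (hx1 x hx).lt_or_eq with h | h
    · have := mul_pos (hN x hx) (sub_pos.mpr h)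
      have h2 := sq_nonneg (b x)
      simp only [D]
      linarith
    · have hxn : ‖x‖ = 1 := by
        rw [real_inner_self_eq_norm_sq] at h
        have := norm_nonneg x
        nlinarith
      have := hout x hxn
      simp only [D, h, sub_self, mul_zero, add_zero]
      exact pow_pos this 2
  have hNc : ∀ x ∈ closedBall (0 : E) 1, ContDiffAt ℝ 1 N x :=
    fun x hx => (hF x hx).inner ℝ (hF x hx)
  have hbc : ∀ x ∈ closedBall (0 : E) 1, ContDiffAt ℝ 1 b x :=
    fun x hx => contDiffAt_id.inner ℝ (hF x hx)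
  have hxc : ∀ x : E, ContDiffAt ℝ 1 (fun x : E => ⟪x, x⟫) x :=
    fun x => contDiffAt_id.inner ℝ contDiffAt_id
  have hDc : ∀ x ∈ closedBall (0 : E) 1, ContDiffAt ℝ 1 D x :=
    fun x hx => ((hbc x hx).pow 2).add ((hNc x hx).mul (contDiffAt_const.sub (hxc x)))
  have htc : ∀ x ∈ closedBall (0 : E) 1, ContDiffAt ℝ 1 t x :=
    fun x hx => ((hbc x hx).neg.add ((hDc x hx).sqrt (hD x hx).ne')).div (hNc x hx)
      (hN x hx).ne'
  refine no_retraction f ?_ ?_ ?_
  · intro x hx
    exact contDiffAt_id.add ((htc x hx).smul (hF x hx))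
  · intro x hx
    have h1 : ‖f x‖ ^ 2 = 1 := by
      rw [← real_inner_self_eq_norm_sq]
      simp only [f]
      rw [inner_add_left, inner_add_right, inner_add_right, inner_smul_left, inner_smul_right,
        inner_smul_left, inner_smul_right, real_inner_comm x (F x)]
      simp only [conj_trivial]
      have h2 : Real.sqrt (D x) ^ 2 = D x := Real.sq_sqrt (hD x hx).le
      have h3 : t x * N x = -b x + Real.sqrt (D x) := div_mul_cancel₀ _ (hN x hx).ne'
      have h4 : N x * (t x * (t x * N x) + 2 * (t x * b x)) = N x * (1 - ⟪x, x⟫) := by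
        have : N x * (t x * (t x * N x) + 2 * (t x * b x)) =
          (t x * N x) ^ 2 + 2 * (t x * N x) * b x := by ring
        rw [this, h3]
        have : (-b x + Real.sqrt (D x)) ^ 2 + 2 * (-b x + Real.sqrt (D x)) * b x =
          Real.sqrt (D x) ^ 2 - b x ^ 2 := by ring
        rw [this, h2]
        simp only [D]; ring
      have h5 := mul_left_cancel₀ (hN x hx).ne' h4
      simp only [N, b] at h5
      linarith
    have := norm_nonneg (f x)
    nlinarith
  · intro x hx
    have hxB : x ∈ closedBall (0 : E) 1 := by rw [mem_closedBall_zero_iff]; exact hx.le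
    have h1 : ⟪x, x⟫ = 1 := by rw [real_inner_self_eq_norm_sq, hx]; norm_num
    have h2 : D x = b x ^ 2 := by simp only [D, h1]; ring
    have h3 : t x = 0 := by
      simp only [t, h2]
      rw [Real.sqrt_sq (hout x hx).le]
      simp [b]
    simp only [f, h3, zero_smul, add_zero]

end Pool.Agent.Helper667.NoRetract
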