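import Mathlib

/-!
# Regular acyclic coverings of 2-complexes: algebraic core
-/

namespace H667RA

open Finsupp

section Basic

variable {G Q Q' : Type*} [Group G] [Group Q] [Group Q']
variable {ι κ ν : Type*}

/-- Image in `C(X_Q; k)` of the translate by `q` of an integral chain. -/
noncomputable def cellL (k : Type*) [CommRing k] (φ : G →* Q) (q : Q) :
    (κ × G →₀ ℤ) →+ (κ × Q →₀ k) :=
  Finsupp.liftAddHom (fun x => (Finsupp.singleAddHom (x.1, q * φ x.2)).comp (Int.castAddHom k))

theorem cellL_single (k : Type*) [CommRing k] (φ : G →* Q) (q : Q) (x : κ × G) (n : ℤ) :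
    cellL k φ q (Finsupp.single x n) = Finsupp.single (x.1, q * φ x.2) (n : k) := by
  simp [cellL]

/-- The boundary map determined by `d`. -/
noncomputable def D (k : Type*) [CommRing k] (d : ι → (κ × G →₀ ℤ)) (φ : G →* Q) :
    (ι × Q →₀ k) →ₗ[k] (κ × Q →₀ k) :=
  Finsupp.linearCombination k (fun p => cellL k φ p.2 (d p.1))

theorem D_single (k : Type*) [CommRing k] (d : ι → (κ × G →₀ ℤ)) (φ : G →* Q)
    (p : ι × Q) (c : k) :
    D k d φ (Finsupp.single p c) = c • cellL k φ p.2 (d p.1) := by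
  simp [D]

/-- push forward along a hom of groups -/
noncomputable def push (k : Type*) [CommRing k] (κ : Type*) (ψ : Q →* Q') :
    (κ × Q →₀ k) →ₗ[k] (κ × Q' →₀ k) :=
  Finsupp.lmapDomain k k (Prod.map id ψ)

theorem push_single (k : Type*) [CommRing k] (ψ : Q →* Q') (x : κ × Q) (c : k) :
    push k κ ψ (Finsupp.single x c) = Finsupp.single (x.1, ψ x.2) c := by
  simp [push, Finsupp.lmapDomain_apply, Finsupp.mapDomain_single, Prod.map]

/-- left translation -/
noncomputable def act (k : Type*) [CommRing k] (κ : Type*) (r : Q) :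
    (κ × Q →₀ k) →ₗ[k] (κ × Q →₀ k) :=
  Finsupp.lmapDomain k k (fun x => (x.1, r * x.2))

theorem act_single (k : Type*) [CommRing k] (r : Q) (x : κ × Q) (c : k) :
    act k κ r (Finsupp.single x c) = Finsupp.single (x.1, r * x.2) c := by
  simp [act, Finsupp.lmapDomain_apply, Finsupp.mapDomain_single]

theorem push_cellL (k : Type*) [CommRing k] (φ : G →* Q) (ψ : Q →* Q') (q : Q)
    (a : κ × G →₀ ℤ) :
    push k κ ψ (cellL k φ q a) = cellL k (ψ.comp φ) (ψ q) a := by
  induction a using Finsupp.induction_linear with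
  | zero => simp
  | add f g hf hg => simp [hf, hg]
  | single x n => simp [cellL_single, push_single]

theorem act_cellL (k : Type*) [CommRing k] (φ : G →* Q) (r : Q) (q : Q)
    (a : κ × G →₀ ℤ) :
    act k κ r (cellL k φ q a) = cellL k φ (r * q) a := by
  induction a using Finsupp.induction_linear with
  | zero => simp
  | add f g hf hg => simp [hf, hg]
  | single x n => simp [cellL_single, act_single, mul_assoc]

theorem push_D (k : Type*) [CommRing k] (d : ι → (κ × G →₀ ℤ)) (φ : G →* Q) (ψ : Q →* Q')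
    (z : ι × Q →₀ k) :
    push k κ ψ (D k d φ z) = D k d (ψ.comp φ) (push k ι ψ z) := by
  induction z using Finsupp.induction_linear with
  | zero => simp
  | add f g hf hg => simp [hf, hg]
  | single x n => simp [D_single, push_single, push_cellL]

theorem act_D (k : Type*) [CommRing k] (d : ι → (κ × G →₀ ℤ)) (φ : G →* Q) (r : Q)
    (z : ι × Q →₀ k) :
    act k κ r (D k d φ z) = D k d φ (act k ι r z) := by
  induction z using Finsupp.induction_linear with
  | zero => simp
  | add f g hf hg => simp [hf, hg]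
  | single x n => simp [D_single, act_single, act_cellL]

theorem push_act (k : Type*) [CommRing k] (ψ : Q →* Q') (r : Q)
    (z : ι × Q →₀ k) :
    push k ι ψ (act k ι r z) = act k ι (ψ r) (push k ι ψ z) := by
  induction z using Finsupp.induction_linear with
  | zero => simp
  | add f g hf hg => simp [hf, hg]
  | single x n => simp [act_single, push_single]

theorem act_one (k : Type*) [CommRing k] (z : ι × Q →₀ k) :
    act k ι (1 : Q) z = z := by
  induction z using Finsupp.induction_linear with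
  | zero => simp
  | add f g hf hg => simp [hf, hg]
  | single x n => simp [act_single]

theorem act_act (k : Type*) [CommRing k] (r s : Q) (z : ι × Q →₀ k) :
    act k ι r (act k ι s z) = act k ι (r * s) z := by
  induction z using Finsupp.induction_linear with
  | zero => simp
  | add f g hf hg => simp [hf, hg]
  | single x n => simp [act_single, mul_assoc]

/-- change of coefficients -/
noncomputable def coef {k k' : Type*} [CommRing k] [CommRing k'] (f : k →+* k') (α : Type*) :
    (α →₀ k) →+ (α →₀ k') :=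
  Finsupp.mapRange.addMonoidHom f.toAddMonoidHom

theorem coef_single {k k' : Type*} [CommRing k] [CommRing k'] (f : k →+* k') {α : Type*}
    (x : α) (c : k) : coef f α (Finsupp.single x c) = Finsupp.single x (f c) := by
  simp [coef]

theorem coef_apply {k k' : Type*} [CommRing k] [CommRing k'] (f : k →+* k') {α : Type*}
    (z : α →₀ k) (x : α) : coef f α z x = f (z x) := by
  simp [coef]

theorem coef_smul {k k' : Type*} [CommRing k] [CommRing k'] (f : k →+* k') {α : Type*}
    (c : k) (z : α →₀ k) : coef f α (c • z) = f c • coef f α z := by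
  ext x; simp [coef_apply]

theorem coef_cellL {k k' : Type*} [CommRing k] [CommRing k'] (f : k →+* k') (φ : G →* Q) (q : Q)
    (a : κ × G →₀ ℤ) :
    coef f _ (cellL k φ q a) = cellL k' φ q a := by
  induction a using Finsupp.induction_linear with
  | zero => simp
  | add f g hf hg => simp [hf, hg]
  | single x n => simp [cellL_single, coef_single]

theorem coef_D {k k' : Type*} [CommRing k] [CommRing k'] (f : k →+* k')
    (d : ι → (κ × G →₀ ℤ)) (φ : G →* Q) (z : ι × Q →₀ k) :
    coef f _ (D k d φ z) = D k' d φ (coef f _ z) := by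
  induction z using Finsupp.induction_linear with
  | zero => simp
  | add f g hf hg => simp [hf, hg]
  | single x n => rw [D_single, coef_single, D_single, coef_smul, coef_cellL]

end Basic

section Chain
variable {G : Type*} [Group G] {ι κ ν : Type*}

/-- `H₂(X_P; k) = 0` -/
def InjP (k : Type*) [CommRing k] (d : ι → (κ × G →₀ ℤ)) (P : Subgroup G) : Prop :=
  ∃ _ : P.Normal, Function.Injective (D k d (QuotientGroup.mk' P))

theorem exists_avoid (C : Set (Subgroup G)) (hC : IsChain (· ≤ ·) C) (hne : C.Nonempty)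
    (B : Finset G) (hB : ∀ b ∈ B, b ∉ sInf C) : ∃ P ∈ C, ∀ b ∈ B, b ∉ P := by
  classical
  induction B using Finset.induction_on with
  | empty => exact ⟨hne.some, hne.some_mem, by simp⟩
  | insert a B ha ih =>
    obtain ⟨P, hP, hPB⟩ := ih (fun b hb => hB b (Finset.mem_insert_of_mem hb))
    have h1 := hB a (Finset.mem_insert_self _ _)
    rw [Subgroup.mem_sInf] at h1
    push Not at h1
    obtain ⟨R, hR, haR⟩ := h1
    rcases hC.total hP hR with h | h
    · refine ⟨P, hP, ?_⟩
      intro b hb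
      rcases Finset.mem_insert.1 hb with rfl | hb
      · exact fun h' => haR (h h')
      · exact hPB b hb
    · refine ⟨R, hR, ?_⟩
      intro b hb
      rcases Finset.mem_insert.1 hb with rfl | hb
      · exact haR
      · exact fun h' => hPB b hb (h h')

theorem injP_sInf (k : Type*) [CommRing k] (d : ι → (κ × G →₀ ℤ))
    (C : Set (Subgroup G)) (hC : IsChain (· ≤ ·) C) (hne : C.Nonempty)
    (h : ∀ P ∈ C, InjP k d P) : InjP k d (sInf C) := by
  classical
  have hn : (sInf C).Normal := by
    refine ⟨fun n hn g => ?_⟩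
    rw [Subgroup.mem_sInf] at hn ⊢
    intro P hP
    obtain ⟨hPn, _⟩ := h P hP
    exact hPn.conj_mem n (hn P hP) g
  refine ⟨hn, ?_⟩
  rw [injective_iff_map_eq_zero]
  intro z hz
  set B : Finset G := ((z.support ×ˢ z.support).filter (fun p => p.1.2 ≠ p.2.2)).image
    (fun p => (Quotient.out p.1.2)⁻¹ * (Quotient.out p.2.2)) with hBdef
  have hB : ∀ b ∈ B, b ∉ sInf C := by
    intro b hb hb'
    simp only [hBdef, Finset.mem_image, Finset.mem_filter] at hb
    obtain ⟨p, ⟨_, hp⟩, rfl⟩ := hb
    apply hp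
    have := QuotientGroup.eq.2 hb'
    rwa [QuotientGroup.out_eq', QuotientGroup.out_eq'] at this
  obtain ⟨P, hP, hPB⟩ := exists_avoid C hC hne B hB
  obtain ⟨hPn, hinj⟩ := h P hP
  have hle : sInf C ≤ P := sInf_le hP
  let ψ : G ⧸ (sInf C) →* G ⧸ P := QuotientGroup.map (sInf C) P (MonoidHom.id G) hle
  have hψ : ψ.comp (QuotientGroup.mk' (sInf C)) = QuotientGroup.mk' P := by
    ext x; rfl
  have h0 : D k d (QuotientGroup.mk' P) (push k ι ψ z) = 0 := by
    rw [← hψ, ← push_D, hz, map_zero]
  have h1 : push k ι ψ z = 0 := hinj (by rw [h0, map_zero])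
  have hinjOn : Set.InjOn (Prod.map id ψ : ι × (G ⧸ sInf C) → ι × (G ⧸ P)) (z.support : Set _) := by
    intro x hx y hy hxy
    simp only [Prod.map, Prod.mk.injEq, id] at hxy
    refine Prod.ext hxy.1 ?_
    by_contra hne'
    have hmem : (Quotient.out x.2)⁻¹ * (Quotient.out y.2) ∈ B := by
      rw [hBdef]
      refine Finset.mem_image.2 ⟨(x, y), Finset.mem_filter.2 ⟨Finset.mem_product.2 ⟨hx, hy⟩, hne'⟩, rfl⟩
    apply hPB _ hmem
    rw [← QuotientGroup.eq]
    have e1 : ψ x.2 = ((Quotient.out x.2 : G) : G ⧸ P) := by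
      conv_lhs => rw [← QuotientGroup.out_eq' x.2]
      rfl
    have e2 : ψ y.2 = ((Quotient.out y.2 : G) : G ⧸ P) := by
      conv_lhs => rw [← QuotientGroup.out_eq' y.2]
      rfl
    rw [← e1, ← e2]; exact hxy.2
  ext x
  by_cases hx : x ∈ z.support
  · have h2 := Finsupp.mapDomain_apply' (M := k) (z.support : Set _) z subset_rfl hinjOn hx
    rw [← h2]
    have h3 : Finsupp.mapDomain (Prod.map id ψ) z = 0 := h1
    rw [h3]; rfl
  · rw [Finsupp.notMem_support_iff.1 hx]; rfl

end Chain
section Conservative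

theorem conservative {k R : Type*} [Field k] [CommRing R] [IsDomain R] [Algebra k R]
    (ε : R →ₐ[k] k) {α β : Type*} (D' : (α →₀ R) →ₗ[R] (β →₀ R))
    (Dk : (α →₀ k) →ₗ[k] (β →₀ k))
    (hcomp : ∀ z, coef ε.toRingHom β (D' z) = Dk (coef ε.toRingHom α z))
    (hinj : Function.Injective Dk) : Function.Injective D' := by
  classical
  rw [injective_iff_map_eq_zero]
  intro z hz
  obtain ⟨L, hL⟩ := LinearMap.exists_leftInverse_of_injective Dk (LinearMap.ker_eq_bot.2 hinj)
  have hL' : ∀ x, L (Dk x) = x := fun x => by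
    have := LinearMap.congr_fun hL x
    simpa using this
  let lam : α → (β →₀ R) →ₗ[R] R := fun t =>
    Finsupp.linearCombination R (fun s => algebraMap k R (L (Finsupp.single s 1) t))
  have hlam : ∀ t y, ε (lam t y) = L (coef ε.toRingHom β y) t := by
    intro t y
    induction y using Finsupp.induction_linear with
    | zero => simp
    | add f g hf hg => simp only [map_add, hf, hg, Finsupp.add_apply]
    | single s r =>
      have h1 : coef ε.toRingHom β (Finsupp.single s r) = (ε r) • (Finsupp.single s (1:k)) := by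
        rw [coef_single]; simp
      rw [h1, map_smul]
      simp [lam]
  let m : Matrix z.support z.support R := fun t t' => lam t (D' (Finsupp.single (t' : α) 1))
  have hm : m.map ε.toRingHom = 1 := by
    ext t t'
    have h1 : ε (m t t') = L (coef ε.toRingHom β (D' (Finsupp.single (t' : α) 1))) t := hlam _ _
    have h2 : (m.map ε.toRingHom) t t' = ε (m t t') := rfl
    rw [h2, h1, hcomp, hL', coef_single, Matrix.one_apply]
    by_cases h : t = t'
    · subst h; simp
    · have h' : (t' : α) ≠ t := fun h' => h (Subtype.ext h'.symm)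
      rw [if_neg h, Finsupp.single_apply, if_neg h']
  have hdet : m.det ≠ 0 := by
    intro h0
    have h1 : ε.toRingHom m.det = (m.map ε.toRingHom).det := RingHom.map_det _ _
    rw [hm, h0, map_zero, Matrix.det_one] at h1
    exact zero_ne_one h1
  have h2 : z = ∑ t' : z.support, (z t') • Finsupp.single (t' : α) (1 : R) := by
    conv_lhs => rw [← Finsupp.sum_single z]
    rw [Finsupp.sum, ← Finset.sum_coe_sort]
    refine Finset.sum_congr rfl fun x _ => ?_
    simp
  have h3 : D' z = ∑ t' : z.support, (z t') • D' (Finsupp.single (t' : α) (1 : R)) := by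
    have := congrArg D' h2
    rw [this, map_sum]
    exact Finset.sum_congr rfl fun x _ => map_smul _ _ _
  have hmul : m.mulVec (fun t => z t) = 0 := by
    ext t
    have h1 : (m.mulVec (fun t => z t)) t = lam t (D' z) := by
      rw [h3, map_sum]
      simp only [Matrix.mulVec, dotProduct, map_smul, smul_eq_mul, m]
      exact Finset.sum_congr rfl fun x _ => mul_comm _ _
    rw [h1, hz, map_zero]; rfl
  have h0 := Matrix.eq_zero_of_mulVec_eq_zero hdet hmul
  ext x
  by_cases hx : x ∈ z.support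
  · have := congrFun h0 ⟨x, hx⟩
    simpa using this
  · simpa using hx

variable {G Q Q' : Type*} [Group G] [Group Q] [Group Q']
variable {ι κ ν : Type*}

/-- Re-coordinatisation. -/
noncomputable def Psi (k : Type*) [Field k] (τ : Type*) (π : Q →* Q') {A : Type*} [CommGroup A]
    (coc : Q → A) : (τ × Q →₀ k) →ₗ[k] (τ × Q' →₀ MonoidAlgebra k A) :=
  Finsupp.linearCombination k
    (fun x => Finsupp.single (x.1, π x.2) (MonoidAlgebra.single (coc x.2) (1:k)))

theorem Psi_single (k : Type*) [Field k] {τ : Type*} (π : Q →* Q') {A : Type*} [CommGroup A]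
    (coc : Q → A) (x : τ × Q) (c : k) :
    Psi k τ π coc (Finsupp.single x c) =
      Finsupp.single (x.1, π x.2) (MonoidAlgebra.single (coc x.2) c) := by
  simp [Psi]

theorem Psi_act (k : Type*) [Field k] {τ : Type*} (π : Q →* Q') {A : Type*} [CommGroup A]
    (coc : Q → A) (j : A →* Q) (hker : ∀ a, π (j a) = 1)
    (hcocmul : ∀ a q, coc (j a * q) = a * coc q) (a : A) (y : τ × Q →₀ k) :
    Psi k τ π coc (act k τ (j a) y) = (MonoidAlgebra.single a (1:k)) • Psi k τ π coc y := by
  induction y using Finsupp.induction_linear with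
  | zero => simp
  | add f g hf hg => simp [hf, hg]
  | single x n =>
    rw [act_single, Psi_single, Psi_single, Finsupp.smul_single, smul_eq_mul,
      MonoidAlgebra.single_mul_single, one_mul, map_mul, hker, one_mul, hcocmul]

theorem Psi_inj (k : Type*) [Field k] {τ : Type*} (π : Q →* Q') {A : Type*} [CommGroup A]
    (coc : Q → A) (hdec : ∀ q q', π q = π q' → coc q = coc q' → q = q') :
    Function.Injective (Psi k τ π coc) := by
  classical
  rw [injective_iff_map_eq_zero]
  intro z hz
  have key : ∀ (z : τ × Q →₀ k) (x : τ × Q),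
      (Psi k τ π coc z (x.1, π x.2)).coeff (coc x.2) = z x := by
    intro z x
    induction z using Finsupp.induction_linear with
    | zero => simp
    | add f g hf hg => simp [hf, hg]
    | single y n =>
      rw [Psi_single]
      by_cases h : y = x
      · subst h; simp
      · rw [Finsupp.single_apply, Finsupp.single_apply, if_neg h]
        split_ifs with h1
        · rw [MonoidAlgebra.coeff_single, Finsupp.single_apply, if_neg]
          intro h2
          apply h
          simp only [Prod.mk.injEq] at h1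
          exact Prod.ext h1.1 (hdec _ _ h1.2 h2)
        · simp
  ext x
  rw [← key z x, hz]; simp

theorem conservative_D (k : Type*) [Field k] (d : ι → (κ × G →₀ ℤ)) (φ : G →* Q)
    (π : Q →* Q') (hπ : Function.Surjective π) {A : Type*} [CommGroup A] [UniqueProds A]
    (j : A →* Q) (hj : Function.Injective j) (hr : j.range = π.ker)
    (hinj : Function.Injective (D k d (π.comp φ))) : Function.Injective (D k d φ) := by
  classical
  let σ : Q' → Q := Function.surjInv hπ
  have hσ : ∀ q, π (σ q) = q := Function.surjInv_eq hπ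
  have hex : ∀ q : Q, ∃ a : A, j a = q * (σ (π q))⁻¹ := by
    intro q
    have : q * (σ (π q))⁻¹ ∈ π.ker := by
      rw [MonoidHom.mem_ker, map_mul, map_inv, hσ, mul_inv_cancel]
    rw [← hr] at this
    exact this
  choose coc hcoc using hex
  have hdec : ∀ q, j (coc q) * σ (π q) = q := fun q => by rw [hcoc]; group
  have hker : ∀ a, π (j a) = 1 := fun a => by
    have : j a ∈ π.ker := by rw [← hr]; exact ⟨a, rfl⟩
    exact this
  have hcocmul : ∀ a q, coc (j a * q) = a * coc q := by
    intro a q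
    apply hj
    rw [hcoc, map_mul, map_mul, hker, one_mul, hcoc, mul_assoc]
  let ε : MonoidAlgebra k A →ₐ[k] k := MonoidAlgebra.lift k k A 1
  have hε : ∀ a c, ε (MonoidAlgebra.single a c) = c := by
    intro a c; simp [ε]
  let D' : (ι × Q' →₀ MonoidAlgebra k A) →ₗ[MonoidAlgebra k A] (κ × Q' →₀ MonoidAlgebra k A) :=
    Finsupp.linearCombination _
      (fun x => Psi k κ π coc (D k d φ (Finsupp.single (x.1, σ x.2) 1)))
  have hpush : ∀ (w : κ × Q →₀ k), coef ε.toRingHom _ (Psi k κ π coc w) = push k κ π w := by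
    intro w
    induction w using Finsupp.induction_linear with
    | zero => simp
    | add f g hf hg => simp only [map_add, hf, hg]
    | single x n =>
      rw [Psi_single, coef_single, push_single]
      congr 1
      exact hε _ _
  have hcomp : ∀ z, coef ε.toRingHom _ (D' z) = D k d (π.comp φ) (coef ε.toRingHom _ z) := by
    intro z
    induction z using Finsupp.induction_linear with
    | zero => simp
    | add f g hf hg => simp only [map_add, hf, hg]
    | single x r =>
      have h1 : D' (Finsupp.single x r) =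
          r • Psi k κ π coc (D k d φ (Finsupp.single (x.1, σ x.2) 1)) := by
        simp [D']
      rw [h1, coef_smul, hpush, push_D, push_single, hσ, coef_single, ← map_smul]
      simp
  have hD'inj := conservative ε D' (D k d (π.comp φ)) hcomp hinj
  have hkey : ∀ z, Psi k κ π coc (D k d φ z) = D' (Psi k ι π coc z) := by
    intro z
    induction z using Finsupp.induction_linear with
    | zero => simp
    | add f g hf hg => simp only [map_add, hf, hg]
    | single x c =>
      have h1 : D' (Psi k ι π coc (Finsupp.single x c)) =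
          (MonoidAlgebra.single (coc x.2) c) •
            Psi k κ π coc (D k d φ (Finsupp.single (x.1, σ (π x.2)) 1)) := by
        rw [Psi_single]; simp [D']
      have h2 : (Finsupp.single x c : ι × Q →₀ k) =
          c • act k ι (j (coc x.2)) (Finsupp.single (x.1, σ (π x.2)) 1) := by
        rw [act_single, hdec]; simp
      rw [h1, h2, map_smul, ← act_D, map_smul, Psi_act k π coc j hker hcocmul]
      rw [← smul_assoc]
      congr 1
      simp
  intro z z' h
  apply Psi_inj k π coc _ 
  · apply hD'inj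
    rw [← hkey, ← hkey, h]
  · intro q q' h1 h2
    rw [← hdec q, ← hdec q', h1, h2]

theorem uniqueProds_of_torsionFree (A : Type*) [CommGroup A]
    (h : ∀ (a : A) (n : ℕ), n ≠ 0 → a ^ n = 1 → a = 1) : UniqueProds A := by
  classical
  refine ⟨fun {S T} hS hT => ?_⟩
  let H : Subgroup A := Subgroup.closure ((S ∪ T : Finset A) : Set A)
  have hSH : ∀ s ∈ S, s ∈ H := fun s hs => Subgroup.subset_closure (by simp [hs])
  have hTH : ∀ s ∈ T, s ∈ H := fun s hs => Subgroup.subset_closure (by simp [hs])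
  have hfg : Group.FG H := (Group.fg_iff_subgroup_fg H).2 ⟨S ∪ T, rfl⟩
  have hfg' : Monoid.FG H := Group.fg_iff_monoid_fg.1 hfg
  have htf : IsMulTorsionFree H := by
    rw [isMulTorsionFree_iff_not_isOfFinOrder]
    intro a ha hfin
    rw [isOfFinOrder_iff_pow_eq_one] at hfin
    obtain ⟨n, hn, hna⟩ := hfin
    apply ha
    have := h a n hn.ne' (by exact_mod_cast congrArg Subtype.val hna)
    exact_mod_cast this
  have hU : TwoUniqueProds H := inferInstance
  have hU' : UniqueProds H := inferInstance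
  let S' : Finset H := S.subtype (· ∈ H)
  let T' : Finset H := T.subtype (· ∈ H)
  have hS' : S'.Nonempty := by
    obtain ⟨s, hs⟩ := hS
    exact ⟨⟨s, hSH s hs⟩, by simp [S', hs]⟩
  have hT' : T'.Nonempty := by
    obtain ⟨s, hs⟩ := hT
    exact ⟨⟨s, hTH s hs⟩, by simp [T', hs]⟩
  obtain ⟨a0, ha0, b0, hb0, hu⟩ := UniqueProds.uniqueMul_of_nonempty hS' hT'
  refine ⟨a0, by simpa [S'] using ha0, b0, by simpa [T'] using hb0, ?_⟩
  intro a b ha hb hab
  have := @hu ⟨a, hSH a ha⟩ ⟨b, hTH b hb⟩ (by simp [S', ha]) (by simp [T', hb])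
    (Subtype.ext (by simpa using hab))
  exact ⟨congrArg Subtype.val this.1, congrArg Subtype.val this.2⟩

end Conservative
section Top

variable {G : Type*} [Group G] {ι κ ν : Type*}

/-- sum of coefficients -/
noncomputable def eps (α : Type*) : (α →₀ ℤ) →+ ℤ := Finsupp.liftAddHom (fun _ => AddMonoidHom.id ℤ)

theorem eps_single {α : Type*} (x : α) (n : ℤ) : eps α (Finsupp.single x n) = n := by
  simp [eps]

theorem eps_act (r : G) (c : ν × G →₀ ℤ) : eps _ (act ℤ ν r c) = eps _ c := by
  induction c using Finsupp.induction_linear with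
  | zero => simp
  | add f g hf hg => simp [hf, hg]
  | single x n => simp [act_single, eps_single]

/-- The trivialised cellular chain complex of the universal covering. -/
structure Exact2 (d2 : ι → (κ × G →₀ ℤ)) (d1 : κ → (ν × G →₀ ℤ)) : Prop where
  dd : ∀ z, D ℤ d1 (MonoidHom.id G) (D ℤ d2 (MonoidHom.id G) z) = 0
  ex1 : ∀ y, D ℤ d1 (MonoidHom.id G) y = 0 → ∃ w, D ℤ d2 (MonoidHom.id G) w = y
  ep : ∀ y, eps _ (D ℤ d1 (MonoidHom.id G) y) = 0
  ex0 : ∀ c, eps _ c = 0 → ∃ y, D ℤ d1 (MonoidHom.id G) y = c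
  ne : Nonempty ν

theorem push_surj (k : Type*) [CommRing k] (P : Subgroup G) [P.Normal] (w : ι × (G ⧸ P) →₀ k) :
    ∃ z, push k ι (QuotientGroup.mk' P) z = w :=
  Finsupp.mapDomain_surjective
    (Function.Surjective.prodMap Function.surjective_id (QuotientGroup.mk'_surjective P)) w

theorem push_D_mk (k : Type*) [CommRing k] (d : ι → (κ × G →₀ ℤ)) (P : Subgroup G) [P.Normal]
    (z : ι × G →₀ k) :
    push k κ (QuotientGroup.mk' P) (D k d (MonoidHom.id G) z) =
      D k d (QuotientGroup.mk' P) (push k ι (QuotientGroup.mk' P) z) := by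
  rw [push_D]; rfl

theorem push_act_mem (k : Type*) [CommRing k] (P : Subgroup G) [P.Normal] {x : G} (hx : x ∈ P)
    (z : ι × G →₀ k) :
    push k ι (QuotientGroup.mk' P) (act k ι x z) = push k ι (QuotientGroup.mk' P) z := by
  rw [push_act]
  have : QuotientGroup.mk' P x = 1 := (QuotientGroup.eq_one_iff x).2 hx
  rw [this, act_one]

/-- additive maps on `C(X̃)` that are invariant under `P` factor through `C(X_P)` -/
theorem factor_push {A : Type*} [AddCommGroup A] (P : Subgroup G) [P.Normal]
    (θ : (κ × G →₀ ℤ) →+ A) (hθ : ∀ x ∈ P, ∀ c, θ (act ℤ κ x c) = θ c) :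
    ∃ θ' : (κ × (G ⧸ P) →₀ ℤ) →+ A, ∀ c, θ' (push ℤ κ (QuotientGroup.mk' P) c) = θ c := by
  refine ⟨Finsupp.liftAddHom (fun x => θ.comp (Finsupp.singleAddHom (x.1, Quotient.out x.2))), ?_⟩
  intro c
  induction c using Finsupp.induction_linear with
  | zero => simp
  | add f g hf hg => simp only [map_add, hf, hg]
  | single x n =>
    rw [push_single]
    simp only [Finsupp.liftAddHom_apply_single, AddMonoidHom.comp_apply,
      Finsupp.singleAddHom_apply]
    set o : G := Quotient.out (QuotientGroup.mk' P x.2) with ho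
    have hmem : x.2 * o⁻¹ ∈ P := by
      rw [← QuotientGroup.eq_one_iff]
      have h1 : ((o : G) : G ⧸ P) = (x.2 : G ⧸ P) := QuotientGroup.out_eq' _
      rw [QuotientGroup.mk_mul, QuotientGroup.mk_inv, h1, mul_inv_cancel]
    have h2 := hθ _ hmem (Finsupp.single (x.1, o) n)
    rw [act_single] at h2
    simp only [inv_mul_cancel_right] at h2
    exact h2.symm

variable {d2 : ι → (κ × G →₀ ℤ)} {d1 : κ → (ν × G →₀ ℤ)}

theorem exists_theta (E : Exact2 d2 d1) (P : Subgroup G) [P.Normal] (v0 : ν) :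
    ∃ θ' : (κ × (G ⧸ P) →₀ ℤ) →+ Additive (Abelianization P),
      (∀ w, θ' (D ℤ d2 (QuotientGroup.mk' P) w) = 0) ∧
      ∀ (x : P) (b : κ × G →₀ ℤ),
        D ℤ d1 (MonoidHom.id G) b =
          act ℤ ν (x : G) (Finsupp.single (v0, 1) 1) - Finsupp.single (v0, 1) 1 →
        θ' (push ℤ κ (QuotientGroup.mk' P) b) = Additive.ofMul (Abelianization.of x) := by
  classical
  have hmem : ∀ g : G, g * (Quotient.out (QuotientGroup.mk' P g) : G)⁻¹ ∈ P := by
    intro g
    rw [← QuotientGroup.eq_one_iff]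
    have h1 : ((Quotient.out (QuotientGroup.mk' P g) : G) : G ⧸ P) = (g : G ⧸ P) :=
      QuotientGroup.out_eq' _
    rw [QuotientGroup.mk_mul, QuotientGroup.mk_inv, h1, mul_inv_cancel]
  let f : G → Additive (Abelianization P) := fun g =>
    Additive.ofMul (Abelianization.of ⟨_, hmem g⟩)
  have hf : ∀ (x : P) (g : G), f (x * g) = Additive.ofMul (Abelianization.of x) + f g := by
    intro x g
    rw [← ofMul_mul, ← map_mul]
    simp only [f]
    congr 2
    apply Subtype.ext
    have : QuotientGroup.mk' P (x * g) = QuotientGroup.mk' P g := by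
      rw [map_mul]
      have : QuotientGroup.mk' P (x : G) = 1 := (QuotientGroup.eq_one_iff (x : G)).2 x.2
      rw [this, one_mul]
    simp only [this, Subgroup.coe_mul, mul_assoc]
  let Δ : (ν × G →₀ ℤ) →+ Additive (Abelianization P) :=
    Finsupp.liftAddHom (fun x => (zmultiplesHom _ (f x.2)))
  have hΔs : ∀ x n, Δ (Finsupp.single x n) = n • f x.2 := by
    intro x n; simp [Δ]
  have hΔ : ∀ (x : P) c, Δ (act ℤ ν (x : G) c) = Δ c + eps _ c • Additive.ofMul (Abelianization.of x) := by
    intro x c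
    induction c using Finsupp.induction_linear with
    | zero => simp
    | add f g hf hg => simp only [map_add, hf, hg, add_smul]; abel
    | single y n =>
      rw [act_single, hΔs, hΔs, hf, eps_single, smul_add, add_comm]
  obtain ⟨θ', hθ'⟩ := factor_push P (Δ.comp (D ℤ d1 (MonoidHom.id G)).toAddMonoidHom)
    (by
      intro x hx c
      have := hΔ ⟨x, hx⟩ (D ℤ d1 (MonoidHom.id G) c)
      rw [E.ep, zero_smul, add_zero, act_D] at this
      simpa using this)
  refine ⟨θ', ?_, ?_⟩
  · intro w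
    obtain ⟨z, rfl⟩ := push_surj ℤ P w
    rw [← push_D_mk, hθ']
    simp [E.dd]
  · intro x b hb
    rw [hθ']
    simp only [AddMonoidHom.comp_apply, LinearMap.toAddMonoidHom_coe, hb, map_sub, hΔ, eps_single]
    simp

theorem exists_Z (E : Exact2 d2 d1) (P : Subgroup G) [P.Normal] (v0 : ν) :
    ∃ b : G → (κ × G →₀ ℤ),
      (∀ g, D ℤ d1 (MonoidHom.id G) (b g) =
          act ℤ ν g (Finsupp.single (v0, 1) 1) - Finsupp.single (v0, 1) 1) ∧
      ∃ Z : P →* Multiplicative ((κ × (G ⧸ P) →₀ ℤ) ⧸
          LinearMap.range (D ℤ d2 (QuotientGroup.mk' P))),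
        ∀ x : P, Z x = Multiplicative.ofAdd
          (Submodule.Quotient.mk (push ℤ κ (QuotientGroup.mk' P) (b x))) := by
  have h0 : ∀ g : G, ∃ y, D ℤ d1 (MonoidHom.id G) y =
      act ℤ ν g (Finsupp.single (v0, 1) 1) - Finsupp.single (v0, 1) 1 := by
    intro g
    apply E.ex0
    rw [map_sub, eps_act, sub_self]
  choose b hb using h0
  refine ⟨b, hb, MonoidHom.mk' (fun x => Multiplicative.ofAdd
          (Submodule.Quotient.mk (push ℤ κ (QuotientGroup.mk' P) (b x)))) ?_, fun x => rfl⟩
  intro x y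
  rw [← ofAdd_add, ← Submodule.Quotient.mk_add]
  congr 1
  rw [Submodule.Quotient.eq]
  have h1 : D ℤ d1 (MonoidHom.id G) (b (x * y : P) - (b x + act ℤ κ (x : G) (b y))) = 0 := by
    rw [map_sub, map_add, ← act_D, hb, hb, hb, map_sub, act_act, Subgroup.coe_mul]
    abel
  obtain ⟨w, hw⟩ := E.ex1 _ h1
  refine ⟨push ℤ ι (QuotientGroup.mk' P) w, ?_⟩
  rw [← push_D_mk, hw, map_sub, map_add, push_act_mem ℤ P x.2]

theorem mem_commutator_iff (P : Subgroup G) (x : P) : x ∈ commutator P ↔ (x : G) ∈ ⁅P, P⁆ := by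
  rw [← Subgroup.map_subtype_commutator]
  constructor
  · intro h; exact ⟨x, h, rfl⟩
  · rintro ⟨y, hy, hxy⟩
    have : y = x := Subtype.ext hxy
    rwa [this] at hy

theorem torsion_free (E : Exact2 d2 d1) (P : Subgroup G) [P.Normal] (p : ℕ) (hp : p.Prime)
    (hinj : Function.Injective (D (ZMod p) d2 (QuotientGroup.mk' P))) (x : G) (hx : x ∈ P)
    (hxp : x ^ p ∈ ⁅P, P⁆) : x ∈ ⁅P, P⁆ := by
  obtain ⟨v0⟩ := E.ne
  obtain ⟨b, hb, Z, hZ⟩ := exists_Z E P v0
  obtain ⟨θ', hθ1, hθ2⟩ := exists_theta E P v0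
  let x' : P := ⟨x, hx⟩
  have h1 : Z (x' ^ p) = 1 := by
    apply Abelianization.commutator_subset_ker Z
    rw [mem_commutator_iff]
    exact hxp
  rw [map_pow, hZ, ← ofAdd_nsmul, ← Submodule.Quotient.mk_smul] at h1
  have h2 : (p • push ℤ κ (QuotientGroup.mk' P) (b x')) ∈
      LinearMap.range (D ℤ d2 (QuotientGroup.mk' P)) := by
    rw [← Submodule.Quotient.mk_eq_zero]
    exact h1
  obtain ⟨w, hw⟩ := h2
  have h3 : coef (Int.castRingHom (ZMod p)) _ w = 0 := by
    apply hinj
    rw [← coef_D, hw, map_zero]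
    ext y
    rw [coef_apply]
    simp
  have h4 : ∃ w', w = (p : ℤ) • w' := by
    refine ⟨w.mapRange (fun n => n / p) (by simp), ?_⟩
    ext y
    have h5 : ((w y : ℤ) : ZMod p) = 0 := by
      have := DFunLike.congr_fun h3 y
      rw [coef_apply] at this
      simpa using this
    rw [ZMod.intCast_zmod_eq_zero_iff_dvd] at h5
    simp only [Finsupp.smul_apply, Finsupp.mapRange_apply, smul_eq_mul]
    exact (Int.mul_ediv_cancel' h5).symm
  obtain ⟨w', rfl⟩ := h4
  have h5 : push ℤ κ (QuotientGroup.mk' P) (b x') = D ℤ d2 (QuotientGroup.mk' P) w' := by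
    rw [map_smul] at hw
    ext y
    have := DFunLike.congr_fun hw y
    simp only [Finsupp.smul_apply, smul_eq_mul, nsmul_eq_mul] at this
    exact (mul_left_cancel₀ (by exact_mod_cast hp.ne_zero) this).symm
  have h6 := hθ2 x' (b x') (hb x')
  rw [h5, hθ1] at h6
  rw [← mem_commutator_iff P x']
  have h7 : Abelianization.of x' = 1 := by
    exact (Additive.ofMul.injective h6).symm
  exact (QuotientGroup.eq_one_iff x').1 h7

end Top
section Main

variable {G : Type*} [Group G] {ι κ ν : Type*}
variable {d2 : ι → (κ × G →₀ ℤ)} {d1 : κ → (ν × G →₀ ℤ)}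

/-- `X_P` is acyclic -/
def AcycP (d2 : ι → (κ × G →₀ ℤ)) (d1 : κ → (ν × G →₀ ℤ)) (P : Subgroup G) : Prop :=
  ∃ _ : P.Normal, Function.Injective (D ℤ d2 (QuotientGroup.mk' P)) ∧
    ∀ y, D ℤ d1 (QuotientGroup.mk' P) y = 0 → ∃ w, D ℤ d2 (QuotientGroup.mk' P) w = y

theorem ddP (E : Exact2 d2 d1) (P : Subgroup G) [P.Normal] (z : ι × (G ⧸ P) →₀ ℤ) :
    D ℤ d1 (QuotientGroup.mk' P) (D ℤ d2 (QuotientGroup.mk' P) z) = 0 := by
  obtain ⟨z, rfl⟩ := push_surj ℤ P z
  rw [← push_D_mk, ← push_D_mk, E.dd, map_zero]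

theorem clear_denom {α : Type*} (z : α →₀ ℚ) :
    ∃ (n : ℤ) (z' : α →₀ ℤ), n ≠ 0 ∧ coef (Int.castRingHom ℚ) α z' = (n : ℚ) • z := by
  induction z using Finsupp.induction_linear with
  | zero => exact ⟨1, 0, one_ne_zero, by simp⟩
  | add f g hf hg =>
    obtain ⟨n, f', hn, hf'⟩ := hf
    obtain ⟨m, g', hm, hg'⟩ := hg
    refine ⟨n * m, m • f' + n • g', mul_ne_zero hn hm, ?_⟩
    rw [map_add, map_zsmul, map_zsmul, hf', hg']
    push_cast
    rw [smul_add, ← Int.cast_smul_eq_zsmul ℚ, ← Int.cast_smul_eq_zsmul ℚ, smul_smul, smul_smul,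
      mul_comm (m : ℚ)]
  | single x q =>
    refine ⟨q.den, Finsupp.single x q.num, by exact_mod_cast q.den_ne_zero, ?_⟩
    rw [coef_single, Finsupp.smul_single, smul_eq_mul]
    congr 1
    have := Rat.mul_den_eq_num q
    push_cast
    simp only [eq_intCast]
    rw [mul_comm]; exact this.symm

theorem coef_inj {α : Type*} : Function.Injective (coef (Int.castRingHom ℚ) α) := by
  intro z z' h
  ext x
  have := DFunLike.congr_fun h x
  rw [coef_apply, coef_apply] at this
  simpa using this

theorem inj_rat {Q : Type*} [Group Q] (φ : G →* Q) (h : Function.Injective (D ℤ d2 φ)) :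
    Function.Injective (D ℚ d2 φ) := by
  rw [injective_iff_map_eq_zero] at h ⊢
  intro z hz
  obtain ⟨n, z', hn, hz'⟩ := clear_denom z
  have h1 : D ℤ d2 φ z' = 0 := by
    apply coef_inj
    rw [coef_D, hz', map_smul, hz, smul_zero, map_zero]
  rw [h z' h1, map_zero] at hz'
  have : (n : ℚ) ≠ 0 := by exact_mod_cast hn
  exact (smul_eq_zero.1 hz'.symm).resolve_left this

theorem inj_int {Q : Type*} [Group Q] (φ : G →* Q) (h : Function.Injective (D ℚ d2 φ)) :
    Function.Injective (D ℤ d2 φ) := by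
  intro z z' hz
  apply coef_inj
  apply h
  rw [← coef_D, ← coef_D, hz]

theorem coef_zmod {α : Type*} (p : ℕ) (w : α →₀ ℤ)
    (h : coef (Int.castRingHom (ZMod p)) _ w = 0) : ∃ w', w = (p : ℤ) • w' := by
  refine ⟨w.mapRange (fun n => n / p) (by simp), ?_⟩
  ext y
  have h5 : ((w y : ℤ) : ZMod p) = 0 := by
    have := DFunLike.congr_fun h y
    rw [coef_apply] at this
    simpa using this
  rw [ZMod.intCast_zmod_eq_zero_iff_dvd] at h5
  simp only [Finsupp.smul_apply, Finsupp.mapRange_apply, smul_eq_mul]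
  exact (Int.mul_ediv_cancel' h5).symm

theorem smul_cancel {α : Type*} (p : ℤ) (hp : p ≠ 0) {w w' : α →₀ ℤ}
    (h : p • w = p • w') : w = w' := by
  ext y
  have := DFunLike.congr_fun h y
  simp only [Finsupp.smul_apply, smul_eq_mul] at this
  exact mul_left_cancel₀ hp this

theorem coef_p_smul {α : Type*} (p : ℕ) (w : α →₀ ℤ) :
    coef (Int.castRingHom (ZMod p)) _ ((p : ℤ) • w) = 0 := by
  ext y
  rw [coef_apply]; simp

theorem coef_surj {α : Type*} (p : ℕ) (z : α →₀ ZMod p) :
    ∃ z', coef (Int.castRingHom (ZMod p)) α z' = z := by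
  induction z using Finsupp.induction_linear with
  | zero => exact ⟨0, by simp⟩
  | add f g hf hg =>
    obtain ⟨f', hf'⟩ := hf
    obtain ⟨g', hg'⟩ := hg
    exact ⟨f' + g', by rw [map_add, hf', hg']⟩
  | single x q =>
    obtain ⟨n, rfl⟩ := ZMod.intCast_surjective q
    exact ⟨Finsupp.single x n, by rw [coef_single]; rfl⟩

theorem inj_zmod (E : Exact2 d2 d1) (P : Subgroup G) (h : AcycP d2 d1 P) (p : ℕ) (hp : p.Prime) :
    InjP (ZMod p) d2 P := by
  obtain ⟨hn, hinj, hex⟩ := h
  refine ⟨hn, ?_⟩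
  have hp0 : (p : ℤ) ≠ 0 := by exact_mod_cast hp.ne_zero
  rw [injective_iff_map_eq_zero]
  intro z hz
  obtain ⟨z, rfl⟩ := coef_surj p z
  rw [← coef_D] at hz
  obtain ⟨y, hy⟩ := coef_zmod p _ hz
  have h1 : D ℤ d1 (QuotientGroup.mk' P) y = 0 := by
    apply smul_cancel (p : ℤ) hp0
    rw [← map_smul, ← hy, ddP E, smul_zero]
  obtain ⟨w, rfl⟩ := hex y h1
  rw [← map_smul] at hy
  rw [hinj hy, coef_p_smul]

theorem perfect_exact (E : Exact2 d2 d1) (P : Subgroup G) [P.Normal] (hP : ⁅P, P⁆ = P)
    (y : κ × (G ⧸ P) →₀ ℤ) (hy : D ℤ d1 (QuotientGroup.mk' P) y = 0) :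
    ∃ w, D ℤ d2 (QuotientGroup.mk' P) w = y := by
  obtain ⟨v0⟩ := E.ne
  obtain ⟨b, hb, Z, hZ⟩ := exists_Z E P v0
  have hZ1 : ∀ x : P, (Submodule.Quotient.mk (push ℤ κ (QuotientGroup.mk' P) (b x)) :
      (κ × (G ⧸ P) →₀ ℤ) ⧸ LinearMap.range (D ℤ d2 (QuotientGroup.mk' P))) = 0 := by
    intro x
    have h1 : x ∈ commutator P := by rw [mem_commutator_iff, hP]; exact x.2
    have h2 := Abelianization.commutator_subset_ker Z h1
    rw [MonoidHom.mem_ker, hZ] at h2
    exact h2
  have h0 : ∀ e : ν × G, ∃ a, D ℤ d1 (MonoidHom.id G) a =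
      Finsupp.single e 1 - Finsupp.single (v0, 1) 1 := by
    intro e
    apply E.ex0
    rw [map_sub, eps_single, eps_single, sub_self]
  choose a ha using h0
  let C := (κ × (G ⧸ P) →₀ ℤ) ⧸ LinearMap.range (D ℤ d2 (QuotientGroup.mk' P))
  let pm : (κ × G →₀ ℤ) → C := fun c => Submodule.Quotient.mk (push ℤ κ (QuotientGroup.mk' P) c)
  have hpm : ∀ c c', D ℤ d1 (MonoidHom.id G) c = D ℤ d1 (MonoidHom.id G) c' → pm c = pm c' := by
    intro c c' h
    have h1 : D ℤ d1 (MonoidHom.id G) (c - c') = 0 := by rw [map_sub, h, sub_self]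
    obtain ⟨w, hw⟩ := E.ex1 _ h1
    simp only [pm]
    rw [Submodule.Quotient.eq, ← map_sub, ← hw, push_D_mk]
    exact ⟨_, rfl⟩
  have hpm_add : ∀ c c', pm (c + c') = pm c + pm c' := by
    intro c c'; simp only [pm]; rw [map_add, Submodule.Quotient.mk_add]
  have hpm_smul : ∀ (n : ℤ) c, pm (n • c) = n • pm c := by
    intro n c; simp only [pm]; rw [map_smul, Submodule.Quotient.mk_smul]
  let Λ : (ν × G →₀ ℤ) →+ C := Finsupp.liftAddHom (fun e => (zmultiplesHom _ (pm (a e))))
  have hΛs : ∀ x n, Λ (Finsupp.single x n) = n • pm (a x) := by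
    intro x n; simp [Λ]
  have hΛex : ∀ c, ∃ a', D ℤ d1 (MonoidHom.id G) a' = c - eps _ c • Finsupp.single (v0, 1) 1 ∧
      Λ c = pm a' := by
    intro c
    induction c using Finsupp.induction_linear with
    | zero => exact ⟨0, by simp, by simp [pm]⟩
    | add f g hf hg =>
      obtain ⟨f', h1, h2⟩ := hf
      obtain ⟨g', h3, h4⟩ := hg
      refine ⟨f' + g', ?_, ?_⟩
      · rw [map_add, h1, h3, map_add, add_smul]; abel
      · rw [map_add, hpm_add, h2, h4]
    | single x n =>
      refine ⟨n • a x, ?_, ?_⟩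
      · rw [map_smul, ha, eps_single, smul_sub]
        simp
      · rw [hΛs, hpm_smul]
  have hΛD : ∀ c, Λ (D ℤ d1 (MonoidHom.id G) c) = pm c := by
    intro c
    obtain ⟨a', h1, h2⟩ := hΛex (D ℤ d1 (MonoidHom.id G) c)
    rw [h2]
    apply hpm
    rw [h1, E.ep, zero_smul, sub_zero]
  have hΛinv : ∀ x ∈ P, ∀ c, Λ (act ℤ ν x c) = Λ c := by
    intro x hx c
    induction c using Finsupp.induction_linear with
    | zero => simp
    | add f g hf hg => simp only [map_add, hf, hg]
    | single e n =>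
      rw [act_single, hΛs, hΛs]
      congr 1
      have h1 : pm (a (e.1, x * e.2)) = pm (act ℤ κ x (a e) + b x) := by
        apply hpm
        rw [ha, map_add, ← act_D, ha, hb, map_sub, act_single]
        abel
      rw [h1, hpm_add]
      have h2 : pm (b x) = 0 := hZ1 ⟨x, hx⟩
      have h3 : pm (act ℤ κ x (a e)) = pm (a e) := by
        simp only [pm]; rw [push_act_mem ℤ P hx]
      rw [h2, h3, add_zero]
  obtain ⟨Λ', hΛ'⟩ := factor_push P Λ hΛinv
  obtain ⟨y0, rfl⟩ := push_surj ℤ P y
  rw [← push_D_mk] at hy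
  have h1 : pm y0 = 0 := by rw [← hΛD, ← hΛ', hy, map_zero]
  have h2 := (Submodule.Quotient.mk_eq_zero _).1 h1
  obtain ⟨w, hw⟩ := h2
  exact ⟨w, hw⟩

theorem injP_commutator (E : Exact2 d2 d1) (k : Type*) [Field k] (P : Subgroup G)
    (h : InjP k d2 P) (hp : ∀ p : ℕ, p.Prime → InjP (ZMod p) d2 P) : InjP k d2 ⁅P, P⁆ := by
  obtain ⟨hn, hinj⟩ := h
  have hn' : (⁅P, P⁆ : Subgroup G).Normal := Subgroup.commutator_normal P P
  refine ⟨hn', ?_⟩
  have hle : ⁅P, P⁆ ≤ P := Subgroup.commutator_le_right P P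
  let K : Subgroup G := ⁅P, P⁆
  let π : G ⧸ K →* G ⧸ P := QuotientGroup.map K P (MonoidHom.id G) hle
  have hπs : Function.Surjective π := by
    intro q
    obtain ⟨g, rfl⟩ := QuotientGroup.mk'_surjective P q
    exact ⟨QuotientGroup.mk' K g, rfl⟩
  have hπ : π.comp (QuotientGroup.mk' K) = QuotientGroup.mk' P := by ext x; rfl
  -- torsion-freeness
  have htf : ∀ (n : ℕ), n ≠ 0 → ∀ x ∈ P, x ^ n ∈ K → x ∈ K := by
    intro n
    induction n using Nat.recOnPrimePow with
    | zero => intro h; exact absurd rfl h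
    | one => intro _ x _ hx; simpa using hx
    | prime_pow_mul a p n hp' hpa hn0 ih =>
      intro hne x hx hxn
      have ha : a ≠ 0 := by rintro rfl; simp at hne
      have hstep : ∀ (m : ℕ) (y : G), y ∈ P → y ^ (p ^ m) ∈ K → y ∈ K := by
        intro m
        induction m with
        | zero => intro y _ hy; simpa using hy
        | succ m ihm =>
          intro y hyP hy
          apply ihm y hyP
          obtain ⟨hn1, hinj1⟩ := hp p hp'
          apply torsion_free E P p hp' hinj1 _ (P.pow_mem hyP _)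
          rw [← pow_mul, ← pow_succ]; exact hy
      apply ih ha x hx
      apply hstep n _ (P.pow_mem hx _)
      rw [← pow_mul, mul_comm]; exact hxn
  let A : Subgroup (G ⧸ K) := π.ker
  have hA : ∀ a ∈ A, ∃ x ∈ P, QuotientGroup.mk' K x = a := by
    intro a ha
    obtain ⟨x, rfl⟩ := QuotientGroup.mk'_surjective K a
    refine ⟨x, ?_, rfl⟩
    rw [← QuotientGroup.eq_one_iff]
    exact ha
  let iA : CommGroup A :=
    { (inferInstance : Group A) with
      mul_comm := by
        rintro ⟨a, ha⟩ ⟨b, hb⟩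
        apply Subtype.ext
        obtain ⟨x, hx, rfl⟩ := hA a ha
        obtain ⟨y, hy, rfl⟩ := hA b hb
        change QuotientGroup.mk' K x * QuotientGroup.mk' K y =
          QuotientGroup.mk' K y * QuotientGroup.mk' K x
        rw [← commutatorElement_eq_one_iff_mul_comm, ← map_commutatorElement]
        exact (QuotientGroup.eq_one_iff _).2 (Subgroup.commutator_mem_commutator hx hy) }
  have hUP : UniqueProds A := by
    apply uniqueProds_of_torsionFree
    rintro ⟨a, ha⟩ n hn0 han
    obtain ⟨x, hx, rfl⟩ := hA a ha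
    apply Subtype.ext
    have h1 : QuotientGroup.mk' K (x ^ n) = 1 := by
      rw [map_pow]; exact congrArg Subtype.val han
    exact (QuotientGroup.eq_one_iff _).2 (htf n hn0 x hx ((QuotientGroup.eq_one_iff _).1 h1))
  refine conservative_D k d2 (QuotientGroup.mk' K) π hπs (A := A) A.subtype
    A.subtype_injective (Subgroup.range_subtype A) ?_
  rw [hπ]
  exact hinj

/-- Main theorem, trivialised form: below every `P₀ ∈ ra(X)` there is a minimal element. -/
theorem exists_minimal (E : Exact2 d2 d1) (P0 : Subgroup G) (h0 : AcycP d2 d1 P0) :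
    ∃ M ≤ P0, AcycP d2 d1 M ∧ ∀ R, AcycP d2 d1 R → R ≤ M → R = M := by
  let H : Set (Subgroup G)ᵒᵈ := {P | InjP ℚ d2 (OrderDual.ofDual P) ∧
    ∀ p : ℕ, p.Prime → InjP (ZMod p) d2 (OrderDual.ofDual P)}
  have hra : ∀ P, AcycP d2 d1 P → OrderDual.toDual P ∈ H := by
    intro P hP
    obtain ⟨hn, hinj, hex⟩ := id hP
    have h1 : InjP ℚ d2 P := ⟨hn, inj_rat _ hinj⟩
    exact ⟨h1, fun p hp => inj_zmod E P hP p hp⟩
  obtain ⟨M, hM0, hMmax⟩ := zorn_le_nonempty₀ H (by
    intro C hCH hC P hP
    let C' : Set (Subgroup G) := OrderDual.ofDual '' C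
    have hC' : IsChain (· ≤ ·) C' := by
      rintro _ ⟨a, ha, rfl⟩ _ ⟨b, hb, rfl⟩ hne
      have := hC ha hb (fun h => hne (by rw [h]))
      exact this.symm
    have hne' : C'.Nonempty := ⟨_, P, hP, rfl⟩
    refine ⟨OrderDual.toDual (sInf C'), ⟨?_, ?_⟩, ?_⟩
    · apply injP_sInf _ _ C' hC' hne'
      rintro _ ⟨a, ha, rfl⟩
      exact (hCH ha).1
    · intro p hp
      apply injP_sInf _ _ C' hC' hne'
      rintro _ ⟨a, ha, rfl⟩
      exact (hCH ha).2 p hp
    · intro z hz
      exact OrderDual.le_toDual.2 (sInf_le ⟨z, hz, rfl⟩)) (OrderDual.toDual P0) (hra P0 h0)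
  let M' : Subgroup G := OrderDual.ofDual M
  have hM' : InjP ℚ d2 M' ∧ ∀ p : ℕ, p.Prime → InjP (ZMod p) d2 M' := hMmax.1
  have hmin : ∀ R : Subgroup G, OrderDual.toDual R ∈ H → R ≤ M' → R = M' := by
    intro R hR hRM
    exact le_antisymm hRM (hMmax.2 hR hRM)
  have hcomm : ⁅M', M'⁆ = M' := by
    apply hmin
    · refine ⟨injP_commutator E ℚ M' hM'.1 hM'.2, fun p hp => ?_⟩
      have := Fact.mk hp
      exact injP_commutator E (ZMod p) M' (hM'.2 p hp) hM'.2
    · obtain ⟨hn, _⟩ := hM'.1
      exact Subgroup.commutator_le_right M' M'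
  refine ⟨M', hM0, ?_, ?_⟩
  · obtain ⟨⟨hn, hinj⟩, _⟩ := id hM'
    exact ⟨hn, inj_int _ hinj, fun y hy => perfect_exact E M' hcomm y hy⟩
  · intro R hR hRM
    exact hmin R (hra R hR) hRM

end Main
end H667RA
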