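import Mathlib

/-!
Cellular chain complexes of universal coverings of connected 2-complexes, and the poset `ra`.
-/

namespace H667RA

universe u v w x

section CellDefs

variable {G : Type u} [Group G] {C₀ : Type v} {C₁ : Type w} {C₂ : Type x}
variable [MulAction G C₀] [MulAction G C₁] [MulAction G C₂]

/-- `C₀`, `C₁`, `C₂` are the sets of cells of a 2-complex `X̃` on which `G` acts freely by
cellular homeomorphisms, and `bd₂`, `bd₁` are its cellular boundary maps; `X̃` is nonempty,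
connected (`H₀ = ℤ` via the augmentation) and has `H₁ = 0`. -/
structure CellularUniversalCover (G : Type u) [Group G] {C₀ : Type v} {C₁ : Type w} {C₂ : Type x}
    [MulAction G C₀] [MulAction G C₁] [MulAction G C₂]
    (bd₂ : (C₂ →₀ ℤ) →ₗ[ℤ] (C₁ →₀ ℤ)) (bd₁ : (C₁ →₀ ℤ) →ₗ[ℤ] (C₀ →₀ ℤ)) : Prop where
  free₀ : ∀ (g : G) (c : C₀), g • c = c → g = 1
  free₁ : ∀ (g : G) (c : C₁), g • c = c → g = 1
  free₂ : ∀ (g : G) (c : C₂), g • c = c → g = 1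
  equivariant₂ : ∀ (g : G) (z : C₂ →₀ ℤ),
    bd₂ (z.mapDomain (fun c => g • c)) = (bd₂ z).mapDomain (fun c => g • c)
  equivariant₁ : ∀ (g : G) (z : C₁ →₀ ℤ),
    bd₁ (z.mapDomain (fun c => g • c)) = (bd₁ z).mapDomain (fun c => g • c)
  nonempty : Nonempty C₀
  bd₁_bd₂ : ∀ z : C₂ →₀ ℤ, bd₁ (bd₂ z) = 0
  augmentation_bd₁ : ∀ z : C₁ →₀ ℤ, ((bd₁ z).sum fun _ n => n) = 0
  connected : ∀ z : C₀ →₀ ℤ, (z.sum fun _ n => n) = 0 → ∃ t : C₁ →₀ ℤ, bd₁ t = z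
  simplyConnected : ∀ z : C₁ →₀ ℤ, bd₁ z = 0 → ∃ t : C₂ →₀ ℤ, bd₂ t = z

/-- projection of chains of `X̃` to chains of `X_P = P \ X̃` -/
noncomputable def toCover (P : Subgroup G) (C : Type*) [MulAction G C] :
    (C →₀ ℤ) →ₗ[ℤ] (MulAction.orbitRel.Quotient P C →₀ ℤ) :=
  Finsupp.lmapDomain ℤ ℤ (fun c => (Quotient.mk _ c : MulAction.orbitRel.Quotient P C))

/-- boundary map of `X_P = P \ X̃` -/
noncomputable def coverBd (P : Subgroup G) {C C' : Type*} [MulAction G C] [MulAction G C']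
    (bd : (C →₀ ℤ) →ₗ[ℤ] (C' →₀ ℤ)) :
    (MulAction.orbitRel.Quotient P C →₀ ℤ) →ₗ[ℤ] (MulAction.orbitRel.Quotient P C' →₀ ℤ) :=
  Finsupp.linearCombination ℤ fun o => toCover P C' (bd (Finsupp.single (Quotient.out o) 1))

/-- The set `ra(X)` of normal subgroups `P` such that `X_P = P \ X̃` is acyclic:
`H₂(X_P) = 0` and `H₁(X_P) = 0`. -/
def ra (bd₂ : (C₂ →₀ ℤ) →ₗ[ℤ] (C₁ →₀ ℤ)) (bd₁ : (C₁ →₀ ℤ) →ₗ[ℤ] (C₀ →₀ ℤ)) :
    Set (Subgroup G) :=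
  {P | P.Normal ∧ LinearMap.ker (coverBd P bd₂) = ⊥ ∧
    LinearMap.ker (coverBd P bd₁) = LinearMap.range (coverBd P bd₂)}

end CellDefs
end H667RA
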