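import Pool.Agent.Helper667.RA
import Pool.Agent.Helper667.RACellDefs

namespace H667RA
open Finsupp

universe u v w x y

section Cellular

variable {G : Type u} [Group G] {C₀ : Type v} {C₁ : Type w} {C₂ : Type x}
variable [MulAction G C₀] [MulAction G C₁] [MulAction G C₂]

variable {C C' : Type*} [MulAction G C] [MulAction G C']

theorem toCover_smul (P : Subgroup G) {p : G} (hp : p ∈ P) (z : C →₀ ℤ) :
    toCover P C (z.mapDomain (fun c => p • c)) = toCover P C z := by
  simp only [toCover, Finsupp.lmapDomain_apply]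
  rw [← Finsupp.mapDomain_comp]
  congr 1
  ext c
  exact Quotient.sound ⟨⟨p, hp⟩, rfl⟩

theorem toCover_surj (P : Subgroup G) (w : MulAction.orbitRel.Quotient P C →₀ ℤ) :
    ∃ z, toCover P C z = w :=
  Finsupp.mapDomain_surjective Quotient.mk_surjective w

theorem coverBd_toCover (P : Subgroup G) (bd : (C →₀ ℤ) →ₗ[ℤ] (C' →₀ ℤ))
    (heq : ∀ (g : G) (z : C →₀ ℤ),
      bd (z.mapDomain (fun c => g • c)) = (bd z).mapDomain (fun c => g • c)) (z : C →₀ ℤ) :
    coverBd P bd (toCover P C z) = toCover P C' (bd z) := by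
  induction z using Finsupp.induction_linear with
  | zero => simp
  | add f g hf hg => simp only [map_add, hf, hg]
  | single c n =>
    have h1 : toCover P C (Finsupp.single c n) =
        Finsupp.single (Quotient.mk _ c : MulAction.orbitRel.Quotient P C) n := by
      simp [toCover, Finsupp.lmapDomain_apply, Finsupp.mapDomain_single]
    rw [h1]
    simp only [coverBd, Finsupp.linearCombination_single]
    obtain ⟨⟨p, hp⟩, hpc⟩ : (Quotient.out (Quotient.mk _ c : MulAction.orbitRel.Quotient P C)) ∈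
        MulAction.orbit P c := MulAction.orbitRel_apply.1 (Quotient.mk_out c)
    have h2 : (Finsupp.single (Quotient.out (Quotient.mk _ c : MulAction.orbitRel.Quotient P C))
        (1 : ℤ)) = (Finsupp.single c (1 : ℤ)).mapDomain (fun c => p • c) := by
      rw [Finsupp.mapDomain_single, ← hpc]; rfl
    rw [h2, heq, toCover_smul P hp, ← map_smul, ← map_smul]
    simp

/-- choice of orbit representatives -/
noncomputable def repr (o : MulAction.orbitRel.Quotient G C) : C := Quotient.out o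

theorem exists_smul_repr (c : C) :
    ∃ g : G, g • repr (Quotient.mk _ c : MulAction.orbitRel.Quotient G C) = c := by
  have := MulAction.orbitRel_apply.1 ((MulAction.orbitRel G C).symm (Quotient.mk_out c))
  obtain ⟨g, hg⟩ := this
  exact ⟨g, hg⟩

/-- (orbit, group element) to cell -/
noncomputable def phi (p : MulAction.orbitRel.Quotient G C × G) : C := p.2 • repr p.1

theorem mk_phi (p : MulAction.orbitRel.Quotient G C × G) :
    (Quotient.mk _ (phi p) : MulAction.orbitRel.Quotient G C) = p.1 := by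
  conv_rhs => rw [← Quotient.out_eq p.1]
  exact Quotient.sound ⟨p.2, rfl⟩

theorem phi_bij (hfree : ∀ (g : G) (c : C), g • c = c → g = 1) :
    Function.Bijective (phi : MulAction.orbitRel.Quotient G C × G → C) := by
  constructor
  · intro p q h
    have h1 : p.1 = q.1 := by rw [← mk_phi p, ← mk_phi q, h]
    refine Prod.ext h1 ?_
    simp only [phi, h1] at h
    have h2 : (q.2⁻¹ * p.2) • repr q.1 = repr q.1 := by rw [mul_smul, h, inv_smul_smul]
    have := hfree _ _ h2
    exact (inv_mul_eq_one.1 this).symm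
  · intro c
    obtain ⟨g, hg⟩ := exists_smul_repr (G := G) c
    exact ⟨(_, g), hg⟩

/-- the bijection with `P`-orbits -/
noncomputable def ephi (P : Subgroup G) [P.Normal]
    (p : MulAction.orbitRel.Quotient G C × (G ⧸ P)) : MulAction.orbitRel.Quotient P C :=
  Quotient.mk _ ((Quotient.out p.2 : G) • repr p.1)

theorem ephi_mk (P : Subgroup G) [P.Normal] (o : MulAction.orbitRel.Quotient G C) (g : G) :
    ephi P (o, QuotientGroup.mk' P g) = Quotient.mk _ (phi (o, g)) := by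
  simp only [ephi, phi]
  apply Quotient.sound
  set r : G := Quotient.out (QuotientGroup.mk' P g) with hr
  have hmem : r * g⁻¹ ∈ P := by
    rw [← QuotientGroup.eq_one_iff]
    have h1 : ((r : G) : G ⧸ P) = (g : G ⧸ P) := QuotientGroup.out_eq' _
    rw [QuotientGroup.mk_mul, QuotientGroup.mk_inv, h1, mul_inv_cancel]
  refine ⟨⟨_, hmem⟩, ?_⟩
  change (r * g⁻¹) • (g • repr o) = r • repr o
  rw [smul_smul, inv_mul_cancel_right]

theorem ephi_bij (hfree : ∀ (g : G) (c : C), g • c = c → g = 1) (P : Subgroup G) [P.Normal] :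
    Function.Bijective (ephi P : MulAction.orbitRel.Quotient G C × (G ⧸ P) → _) := by
  constructor
  · rintro ⟨o, q⟩ ⟨o', q'⟩ h
    obtain ⟨g, rfl⟩ := QuotientGroup.mk'_surjective P q
    obtain ⟨g', rfl⟩ := QuotientGroup.mk'_surjective P q'
    rw [ephi_mk, ephi_mk] at h
    obtain ⟨⟨p, hp⟩, hpc⟩ := MulAction.orbitRel_apply.1 (Quotient.exact h)
    have hpc' : phi (o', p * g') = phi (o, g) := by
      rw [← hpc]; simp only [phi, mul_smul]; rfl
    have h2 := (phi_bij hfree).1 hpc'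
    simp only [Prod.mk.injEq] at h2 ⊢
    refine ⟨h2.1.symm, ?_⟩
    rw [← h2.2, map_mul]
    have : QuotientGroup.mk' P p = 1 := (QuotientGroup.eq_one_iff p).2 hp
    rw [this, one_mul]
  · intro c
    obtain ⟨c, rfl⟩ := Quotient.mk_surjective c
    obtain ⟨⟨o, g⟩, rfl⟩ := (phi_bij hfree).2 c
    exact ⟨(o, QuotientGroup.mk' P g), ephi_mk P o g⟩

theorem phi_push (P : Subgroup G) [P.Normal]
    (z : MulAction.orbitRel.Quotient G C × G →₀ ℤ) :
    toCover P C (z.mapDomain phi) = (push ℤ _ (QuotientGroup.mk' P) z).mapDomain (ephi P) := by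
  simp only [toCover, Finsupp.lmapDomain_apply, push]
  rw [← Finsupp.mapDomain_comp, ← Finsupp.mapDomain_comp]
  congr 1
  ext p
  exact (ephi_mk P p.1 p.2).symm

theorem phi_act (g : G) (z : MulAction.orbitRel.Quotient G C × G →₀ ℤ) :
    (act ℤ _ g z).mapDomain phi = (z.mapDomain phi).mapDomain (fun c : C => g • c) := by
  simp only [Finsupp.lmapDomain_apply, act]
  rw [← Finsupp.mapDomain_comp, ← Finsupp.mapDomain_comp]
  congr 1
  ext p
  simp [phi, mul_smul]

theorem cellL_id (g : G) {κ : Type*} (a : κ × G →₀ ℤ) :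
    cellL ℤ (MonoidHom.id G) g a = act ℤ κ g a := by
  induction a using Finsupp.induction_linear with
  | zero => simp
  | add f g hf hg => simp only [map_add, hf, hg]
  | single x n => rw [cellL_single, act_single]; simp

/-- the trivialised boundary -/
noncomputable def trivBd (bd : (C →₀ ℤ) →ₗ[ℤ] (C' →₀ ℤ))
    (hfree' : ∀ (g : G) (c : C'), g • c = c → g = 1)
    (o : MulAction.orbitRel.Quotient G C) : MulAction.orbitRel.Quotient G C' × G →₀ ℤ :=
  (bd (Finsupp.single (repr o) 1)).mapDomain (Equiv.ofBijective _ (phi_bij hfree')).symm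

theorem trivBd_spec (bd : (C →₀ ℤ) →ₗ[ℤ] (C' →₀ ℤ))
    (hfree' : ∀ (g : G) (c : C'), g • c = c → g = 1)
    (o : MulAction.orbitRel.Quotient G C) :
    (trivBd bd hfree' o).mapDomain phi = bd (Finsupp.single (repr o) 1) := by
  rw [trivBd, ← Finsupp.mapDomain_comp]
  have : (phi ∘ (Equiv.ofBijective _ (phi_bij hfree')).symm) = id := by
    ext c
    exact (Equiv.ofBijective _ (phi_bij hfree')).apply_symm_apply c
  rw [this, Finsupp.mapDomain_id]

theorem D_trivBd (bd : (C →₀ ℤ) →ₗ[ℤ] (C' →₀ ℤ))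
    (hfree' : ∀ (g : G) (c : C'), g • c = c → g = 1)
    (heq : ∀ (g : G) (z : C →₀ ℤ),
      bd (z.mapDomain (fun c => g • c)) = (bd z).mapDomain (fun c => g • c))
    (z : MulAction.orbitRel.Quotient G C × G →₀ ℤ) :
    (D ℤ (trivBd bd hfree') (MonoidHom.id G) z).mapDomain phi = bd (z.mapDomain phi) := by
  induction z using Finsupp.induction_linear with
  | zero => simp
  | add f g hf hg => simp only [map_add, Finsupp.mapDomain_add, hf, hg]
  | single p n =>
    rw [D_single, cellL_id, Finsupp.mapDomain_smul, phi_act, trivBd_spec, ← heq,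
      Finsupp.mapDomain_single, Finsupp.mapDomain_single, ← map_smul]
    congr 1
    simp [phi]

theorem coverBd_trivBd (bd : (C →₀ ℤ) →ₗ[ℤ] (C' →₀ ℤ))
    (hfree' : ∀ (g : G) (c : C'), g • c = c → g = 1)
    (heq : ∀ (g : G) (z : C →₀ ℤ),
      bd (z.mapDomain (fun c => g • c)) = (bd z).mapDomain (fun c => g • c))
    (P : Subgroup G) [P.Normal] (w : MulAction.orbitRel.Quotient G C × (G ⧸ P) →₀ ℤ) :
    coverBd P bd (w.mapDomain (ephi P)) =
      (D ℤ (trivBd bd hfree') (QuotientGroup.mk' P) w).mapDomain (ephi P) := by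
  obtain ⟨z, rfl⟩ := push_surj ℤ P w
  rw [← phi_push, coverBd_toCover P bd heq, ← D_trivBd bd hfree' heq, phi_push, push_D_mk]

theorem mapDomain_zero_iff {α β : Type*} {f : α → β} (hf : Function.Injective f) (z : α →₀ ℤ) :
    z.mapDomain f = 0 ↔ z = 0 := by
  constructor
  · intro h
    exact Finsupp.mapDomain_injective hf (by rw [h, Finsupp.mapDomain_zero])
  · rintro rfl; exact Finsupp.mapDomain_zero

theorem mem_ra_iff {bd₂ : (C₂ →₀ ℤ) →ₗ[ℤ] (C₁ →₀ ℤ)} {bd₁ : (C₁ →₀ ℤ) →ₗ[ℤ] (C₀ →₀ ℤ)}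
    (h : CellularUniversalCover G bd₂ bd₁) (P : Subgroup G) :
    P ∈ ra bd₂ bd₁ ↔ AcycP (trivBd bd₂ h.free₁) (trivBd bd₁ h.free₀) P := by
  constructor
  · rintro ⟨hn, hk, hr⟩
    refine ⟨hn, ?_, ?_⟩
    · rw [injective_iff_map_eq_zero]
      intro z hz
      have h1 : coverBd P bd₂ (z.mapDomain (ephi P)) = 0 := by
        rw [coverBd_trivBd bd₂ h.free₁ h.equivariant₂, hz, Finsupp.mapDomain_zero]
      have h2 : z.mapDomain (ephi P) ∈ LinearMap.ker (coverBd P bd₂) := h1
      rw [hk, Submodule.mem_bot] at h2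
      exact (mapDomain_zero_iff (ephi_bij h.free₂ P).1 z).1 h2
    · intro y hy
      have h1 : coverBd P bd₁ (y.mapDomain (ephi P)) = 0 := by
        rw [coverBd_trivBd bd₁ h.free₀ h.equivariant₁, hy, Finsupp.mapDomain_zero]
      have h2 : y.mapDomain (ephi P) ∈ LinearMap.ker (coverBd P bd₁) := h1
      rw [hr] at h2
      obtain ⟨w, hw⟩ := h2
      obtain ⟨w, rfl⟩ := Finsupp.mapDomain_surjective (ephi_bij h.free₂ P).2 w
      rw [coverBd_trivBd bd₂ h.free₁ h.equivariant₂] at hw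
      exact ⟨w, Finsupp.mapDomain_injective (ephi_bij h.free₁ P).1 hw⟩
  · rintro ⟨hn, hinj, hex⟩
    refine ⟨hn, ?_, ?_⟩
    · rw [LinearMap.ker_eq_bot']
      intro z hz
      obtain ⟨z, rfl⟩ := Finsupp.mapDomain_surjective (ephi_bij h.free₂ P).2 z
      rw [coverBd_trivBd bd₂ h.free₁ h.equivariant₂,
        mapDomain_zero_iff (ephi_bij h.free₁ P).1] at hz
      rw [injective_iff_map_eq_zero] at hinj
      rw [hinj _ hz, Finsupp.mapDomain_zero]
    · apply le_antisymm
      · intro y hy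
        obtain ⟨y, rfl⟩ := Finsupp.mapDomain_surjective (ephi_bij h.free₁ P).2 y
        rw [LinearMap.mem_ker, coverBd_trivBd bd₁ h.free₀ h.equivariant₁,
          mapDomain_zero_iff (ephi_bij h.free₀ P).1] at hy
        obtain ⟨w, hw⟩ := hex y hy
        refine ⟨w.mapDomain (ephi P), ?_⟩
        rw [coverBd_trivBd bd₂ h.free₁ h.equivariant₂, hw]
      · rintro _ ⟨w, rfl⟩
        obtain ⟨z, rfl⟩ := toCover_surj P w
        rw [LinearMap.mem_ker, coverBd_toCover P bd₂ h.equivariant₂,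
          coverBd_toCover P bd₁ h.equivariant₁, h.bd₁_bd₂, map_zero]

theorem sum_mapDomain {α β : Type*} (f : α → β) (z : α →₀ ℤ) :
    ((z.mapDomain f).sum fun _ n => n) = z.sum fun _ n => n :=
  Finsupp.sum_mapDomain_index (fun _ => rfl) (fun _ _ _ => rfl)

theorem eps_eq {α : Type*} (z : α →₀ ℤ) : eps α z = z.sum fun _ n => n := by
  simp only [eps, Finsupp.liftAddHom_apply]; rfl

theorem exact_of_cellular {bd₂ : (C₂ →₀ ℤ) →ₗ[ℤ] (C₁ →₀ ℤ)} {bd₁ : (C₁ →₀ ℤ) →ₗ[ℤ] (C₀ →₀ ℤ)}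
    (h : CellularUniversalCover G bd₂ bd₁) :
    Exact2 (trivBd bd₂ h.free₁) (trivBd bd₁ h.free₀) := by
  have i0 := (phi_bij h.free₀).1
  have i1 := (phi_bij h.free₁).1
  have s1 := (phi_bij h.free₁).2
  have s2 := (phi_bij h.free₂).2
  refine ⟨?_, ?_, ?_, ?_, ?_⟩
  · intro z
    rw [← mapDomain_zero_iff i0, D_trivBd bd₁ h.free₀ h.equivariant₁,
      D_trivBd bd₂ h.free₁ h.equivariant₂, h.bd₁_bd₂]
  · intro y hy
    rw [← mapDomain_zero_iff i0, D_trivBd bd₁ h.free₀ h.equivariant₁] at hy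
    obtain ⟨t, ht⟩ := h.simplyConnected _ hy
    obtain ⟨t, rfl⟩ := Finsupp.mapDomain_surjective s2 t
    refine ⟨t, Finsupp.mapDomain_injective i1 ?_⟩
    rw [D_trivBd bd₂ h.free₁ h.equivariant₂, ht]
  · intro y
    rw [eps_eq, ← sum_mapDomain phi, D_trivBd bd₁ h.free₀ h.equivariant₁]
    exact h.augmentation_bd₁ _
  · intro c hc
    rw [eps_eq, ← sum_mapDomain phi] at hc
    obtain ⟨t, ht⟩ := h.connected _ hc
    obtain ⟨t, rfl⟩ := Finsupp.mapDomain_surjective s1 t
    refine ⟨t, Finsupp.mapDomain_injective i0 ?_⟩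
    rw [D_trivBd bd₁ h.free₀ h.equivariant₁, ht]
  · obtain ⟨c⟩ := h.nonempty
    exact ⟨Quotient.mk _ c⟩

theorem cellular_main {bd₂ : (C₂ →₀ ℤ) →ₗ[ℤ] (C₁ →₀ ℤ)} {bd₁ : (C₁ →₀ ℤ) →ₗ[ℤ] (C₀ →₀ ℤ)}
    (h : CellularUniversalCover G bd₂ bd₁) (P₀ : Subgroup G) (hP₀ : P₀ ∈ ra bd₂ bd₁) :
    ∃ M ≤ P₀, Minimal (fun P : Subgroup G => P ∈ ra bd₂ bd₁) M := by
  obtain ⟨M, hM, hMa, hmin⟩ := exists_minimal (exact_of_cellular h) P₀ ((mem_ra_iff h P₀).1 hP₀)
  refine ⟨M, hM, (mem_ra_iff h M).2 hMa, ?_⟩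
  intro R hR hRM
  exact (hmin R ((mem_ra_iff h R).1 hR) hRM).ge

end Cellular
end H667RA
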