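import Mathlib

/-!
Presentation 2-complexes, their regular coverings and the poset `ra`.
-/

namespace H667RA

universe u v

section PresDefs

variable {S : Type u} {ι : Type v}

/-- The fundamental group of the presentation complex `X` with one 0-cell, one 1-cell for each
`s : S`, and one 2-cell for each `i : ι`, attached along the word `r i`. -/
abbrev Pi1 (r : ι → List (S × Bool)) : Type u :=
  PresentedGroup (Set.range fun i => FreeGroup.mk (r i))

/-- A graph with vertex set a group `Q` and an edge `(s, x)` from `x` to `x * q s` for every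
`s : S` and `x : Q`: the cellular 1-chain of the edge path that starts at the vertex `x` and is
spelled by a word. -/
noncomputable def pathChain {Q : Type*} [Group Q] (q : S → Q) :
    List (S × Bool) → Q → (S × Q →₀ ℤ)
  | [], _ => 0
  | (s, true) :: w, x => Finsupp.single (s, x) 1 + pathChain q w (x * q s)
  | (s, false) :: w, x => - Finsupp.single (s, x * (q s)⁻¹) 1 + pathChain q w (x * (q s)⁻¹)

/-- Cellular boundary map from 2-chains to 1-chains: the 2-cell `(i, x)` is attached along the
edge path that starts at `x` and is spelled by `r i`. -/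
noncomputable def presBd₂ (r : ι → List (S × Bool)) {Q : Type*} [Group Q] (q : S → Q) :
    (ι × Q →₀ ℤ) →ₗ[ℤ] (S × Q →₀ ℤ) :=
  Finsupp.linearCombination ℤ fun c => pathChain q (r c.1) c.2

/-- Cellular boundary map from 1-chains to 0-chains. -/
noncomputable def presBd₁ {Q : Type*} [Group Q] (q : S → Q) :
    (S × Q →₀ ℤ) →ₗ[ℤ] (Q →₀ ℤ) :=
  Finsupp.linearCombination ℤ fun e => Finsupp.single (e.2 * q e.1) 1 - Finsupp.single e.2 1

/-- The set `ra(X)`: normal subgroups `P` of `π₁ X` with `H₂(X_P) = 0` and `H₁(X_P) = 0`. -/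
def raPres (r : ι → List (S × Bool)) : Set (Subgroup (Pi1 r)) :=
  {P | ∃ _ : P.Normal,
    LinearMap.ker (presBd₂ r (fun s => ((PresentedGroup.of s : Pi1 r) : Pi1 r ⧸ P))) = ⊥ ∧
    LinearMap.ker (presBd₁ (fun s => ((PresentedGroup.of s : Pi1 r) : Pi1 r ⧸ P))) =
      LinearMap.range (presBd₂ r (fun s => ((PresentedGroup.of s : Pi1 r) : Pi1 r ⧸ P)))}

end PresDefs
end H667RA
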