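import Pool.Agent.Helper667.RA
import Pool.Agent.Helper667.RAPresDefs

namespace H667RA
open Finsupp

universe u v w

section Pres

variable {S : Type u} {ι : Type v}

/-- value of a word -/
def wval {Q : Type*} [Group Q] (q : S → Q) (w : List (S × Bool)) : Q :=
  (w.map fun x => cond x.2 (q x.1) (q x.1)⁻¹).prod

theorem cellL_pathChain {G Q : Type*} [Group G] [Group Q] (φ : G →* Q) (q : S → G)
    (w : List (S × Bool)) (x : Q) (g : G) :
    cellL ℤ φ x (pathChain q w g) = pathChain (fun s => φ (q s)) w (x * φ g) := by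
  induction w generalizing g with
  | nil => simp [pathChain]
  | cons a w ih =>
    obtain ⟨s, b⟩ := a
    cases b with
    | true =>
      simp only [pathChain, map_add, cellL_single, ih, map_mul, mul_assoc, Int.cast_one]
    | false =>
      simp only [pathChain, map_add, map_neg, cellL_single, ih, map_mul, map_inv, mul_assoc,
        Int.cast_one]

noncomputable def pd2 (r : ι → List (S × Bool)) : ι → (S × Pi1 r →₀ ℤ) :=
  fun i => pathChain (PresentedGroup.of (rels := Set.range fun i => FreeGroup.mk (r i))) (r i) 1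

noncomputable def pd1 (r : ι → List (S × Bool)) : S → (Unit × Pi1 r →₀ ℤ) :=
  fun s => Finsupp.single ((), (PresentedGroup.of s : Pi1 r)) 1 - Finsupp.single ((), 1) 1

theorem wval_of (r : ι → List (S × Bool)) (w : List (S × Bool)) :
    wval (fun s => (PresentedGroup.of s : Pi1 r)) w =
      PresentedGroup.mk (Set.range fun i => FreeGroup.mk (r i)) (FreeGroup.mk w) := by
  induction w with
  | nil => simp [wval, ← FreeGroup.one_eq_mk]
  | cons a w ih =>
    obtain ⟨s, b⟩ := a
    have h1 : FreeGroup.mk ((s, b) :: w) = FreeGroup.mk [(s, b)] * FreeGroup.mk w := by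
      rw [FreeGroup.mul_mk]; rfl
    rw [h1, map_mul, ← ih]
    simp only [wval, List.map_cons, List.prod_cons]
    congr 1
    cases b with
    | true => rfl
    | false =>
      have : (FreeGroup.mk [(s, false)]) = (FreeGroup.of s)⁻¹ := rfl
      rw [this, map_inv]; rfl

theorem exists_word (r : ι → List (S × Bool)) (g : Pi1 r) :
    ∃ w, wval (fun s => (PresentedGroup.of s : Pi1 r)) w = g := by
  obtain ⟨x, rfl⟩ := PresentedGroup.mk_surjective _ g
  obtain ⟨w, rfl⟩ := Quot.exists_rep x
  exact ⟨w, wval_of r w⟩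

theorem wval_rel (r : ι → List (S × Bool)) (i : ι) :
    wval (fun s => (PresentedGroup.of s : Pi1 r)) (r i) = 1 := by
  rw [wval_of]
  exact PresentedGroup.one_of_mem ⟨i, rfl⟩

theorem D_pd1_single (r : ι → List (S × Bool)) (s : S) (g : Pi1 r) (n : ℤ) :
    D ℤ (pd1 r) (MonoidHom.id _) (Finsupp.single (s, g) n) =
      n • (Finsupp.single ((), g * PresentedGroup.of s) 1 - Finsupp.single ((), g) 1) := by
  rw [D_single]
  congr 1
  simp [pd1, cellL_single]

theorem D_pathChain (r : ι → List (S × Bool)) (w : List (S × Bool)) (g : Pi1 r) :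
    D ℤ (pd1 r) (MonoidHom.id _) (pathChain (fun s => (PresentedGroup.of s : Pi1 r)) w g) =
      Finsupp.single ((), g * wval (fun s => (PresentedGroup.of s : Pi1 r)) w) 1 -
        Finsupp.single ((), g) 1 := by
  induction w generalizing g with
  | nil => simp [pathChain, wval]
  | cons a w ih =>
    obtain ⟨s, b⟩ := a
    cases b with
    | true =>
      simp only [pathChain, map_add, D_pd1_single, ih, wval, List.map_cons, List.prod_cons,
        cond_true, mul_assoc, one_smul]
      abel
    | false =>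
      simp only [pathChain, map_add, map_neg, D_pd1_single, ih, wval, List.map_cons,
        List.prod_cons, cond_false, mul_assoc, one_smul, inv_mul_cancel, mul_one]
      abel

theorem D_pd2_single (r : ι → List (S × Bool)) (i : ι) (g : Pi1 r) (n : ℤ) :
    D ℤ (pd2 r) (MonoidHom.id _) (Finsupp.single (i, g) n) =
      n • pathChain (fun s => (PresentedGroup.of s : Pi1 r)) (r i) g := by
  rw [D_single]
  congr 1
  simp only [pd2]
  rw [cellL_pathChain]
  simp

theorem pres_ex1 (r : ι → List (S × Bool)) (y : S × Pi1 r →₀ ℤ)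
    (hy : D ℤ (pd1 r) (MonoidHom.id _) y = 0) : ∃ t, D ℤ (pd2 r) (MonoidHom.id _) t = y := by
  let M := (S × Pi1 r →₀ ℤ) ⧸ LinearMap.range (D ℤ (pd2 r) (MonoidHom.id _))
  let mk : (S × Pi1 r →₀ ℤ) →ₗ[ℤ] M := Submodule.mkQ _
  let step : S → Equiv.Perm (M × Pi1 r) := fun s =>
    { toFun := fun p => (p.1 + mk (Finsupp.single (s, p.2) 1), p.2 * PresentedGroup.of s)
      invFun := fun p => (p.1 - mk (Finsupp.single (s, p.2 * (PresentedGroup.of s)⁻¹) 1),
        p.2 * (PresentedGroup.of s)⁻¹)
      left_inv := by intro p; simp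
      right_inv := by intro p; simp }
  let Φ : FreeGroup S →* (Equiv.Perm (M × Pi1 r))ᵐᵒᵖ := FreeGroup.lift fun s => MulOpposite.op (step s)
  have hΦ : ∀ (w : List (S × Bool)) (p : M × Pi1 r), (MulOpposite.unop (Φ (FreeGroup.mk w))) p =
      (p.1 + mk (pathChain (fun s => (PresentedGroup.of s : Pi1 r)) w p.2),
        p.2 * wval (fun s => (PresentedGroup.of s : Pi1 r)) w) := by
    intro w
    induction w with
    | nil =>
      intro p
      rw [← FreeGroup.one_eq_mk, map_one]
      simp [pathChain, wval]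
    | cons a w ih =>
      intro p
      obtain ⟨s, b⟩ := a
      have h1 : FreeGroup.mk ((s, b) :: w) = FreeGroup.mk [(s, b)] * FreeGroup.mk w := by
        rw [FreeGroup.mul_mk]; rfl
      rw [h1, map_mul, MulOpposite.unop_mul, Equiv.Perm.mul_apply, ih]
      cases b with
      | true =>
        have h2 : Φ (FreeGroup.mk [(s, true)]) = MulOpposite.op (step s) := by
          have : FreeGroup.mk [(s, true)] = FreeGroup.of s := rfl
          rw [this]; simp [Φ]
        rw [h2]
        simp only [MulOpposite.unop_op, step, Equiv.coe_fn_mk, pathChain, map_add, wval,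
          List.map_cons, List.prod_cons, cond_true, mul_assoc, add_assoc]
      | false =>
        have h2 : Φ (FreeGroup.mk [(s, false)]) = (MulOpposite.op (step s))⁻¹ := by
          have : FreeGroup.mk [(s, false)] = (FreeGroup.of s)⁻¹ := rfl
          rw [this, map_inv]; simp [Φ]
        rw [h2]
        have h3 : MulOpposite.unop ((MulOpposite.op (step s))⁻¹) p =
          (p.1 - mk (Finsupp.single (s, p.2 * (PresentedGroup.of s)⁻¹) 1),
            p.2 * (PresentedGroup.of s)⁻¹) := rfl
        rw [h3]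
        simp only [pathChain, map_add, map_neg, wval,
          List.map_cons, List.prod_cons, cond_false, mul_assoc, sub_eq_add_neg, add_assoc]
  have hrel : ∀ x ∈ Set.range (fun i => FreeGroup.mk (r i)), Φ x = 1 := by
    rintro _ ⟨i, rfl⟩
    apply MulOpposite.unop_injective
    ext1 p
    rw [hΦ, wval_rel, mul_one]
    have : mk (pathChain (fun s => (PresentedGroup.of s : Pi1 r)) (r i) p.2) = 0 := by
      refine (Submodule.Quotient.mk_eq_zero _).2 ⟨Finsupp.single (i, p.2) 1, ?_⟩
      rw [D_pd2_single, one_smul]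
    rw [this, add_zero]; rfl
  let Ψ : Pi1 r →* (Equiv.Perm (M × Pi1 r))ᵐᵒᵖ := PresentedGroup.toGroup (f := fun s => MulOpposite.op (step s)) hrel
  have hΨ : ∀ x, Ψ (PresentedGroup.mk _ x) = Φ x := fun x => rfl
  let δ : Pi1 r → M := fun g => (MulOpposite.unop (Ψ g) (0, 1)).1
  have hδ2 : ∀ g, (MulOpposite.unop (Ψ g) (0, 1)).2 = g := by
    intro g
    obtain ⟨x, rfl⟩ := PresentedGroup.mk_surjective _ g
    obtain ⟨w, rfl⟩ := Quot.exists_rep x
    change (MulOpposite.unop (Φ (FreeGroup.mk w)) (0, 1)).2 = _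
    rw [hΦ, wval_of, one_mul]; rfl
  have hδs : ∀ g s, δ (g * PresentedGroup.of s) = δ g + mk (Finsupp.single (s, g) 1) := by
    intro g s
    have h1 : Ψ (PresentedGroup.of s) = MulOpposite.op (step s) := by
      have : Ψ (PresentedGroup.of s) = Φ (FreeGroup.of s) := rfl
      rw [this]; simp [Φ]
    have h2 : MulOpposite.unop (Ψ g) (0, 1) = (δ g, g) := Prod.ext rfl (hδ2 g)
    simp only [δ]
    rw [map_mul, MulOpposite.unop_mul, Equiv.Perm.mul_apply, h1, h2]
    rfl
  let Δ : (Unit × Pi1 r →₀ ℤ) →ₗ[ℤ] M := Finsupp.linearCombination ℤ fun p => δ p.2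
  have hΔ : ∀ z, Δ (D ℤ (pd1 r) (MonoidHom.id _) z) = mk z := by
    intro z
    induction z using Finsupp.induction_linear with
    | zero => simp
    | add f g hf hg => simp only [map_add, hf, hg]
    | single x n =>
      obtain ⟨s, g⟩ := x
      rw [D_pd1_single, map_smul, map_sub]
      simp only [Δ, Finsupp.linearCombination_single, one_smul, hδs, add_sub_cancel_left]
      rw [← map_smul]; simp
  have h0 : mk y = 0 := by rw [← hΔ, hy, map_zero]
  exact (Submodule.Quotient.mk_eq_zero _).1 h0

theorem pres_exact (r : ι → List (S × Bool)) : Exact2 (pd2 r) (pd1 r) := by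
  refine ⟨?_, pres_ex1 r, ?_, ?_, ⟨()⟩⟩
  · intro z
    induction z using Finsupp.induction_linear with
    | zero => simp
    | add f g hf hg => simp only [map_add, hf, hg, add_zero]
    | single x n =>
      obtain ⟨i, g⟩ := x
      rw [D_pd2_single, map_smul, D_pathChain, wval_rel, mul_one, sub_self, smul_zero]
  · intro z
    induction z using Finsupp.induction_linear with
    | zero => simp
    | add f g hf hg => simp only [map_add, hf, hg, add_zero]
    | single x n =>
      obtain ⟨s, g⟩ := x
      rw [D_pd1_single, map_zsmul, map_sub, eps_single, eps_single, sub_self, smul_zero]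
  · have key : ∀ c : Unit × Pi1 r →₀ ℤ, ∃ y, D ℤ (pd1 r) (MonoidHom.id _) y =
        c - eps _ c • Finsupp.single ((), 1) 1 := by
      intro c
      induction c using Finsupp.induction_linear with
      | zero => exact ⟨0, by simp⟩
      | add f g hf hg =>
        obtain ⟨y, hy⟩ := hf
        obtain ⟨y', hy'⟩ := hg
        refine ⟨y + y', ?_⟩
        rw [map_add, hy, hy', map_add, add_smul]; abel
      | single x n =>
        obtain ⟨⟨⟩, g⟩ := x
        obtain ⟨w, rfl⟩ := exists_word r g
        refine ⟨n • pathChain (fun s => (PresentedGroup.of s : Pi1 r)) w 1, ?_⟩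
        rw [map_smul, D_pathChain, one_mul, eps_single, smul_sub]
        simp
    intro c hc
    obtain ⟨y, hy⟩ := key c
    exact ⟨y, by rw [hy, hc, zero_smul, sub_zero]⟩

theorem presBd₂_eq (r : ι → List (S × Bool)) (P : Subgroup (Pi1 r)) [P.Normal] :
    presBd₂ r (fun s => ((PresentedGroup.of s : Pi1 r) : Pi1 r ⧸ P)) =
      D ℤ (pd2 r) (QuotientGroup.mk' P) := by
  rw [presBd₂, D]
  congr 1
  funext c
  rw [pd2, cellL_pathChain, map_one, mul_one]
  rfl

theorem presBd₁_eq (r : ι → List (S × Bool)) (P : Subgroup (Pi1 r)) [P.Normal]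
    (z : S × (Pi1 r ⧸ P) →₀ ℤ) :
    (presBd₁ (fun s => ((PresentedGroup.of s : Pi1 r) : Pi1 r ⧸ P)) z).mapDomain
      (fun x => ((), x)) = D ℤ (pd1 r) (QuotientGroup.mk' P) z := by
  induction z using Finsupp.induction_linear with
  | zero => simp
  | add f g hf hg => simp only [map_add, Finsupp.mapDomain_add, hf, hg]
  | single x n =>
    rw [D_single, presBd₁, Finsupp.linearCombination_single, Finsupp.mapDomain_smul]
    congr 1
    rw [← Finsupp.lmapDomain_apply ℤ ℤ, map_sub, Finsupp.lmapDomain_apply,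
      Finsupp.lmapDomain_apply, Finsupp.mapDomain_single, Finsupp.mapDomain_single, pd1, map_sub,
      cellL_single, cellL_single]
    simp

theorem mem_raPres_iff (r : ι → List (S × Bool)) (P : Subgroup (Pi1 r)) :
    P ∈ raPres r ↔ AcycP (pd2 r) (pd1 r) P := by
  have hz : ∀ (hn : P.Normal) (z : S × (Pi1 r ⧸ P) →₀ ℤ),
      presBd₁ (fun s => ((PresentedGroup.of s : Pi1 r) : Pi1 r ⧸ P)) z = 0 ↔
        D ℤ (pd1 r) (QuotientGroup.mk' P) z = 0 := by
    intro hn z
    rw [← presBd₁_eq r P z]
    constructor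
    · intro h; rw [h, Finsupp.mapDomain_zero]
    · intro h
      exact Finsupp.mapDomain_injective (f := fun x : Pi1 r ⧸ P => ((), x))
        (fun a b hab => by simpa using hab) (by rw [h, Finsupp.mapDomain_zero])
  constructor
  · rintro ⟨hn, hk, hr⟩
    refine ⟨hn, ?_, ?_⟩
    · rw [← presBd₂_eq r P]; exact LinearMap.ker_eq_bot.1 hk
    · intro y hy
      rw [← hz hn] at hy
      have : y ∈ LinearMap.ker (presBd₁ (fun s => ((PresentedGroup.of s : Pi1 r) : Pi1 r ⧸ P))) := hy
      rw [hr] at this
      obtain ⟨t, ht⟩ := this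
      exact ⟨t, by rw [← presBd₂_eq r P]; exact ht⟩
  · rintro ⟨hn, hinj, hex⟩
    refine ⟨hn, ?_, ?_⟩
    · rw [presBd₂_eq r P]; exact LinearMap.ker_eq_bot.2 hinj
    · apply le_antisymm
      · intro y hy
        have := hex y ((hz hn y).1 hy)
        rw [presBd₂_eq r P]
        exact this
      · rintro _ ⟨t, rfl⟩
        rw [LinearMap.mem_ker, hz hn, presBd₂_eq r P]
        exact ddP (pres_exact r) P t

theorem pres_main (r : ι → List (S × Bool)) (P₀ : Subgroup (Pi1 r)) (hP₀ : P₀ ∈ raPres r) :
    ∃ M ≤ P₀, Minimal (fun P : Subgroup (Pi1 r) => P ∈ raPres r) M := by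
  obtain ⟨M, hM, hMa, hmin⟩ := exists_minimal (pres_exact r) P₀ ((mem_raPres_iff r P₀).1 hP₀)
  refine ⟨M, hM, (mem_raPres_iff r M).2 hMa, ?_⟩
  intro R hR hRM
  exact (hmin R ((mem_raPres_iff r R).1 hR) hRM).ge

end Pres
end H667RA
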