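import Mathlib

set_option autoImplicit false
set_option linter.unusedSimpArgs false
set_option linter.unnecessarySeqFocus false

namespace Pool.Agent.Helper667.SLTwo

open Matrix

variable {A : Type*} [CommRing A]

/-- upper elementary matrix -/
def E12 (r : A) : SpecialLinearGroup (Fin 2) A := ⟨!![1, r; 0, 1], by simp [det_fin_two_of]⟩

/-- lower elementary matrix -/
def E21 (r : A) : SpecialLinearGroup (Fin 2) A := ⟨!![1, 0; r, 1], by simp [det_fin_two_of]⟩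

/-- diagonal matrix -/
def D (l l' : A) (h : l * l' = 1) : SpecialLinearGroup (Fin 2) A :=
  ⟨!![l, 0; 0, l'], by simp [det_fin_two_of, h]⟩

theorem sl_ext {g h : SpecialLinearGroup (Fin 2) A} (h00 : g 0 0 = h 0 0) (h01 : g 0 1 = h 0 1)
    (h10 : g 1 0 = h 1 0) (h11 : g 1 1 = h 1 1) : g = h := by
  ext i j
  fin_cases i <;> fin_cases j <;> assumption

@[simp] theorem E12_00 (r : A) : (E12 r) 0 0 = 1 := rfl
@[simp] theorem E12_01 (r : A) : (E12 r) 0 1 = r := rfl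
@[simp] theorem E12_10 (r : A) : (E12 r) 1 0 = 0 := rfl
@[simp] theorem E12_11 (r : A) : (E12 r) 1 1 = 1 := rfl
@[simp] theorem E21_00 (r : A) : (E21 r) 0 0 = 1 := rfl
@[simp] theorem E21_01 (r : A) : (E21 r) 0 1 = 0 := rfl
@[simp] theorem E21_10 (r : A) : (E21 r) 1 0 = r := rfl
@[simp] theorem E21_11 (r : A) : (E21 r) 1 1 = 1 := rfl
@[simp] theorem D_00 (l l' : A) (h : l * l' = 1) : (D l l' h) 0 0 = l := rfl
@[simp] theorem D_01 (l l' : A) (h : l * l' = 1) : (D l l' h) 0 1 = 0 := rfl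
@[simp] theorem D_10 (l l' : A) (h : l * l' = 1) : (D l l' h) 1 0 = 0 := rfl
@[simp] theorem D_11 (l l' : A) (h : l * l' = 1) : (D l l' h) 1 1 = l' := rfl

theorem mul_00 (g h : SpecialLinearGroup (Fin 2) A) :
    (g * h) 0 0 = g 0 0 * h 0 0 + g 0 1 * h 1 0 := by
  simp [Matrix.mul_apply, Fin.sum_univ_two]
theorem mul_01 (g h : SpecialLinearGroup (Fin 2) A) :
    (g * h) 0 1 = g 0 0 * h 0 1 + g 0 1 * h 1 1 := by
  simp [Matrix.mul_apply, Fin.sum_univ_two]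
theorem mul_10 (g h : SpecialLinearGroup (Fin 2) A) :
    (g * h) 1 0 = g 1 0 * h 0 0 + g 1 1 * h 1 0 := by
  simp [Matrix.mul_apply, Fin.sum_univ_two]
theorem mul_11 (g h : SpecialLinearGroup (Fin 2) A) :
    (g * h) 1 1 = g 1 0 * h 0 1 + g 1 1 * h 1 1 := by
  simp [Matrix.mul_apply, Fin.sum_univ_two]

theorem inv_00 (g : SpecialLinearGroup (Fin 2) A) : (g⁻¹) 0 0 = g 1 1 := by
  rw [SpecialLinearGroup.SL2_inv_expl]; rfl
theorem inv_01 (g : SpecialLinearGroup (Fin 2) A) : (g⁻¹) 0 1 = -g 0 1 := by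
  rw [SpecialLinearGroup.SL2_inv_expl]; rfl
theorem inv_10 (g : SpecialLinearGroup (Fin 2) A) : (g⁻¹) 1 0 = -g 1 0 := by
  rw [SpecialLinearGroup.SL2_inv_expl]; rfl
theorem inv_11 (g : SpecialLinearGroup (Fin 2) A) : (g⁻¹) 1 1 = g 0 0 := by
  rw [SpecialLinearGroup.SL2_inv_expl]; rfl

theorem det_eq (g : SpecialLinearGroup (Fin 2) A) :
    g 0 0 * g 1 1 - g 0 1 * g 1 0 = 1 := by
  have := g.det_coe
  rwa [det_fin_two] at this

theorem E12_add (r s : A) : E12 (r + s) = E12 r * E12 s := by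
  refine sl_ext ?_ ?_ ?_ ?_ <;> simp only [mul_00, mul_01, mul_10, mul_11, E12_00, E12_01,
    E12_10, E12_11] <;> ring

theorem E12_zero : E12 (0 : A) = 1 := by
  refine sl_ext ?_ ?_ ?_ ?_ <;> simp

theorem E12_neg (r : A) : E12 (-r) = (E12 r)⁻¹ := by
  refine sl_ext ?_ ?_ ?_ ?_ <;> simp only [inv_00, inv_01, inv_10, inv_11, E12_00, E12_01,
    E12_10, E12_11] <;> ring

theorem E21_neg (r : A) : E21 (-r) = (E21 r)⁻¹ := by
  refine sl_ext ?_ ?_ ?_ ?_ <;> simp only [inv_00, inv_01, inv_10, inv_11, E21_00, E21_01,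
    E21_10, E21_11] <;> ring

theorem D_eq (l l' : A) (h : l * l' = 1) :
    D l l' h = E12 l * E21 (-l') * E12 l * E12 (-1) * E21 1 * E12 (-1) := by
  refine sl_ext ?_ ?_ ?_ ?_ <;> simp only [mul_00, mul_01, mul_10, mul_11, E12_00, E12_01,
    E12_10, E12_11, E21_00, E21_01, E21_10, E21_11, D_00, D_01, D_10, D_11]
  · linear_combination l * h
  · linear_combination (-1) * h
  · linear_combination h
  · ring

theorem conj_D (l l' : A) (h : l * l' = 1) (r : A) :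
    D l l' h * E12 r * (D l l' h)⁻¹ = E12 (l ^ 2 * r) := by
  refine sl_ext ?_ ?_ ?_ ?_ <;> simp only [mul_00, mul_01, mul_10, mul_11, inv_00, inv_01,
    inv_10, inv_11, E12_00, E12_01,
    E12_10, E12_11, E21_00, E21_01, E21_10, E21_11, D_00, D_01, D_10, D_11]
  · linear_combination h
  · ring
  · ring
  · linear_combination h

/-- the Weyl element -/
def Wy : SpecialLinearGroup (Fin 2) A := E12 1 * E21 (-1) * E12 1

theorem Wy_00 : (Wy : SpecialLinearGroup (Fin 2) A) 0 0 = 0 := by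
  simp [Wy, mul_00, mul_01, mul_10, mul_11, -SpecialLinearGroup.coe_mul]
theorem Wy_01 : (Wy : SpecialLinearGroup (Fin 2) A) 0 1 = 1 := by
  simp [Wy, mul_00, mul_01, mul_10, mul_11, -SpecialLinearGroup.coe_mul]
theorem Wy_10 : (Wy : SpecialLinearGroup (Fin 2) A) 1 0 = -1 := by
  simp [Wy, mul_00, mul_01, mul_10, mul_11, -SpecialLinearGroup.coe_mul]
theorem Wy_11 : (Wy : SpecialLinearGroup (Fin 2) A) 1 1 = 0 := by
  simp [Wy, mul_00, mul_01, mul_10, mul_11, -SpecialLinearGroup.coe_mul]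

theorem conj_Wy (r : A) : Wy * E12 r * Wy⁻¹ = E21 (-r) := by
  refine sl_ext ?_ ?_ ?_ ?_ <;> simp only [mul_00, mul_01, mul_10, mul_11, inv_00, inv_01,
    inv_10, inv_11, E12_00, E12_01, Wy_00, Wy_01, Wy_10, Wy_11,
    E12_10, E12_11, E21_00, E21_01, E21_10, E21_11] <;> ring

theorem comm_00 (x : A) (g : SpecialLinearGroup (Fin 2) A) :
    (E12 x * g * (E12 x)⁻¹ * g⁻¹) 0 0 = 1 + g 0 0 * g 1 0 * x + g 1 0 ^ 2 * x ^ 2 := by
  simp only [mul_00, mul_01, mul_10, mul_11, inv_00, inv_01,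
    inv_10, inv_11, E12_00, E12_01, E12_10, E12_11]
  linear_combination det_eq g
theorem comm_01 (x : A) (g : SpecialLinearGroup (Fin 2) A) :
    (E12 x * g * (E12 x)⁻¹ * g⁻¹) 0 1 = x - g 0 0 ^ 2 * x - g 0 0 * g 1 0 * x ^ 2 := by
  simp only [mul_00, mul_01, mul_10, mul_11, inv_00, inv_01,
    inv_10, inv_11, E12_00, E12_01, E12_10, E12_11]
  linear_combination x * det_eq g
theorem comm_10 (x : A) (g : SpecialLinearGroup (Fin 2) A) :
    (E12 x * g * (E12 x)⁻¹ * g⁻¹) 1 0 = g 1 0 ^ 2 * x := by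
  simp only [mul_00, mul_01, mul_10, mul_11, inv_00, inv_01,
    inv_10, inv_11, E12_00, E12_01, E12_10, E12_11]
  ring
theorem comm_11 (x : A) (g : SpecialLinearGroup (Fin 2) A) :
    (E12 x * g * (E12 x)⁻¹ * g⁻¹) 1 1 = 1 - g 0 0 * g 1 0 * x := by
  simp only [mul_00, mul_01, mul_10, mul_11, inv_00, inv_01,
    inv_10, inv_11, E12_00, E12_01, E12_10, E12_11]
  linear_combination det_eq g

/-- extraction of an elementary matrix -/
theorem extract (G H : Subgroup (SpecialLinearGroup (Fin 2) A))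
    (hn : ∀ g ∈ G, ∀ h ∈ H, g * h * g⁻¹ ∈ H) (g : SpecialLinearGroup (Fin 2) A) (hg : g ∈ H)
    (κ' : A) (hκ : κ' * (1 + (g 1 0) ^ 2) = 1) (h1 : E12 1 ∈ G) (h2 : E12 (κ' ^ 2) ∈ G)
    (h3 : E12 (g 0 0 * (2 * g 1 0 + (g 1 0) ^ 3)) ∈ G) (h4 : D κ' _ hκ ∈ G) :
    E12 (1 - κ' ^ 4) ∈ H := by
  set c := g 1 0 with hc
  set a := g 0 0 with ha
  set μ := 2 * c + c ^ 3 with hμ
  set g' := E12 (a * μ) * g * (E12 (a * μ))⁻¹ with hg'
  have hg'H : g' ∈ H := hn _ h3 _ hg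
  have hg'00 : g' 0 0 = a * (1 + c ^ 2) ^ 2 := by
    simp only [hg', mul_00, mul_01, mul_10, mul_11, inv_00, inv_01,
      inv_10, inv_11, E12_00, E12_01, E12_10, E12_11, ← hc, ← ha]
    rw [hμ]; ring
  have hg'10 : g' 1 0 = c := by
    simp only [hg', mul_00, mul_01, mul_10, mul_11, inv_00, inv_01,
      inv_10, inv_11, E12_00, E12_01, E12_10, E12_11, ← hc, ← ha]
    ring
  have k1 : E12 1 * g * (E12 1)⁻¹ * g⁻¹ ∈ H := H.mul_mem (hn _ h1 _ hg) (H.inv_mem hg)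
  have k2 : E12 (κ' ^ 2) * g' * (E12 (κ' ^ 2))⁻¹ * g'⁻¹ ∈ H :=
    H.mul_mem (hn _ h2 _ hg'H) (H.inv_mem hg'H)
  have k3 := hn _ h4 _ k2
  have e : E12 1 * g * (E12 1)⁻¹ * g⁻¹ = E12 (1 - κ' ^ 4) *
      (D κ' _ hκ * (E12 (κ' ^ 2) * g' * (E12 (κ' ^ 2))⁻¹ * g'⁻¹) * (D κ' _ hκ)⁻¹) := by
    have hκ2 : κ' ^ 2 * (1 + c ^ 2) ^ 2 = 1 := by
      rw [← mul_pow, hκ, one_pow]
    refine sl_ext ?_ ?_ ?_ ?_
    · rw [comm_00, mul_00, mul_00 _ (D κ' _ hκ)⁻¹, mul_10 _ (D κ' _ hκ)⁻¹, mul_00 (D κ' _ hκ),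
        mul_01 (D κ' _ hκ), mul_10 (D κ' _ hκ), mul_11 (D κ' _ hκ), comm_00, comm_01, comm_10,
        comm_11, hg'00, hg'10]
      simp only [inv_00, inv_01, inv_10, inv_11, E12_00, E12_01, E12_10, E12_11, D_00, D_01,
        D_10, D_11, ← hc, ← ha]
      have e1 : a * (1 + c ^ 2) ^ 2 * c * κ' ^ 2 = a * c := by
        linear_combination a * c * hκ2
      have e2 : (1 + c ^ 2) * (c ^ 2 * κ' ^ 2) * (1 + c ^ 2) = c ^ 2 := by
        linear_combination c ^ 2 * hκ2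
      rw [e1]
      linear_combination (-(1 - κ' ^ 4)) * e2 - (1 + a * c + c ^ 2 * (κ' ^ 2) ^ 2) * hκ
    · rw [comm_01, mul_01, mul_01 _ (D κ' _ hκ)⁻¹, mul_11 _ (D κ' _ hκ)⁻¹, mul_00 (D κ' _ hκ),
        mul_01 (D κ' _ hκ), mul_10 (D κ' _ hκ), mul_11 (D κ' _ hκ), comm_00, comm_01, comm_10,
        comm_11, hg'00, hg'10]
      simp only [inv_00, inv_01, inv_10, inv_11, E12_00, E12_01, E12_10, E12_11, D_00, D_01,
        D_10, D_11, ← hc, ← ha]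
      have e1 : a * (1 + c ^ 2) ^ 2 * c * κ' ^ 2 = a * c := by
        linear_combination a * c * hκ2
      have e3 : κ' * (κ' ^ 2 - (a * (1 + c ^ 2) ^ 2) ^ 2 * κ' ^ 2 -
        a * (1 + c ^ 2) ^ 2 * c * (κ' ^ 2) ^ 2) * κ' = κ' ^ 4 - a ^ 2 - a * c * κ' ^ 4 := by
        linear_combination (-a ^ 2 * (κ' ^ 2 * (1 + c ^ 2) ^ 2 + 1) - a * c * κ' ^ 4) * hκ2
      rw [e1]
      linear_combination (-1) * e3 + (-(1 - κ' ^ 4) * (1 - a * c)) * hκ
    · rw [comm_10, mul_10, mul_00 _ (D κ' _ hκ)⁻¹, mul_10 _ (D κ' _ hκ)⁻¹, mul_00 (D κ' _ hκ),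
        mul_01 (D κ' _ hκ), mul_10 (D κ' _ hκ), mul_11 (D κ' _ hκ), comm_00, comm_01, comm_10,
        comm_11, hg'00, hg'10]
      simp only [inv_00, inv_01, inv_10, inv_11, E12_00, E12_01, E12_10, E12_11, D_00, D_01,
        D_10, D_11, ← hc, ← ha]
      linear_combination (-c ^ 2) * hκ2
    · rw [comm_11, mul_11, mul_01 _ (D κ' _ hκ)⁻¹, mul_11 _ (D κ' _ hκ)⁻¹, mul_00 (D κ' _ hκ),
        mul_01 (D κ' _ hκ), mul_10 (D κ' _ hκ), mul_11 (D κ' _ hκ), comm_00, comm_01, comm_10,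
        comm_11, hg'00, hg'10]
      simp only [inv_00, inv_01, inv_10, inv_11, E12_00, E12_01, E12_10, E12_11, D_00, D_01,
        D_10, D_11, ← hc, ← ha]
      have e1 : a * (1 + c ^ 2) ^ 2 * c * κ' ^ 2 = a * c := by
        linear_combination a * c * hκ2
      rw [e1]
      linear_combination (-(1 - a * c)) * hκ
  have e' : E12 (1 - κ' ^ 4) = (E12 1 * g * (E12 1)⁻¹ * g⁻¹) *
      (D κ' _ hκ * (E12 (κ' ^ 2) * g' * (E12 (κ' ^ 2))⁻¹ * g'⁻¹) * (D κ' _ hκ)⁻¹)⁻¹ := by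
    rw [e, mul_inv_cancel_right]
  rw [e']
  exact H.mul_mem k1 (H.inv_mem k3)

end Pool.Agent.Helper667.SLTwo
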