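import Pool.Agent.Helper667.ElemGroup
import Pool.Agent.Helper667.NoRetract

set_option autoImplicit false
set_option linter.unusedSimpArgs false

namespace Pool.Agent.Helper667.Sphere

open Matrix Metric Pool.Agent.Helper667.SLTwo Pool.Agent.Helper667.ElemGroup

noncomputable section

/-- six dimensional space -/
abbrev E6 := EuclideanSpace ℝ (Fin 6)
/-- the unit sphere -/
abbrev S5 := {x : E6 // ‖x‖ = 1}
abbrev Ah := E6 → ℝ
abbrev As := S5 → ℝ

/-- restriction of functions to the sphere -/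
def rho : Ah →+* As where
  toFun f s := f s.1
  map_one' := rfl
  map_zero' := rfl
  map_add' _ _ := rfl
  map_mul' _ _ := rfl

@[simp] theorem rho_apply (f : Ah) (s : S5) : rho f s = f s.1 := rfl

/-- coordinate functions in two blocks of three -/
def co (s : Fin 2) (j : Fin 3) : Ah := fun x => x (![![0, 1, 2], ![3, 4, 5]] s j)

def e00 (s : Fin 2) : Ah := fun x => (2 + co s 0 x) / 2
def e01 (s : Fin 2) : Ah := fun x => e00 s x * co s 1 x
def e10 (s : Fin 2) : Ah := fun x => co s 2 x * e00 s x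
def e11 (s : Fin 2) : Ah := fun x => co s 2 x * e00 s x * co s 1 x + (e00 s x)⁻¹

def qq (s : Fin 2) (j : Fin 3) : Ah :=
  ![e10 s, fun x => -e01 s x, fun x => e10 s x + e00 s x - e11 s x - e01 s x] j

def kap (s : Fin 2) (j : Fin 3) : Ah := fun x => 1 + qq s j x ^ 2
def ff (s : Fin 2) (j : Fin 3) : Ah := fun x => 1 - ((kap s j x)⁻¹) ^ 4
def sig : Ah := fun x => (∑ s, ∑ j, ff s j x) + (1 - ‖x‖ ^ 2) ^ 2

/-- index type for the units -/
abbrev Idx := Fin 2 ⊕ ((Fin 6 ⊕ Fin 6) ⊕ ((Fin 2 × Fin 3) ⊕ Unit))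

/-- the list of units -/
def lam : Idx → Ah
  | Sum.inl i => fun _ => (i : ℝ) + 2
  | Sum.inr (Sum.inl (Sum.inl i)) => fun x => 2 + x i
  | Sum.inr (Sum.inl (Sum.inr i)) => fun x => 3 + x i
  | Sum.inr (Sum.inr (Sum.inl p)) => kap p.1 p.2
  | Sum.inr (Sum.inr (Sum.inr _)) => sig

theorem coord_le {x : E6} (hx : x ∈ closedBall (0 : E6) 1) (i : Fin 6) : |x i| ≤ 1 := by
  rw [mem_closedBall_zero_iff] at hx
  exact (PiLp.norm_apply_le x i).trans hx

theorem co_le {x : E6} (hx : x ∈ closedBall (0 : E6) 1) (s : Fin 2) (j : Fin 3) :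
    |co s j x| ≤ 1 := coord_le hx _

theorem co_le' {x : E6} (hx : x ∈ closedBall (0 : E6) 1) (s : Fin 2) (j : Fin 3) :
    -1 ≤ co s j x ∧ co s j x ≤ 1 := abs_le.mp (co_le hx s j)

theorem e00_pos {x : E6} (hx : x ∈ closedBall (0 : E6) 1) (s : Fin 2) : 0 < e00 s x := by
  have := co_le' hx s 0
  unfold e00
  linarith [this.1]

theorem kap_ge (s : Fin 2) (j : Fin 3) (x : E6) : 1 ≤ kap s j x := by
  unfold kap; nlinarith [sq_nonneg (qq s j x)]

theorem ff_nonneg (s : Fin 2) (j : Fin 3) (x : E6) : 0 ≤ ff s j x := by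
  unfold ff
  have h1 := kap_ge s j x
  have h2 : (kap s j x)⁻¹ ≤ 1 := inv_le_one_of_one_le₀ h1
  have h3 : 0 ≤ (kap s j x)⁻¹ := by positivity
  have := pow_le_one₀ h3 h2 (n := 4)
  linarith

theorem ff_pos (s : Fin 2) (j : Fin 3) (x : E6) (h : qq s j x ≠ 0) : 0 < ff s j x := by
  unfold ff
  have h1 : 1 < kap s j x := by
    unfold kap
    have : 0 < qq s j x ^ 2 := by positivity
    linarith
  have h2 : (kap s j x)⁻¹ < 1 := inv_lt_one_of_one_lt₀ h1
  have h3 : 0 ≤ (kap s j x)⁻¹ := by positivity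
  have := pow_lt_one₀ h3 h2 (n := 4) (by norm_num)
  linarith

theorem norm_sq_eq (x : E6) : ‖x‖ ^ 2 = (co 0 0 x ^ 2 + co 0 1 x ^ 2 + co 0 2 x ^ 2) +
    (co 1 0 x ^ 2 + co 1 1 x ^ 2 + co 1 2 x ^ 2) := by
  rw [EuclideanSpace.norm_sq_eq]
  simp only [Fin.sum_univ_succ, Real.norm_eq_abs, sq_abs, co]
  simp
  ring

theorem qq_zero {x : E6} (hx : x ∈ closedBall (0 : E6) 1) (s : Fin 2)
    (h : ∀ j, qq s j x = 0) : co s 0 x = 0 ∧ co s 1 x = 0 ∧ co s 2 x = 0 := by
  have hα := e00_pos hx s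
  have h0 := h 0
  have h1 := h 1
  have h2 := h 2
  simp only [qq, Matrix.cons_val_zero, Matrix.cons_val_one, Matrix.cons_val] at h0 h1 h2
  have hc : co s 2 x = 0 := by
    unfold e10 at h0
    rcases mul_eq_zero.mp h0 with h | h
    · exact h
    · exact absurd h hα.ne'
  have hb : co s 1 x = 0 := by
    unfold e01 at h1
    rw [neg_eq_zero] at h1
    rcases mul_eq_zero.mp h1 with h | h
    · exact absurd h hα.ne'
    · exact h
  refine ⟨?_, hb, hc⟩
  unfold e10 e11 e01 at h2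
  rw [hb, hc] at h2
  simp only [zero_mul, mul_zero, zero_add, sub_zero] at h2
  have h3 : e00 s x * e00 s x = 1 := by
    have : e00 s x = (e00 s x)⁻¹ := by linarith
    calc e00 s x * e00 s x = e00 s x * (e00 s x)⁻¹ := by rw [← this]
      _ = 1 := mul_inv_cancel₀ hα.ne'
  have h4 : e00 s x = 1 := by nlinarith
  unfold e00 at h4
  linarith

theorem sig_pos {x : E6} (hx : x ∈ closedBall (0 : E6) 1) : 0 < sig x := by
  unfold sig
  have hsum : 0 ≤ ∑ s, ∑ j, ff s j x :=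
    Finset.sum_nonneg (fun s _ => Finset.sum_nonneg (fun j _ => ff_nonneg s j x))
  by_cases h1 : ‖x‖ = 1
  · have : 0 < ∑ s, ∑ j, ff s j x := by
      by_contra hcon
      have h0 : ∑ s, ∑ j, ff s j x = 0 := le_antisymm (not_lt.mp hcon) hsum
      rw [Finset.sum_eq_zero_iff_of_nonneg
        (fun s _ => Finset.sum_nonneg (fun j _ => ff_nonneg s j x))] at h0
      have hq : ∀ s j, qq s j x = 0 := by
        intro s j
        have h2 := h0 s (Finset.mem_univ s)
        rw [Finset.sum_eq_zero_iff_of_nonneg (fun j _ => ff_nonneg s j x)] at h2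
        by_contra h3
        exact (ff_pos s j x h3).ne' (h2 j (Finset.mem_univ j))
      have a0 := qq_zero hx 0 (hq 0)
      have a1 := qq_zero hx 1 (hq 1)
      have := norm_sq_eq x
      rw [a0.1, a0.2.1, a0.2.2, a1.1, a1.2.1, a1.2.2, h1] at this
      norm_num at this
    positivity
  · rw [mem_closedBall_zero_iff] at hx
    have h2 : ‖x‖ < 1 := lt_of_le_of_ne hx h1
    have h3 : 0 < 1 - ‖x‖ ^ 2 := by nlinarith [norm_nonneg x]
    positivity

theorem lam_ne {x : E6} (hx : x ∈ closedBall (0 : E6) 1) (i : Idx) : lam i x ≠ 0 := by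
  rcases i with i | (i | i) | p | u
  · simp only [lam]
    positivity
  · simp only [lam]
    have := (abs_le.mp (coord_le hx i)).1
    linarith
  · simp only [lam]
    have := (abs_le.mp (coord_le hx i)).1
    linarith
  · exact (zero_lt_one.trans_le (kap_ge _ _ x)).ne'
  · exact (sig_pos hx).ne'

theorem cd_coord (i : Fin 6) (x : E6) : ContDiffAt ℝ 1 (fun x : E6 => x i) x := by
  fun_prop

theorem cd_co (s : Fin 2) (j : Fin 3) (x : E6) : ContDiffAt ℝ 1 (co s j) x := cd_coord _ x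

theorem cd_e00 (s : Fin 2) (x : E6) : ContDiffAt ℝ 1 (e00 s) x :=
  (contDiffAt_const.add (cd_co s 0 x)).div_const 2

theorem cd_e01 (s : Fin 2) (x : E6) : ContDiffAt ℝ 1 (e01 s) x :=
  (cd_e00 s x).mul (cd_co s 1 x)

theorem cd_e10 (s : Fin 2) (x : E6) : ContDiffAt ℝ 1 (e10 s) x :=
  (cd_co s 2 x).mul (cd_e00 s x)

theorem cd_e11 (s : Fin 2) {x : E6} (hx : x ∈ closedBall (0 : E6) 1) :
    ContDiffAt ℝ 1 (e11 s) x :=
  (((cd_co s 2 x).mul (cd_e00 s x)).mul (cd_co s 1 x)).add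
    ((cd_e00 s x).inv (e00_pos hx s).ne')

theorem cd_qq (s : Fin 2) (j : Fin 3) {x : E6} (hx : x ∈ closedBall (0 : E6) 1) :
    ContDiffAt ℝ 1 (qq s j) x := by
  fin_cases j
  · exact cd_e10 s x
  · exact (cd_e01 s x).neg
  · exact (((cd_e10 s x).add (cd_e00 s x)).sub (cd_e11 s hx)).sub (cd_e01 s x)

theorem cd_kap (s : Fin 2) (j : Fin 3) {x : E6} (hx : x ∈ closedBall (0 : E6) 1) :
    ContDiffAt ℝ 1 (kap s j) x :=
  contDiffAt_const.add ((cd_qq s j hx).pow 2)

theorem cd_ff (s : Fin 2) (j : Fin 3) {x : E6} (hx : x ∈ closedBall (0 : E6) 1) :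
    ContDiffAt ℝ 1 (ff s j) x :=
  contDiffAt_const.sub (((cd_kap s j hx).inv (zero_lt_one.trans_le (kap_ge _ _ x)).ne').pow 4)

theorem cd_sig {x : E6} (hx : x ∈ closedBall (0 : E6) 1) : ContDiffAt ℝ 1 sig x := by
  unfold sig
  refine ContDiffAt.add ?_ ?_
  · exact ContDiffAt.sum (fun s _ => ContDiffAt.sum (fun j _ => cd_ff s j hx))
  · exact (contDiffAt_const.sub (contDiff_norm_sq ℝ).contDiffAt).pow 2

theorem cd_lam {x : E6} (hx : x ∈ closedBall (0 : E6) 1) (i : Idx) :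
    ContDiffAt ℝ 1 (lam i) x := by
  rcases i with i | (i | i) | p | u
  · exact contDiffAt_const
  · exact contDiffAt_const.add (cd_coord i x)
  · exact contDiffAt_const.add (cd_coord i x)
  · exact cd_kap _ _ hx
  · exact cd_sig hx

/-- the finite set of pairs of units on the sphere -/
def LL : Set (As × As) := Set.range (fun i : Idx => (rho (lam i), rho (lam i)⁻¹))

theorem LL_finite : LL.Finite := Set.finite_range _

theorem mem_ball_of_sphere (s : S5) : s.1 ∈ closedBall (0 : E6) 1 := by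
  rw [mem_closedBall_zero_iff]; exact s.2.le

theorem LL_inv : ∀ p ∈ LL, p.1 * p.2 = 1 := by
  rintro _ ⟨i, rfl⟩
  funext s
  simp only [Pi.mul_apply, rho_apply, Pi.inv_apply, Pi.one_apply]
  exact mul_inv_cancel₀ (lam_ne (mem_ball_of_sphere s) i)

theorem sq_mem (i : Idx) : rho (lam i) ^ 2 ∈ R0 LL :=
  Subring.subset_closure ⟨_, ⟨i, rfl⟩, Or.inl rfl⟩

theorem inv_sq_mem (i : Idx) : rho (lam i)⁻¹ ^ 2 ∈ R0 LL :=
  Subring.subset_closure ⟨_, ⟨i, rfl⟩, Or.inr rfl⟩

theorem inv_mem_of (i : Idx) (h : rho (lam i) ∈ R0 LL) : rho (lam i)⁻¹ ∈ R0 LL := by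
  have e : rho (lam i)⁻¹ = rho (lam i) * rho (lam i)⁻¹ ^ 2 := by
    funext s
    simp only [Pi.mul_apply, rho_apply, Pi.inv_apply, Pi.pow_apply]
    have := lam_ne (mem_ball_of_sphere s) i
    field_simp
  rw [e]
  exact (R0 LL).mul_mem h (inv_sq_mem i)

theorem nat_mem (n : ℕ) : rho (fun _ => (n : ℝ)) ∈ R0 LL := by
  have : rho (fun _ => (n : ℝ)) = (n : As) := by
    funext s; simp
  rw [this]
  exact natCast_mem _ n

theorem half_mem : rho (fun _ => (1 / 2 : ℝ)) ∈ R0 LL := by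
  have h := inv_mem_of (Sum.inl 0) (by
    have := nat_mem 2
    convert this using 2
    funext x
    simp [lam])
  convert h using 2
  funext x
  simp [lam]

theorem third_mem : rho (fun _ => (1 / 3 : ℝ)) ∈ R0 LL := by
  have h := inv_mem_of (Sum.inl 1) (by
    have := nat_mem 3
    convert this using 2
    funext x
    simp [lam]
    norm_num)
  convert h using 2
  funext x
  simp [lam]
  norm_num

theorem coord_mem (i : Fin 6) : rho (fun x => x i) ∈ R0 LL := by
  have e : rho (fun x => x i) = (rho (lam (Sum.inr (Sum.inl (Sum.inr i)))) ^ 2 -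
      rho (lam (Sum.inr (Sum.inl (Sum.inl i)))) ^ 2 - rho (fun _ => ((5 : ℕ) : ℝ))) *
      rho (fun _ => (1 / 2 : ℝ)) := by
    funext s
    simp only [Pi.mul_apply, Pi.sub_apply, rho_apply, Pi.pow_apply, lam]
    push_cast
    ring
  rw [e]
  exact (R0 LL).mul_mem ((R0 LL).sub_mem ((R0 LL).sub_mem (sq_mem _) (sq_mem _)) (nat_mem 5))
    half_mem

theorem co_mem (s : Fin 2) (j : Fin 3) : rho (co s j) ∈ R0 LL := coord_mem _

theorem e00_mem (s : Fin 2) : rho (e00 s) ∈ R0 LL := by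
  have e : rho (e00 s) = (rho (fun _ => ((2 : ℕ) : ℝ)) + rho (co s 0)) *
      rho (fun _ => (1 / 2 : ℝ)) := by
    funext t
    simp only [Pi.mul_apply, Pi.add_apply, rho_apply, e00]
    push_cast
    ring
  rw [e]
  exact (R0 LL).mul_mem ((R0 LL).add_mem (nat_mem 2) (co_mem s 0)) half_mem

theorem e00_inv_mem (s : Fin 2) : rho (e00 s)⁻¹ ∈ R0 LL := by
  set i : Idx := Sum.inr (Sum.inl (Sum.inl (![![0, 1, 2], ![3, 4, 5]] s 0))) with hi
  have h1 : rho (lam i) ∈ R0 LL := by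
    have : rho (lam i) = rho (fun _ => ((2 : ℕ) : ℝ)) + rho (co s 0) := by
      funext t
      simp only [Pi.add_apply, rho_apply, co, hi, lam]
      push_cast
      ring
    rw [this]
    exact (R0 LL).add_mem (nat_mem 2) (co_mem s 0)
  have e : rho (e00 s)⁻¹ = rho (fun _ => ((2 : ℕ) : ℝ)) * rho (lam i)⁻¹ := by
    funext t
    simp only [Pi.mul_apply, rho_apply, Pi.inv_apply, e00, co, hi, lam]
    push_cast
    rw [inv_div]
    ring
  rw [e]
  exact (R0 LL).mul_mem (nat_mem 2) (inv_mem_of i h1)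

theorem e01_mem (s : Fin 2) : rho (e01 s) ∈ R0 LL := (R0 LL).mul_mem (e00_mem s) (co_mem s 1)
theorem e10_mem (s : Fin 2) : rho (e10 s) ∈ R0 LL := (R0 LL).mul_mem (co_mem s 2) (e00_mem s)
theorem e11_mem (s : Fin 2) : rho (e11 s) ∈ R0 LL :=
  (R0 LL).add_mem ((R0 LL).mul_mem ((R0 LL).mul_mem (co_mem s 2) (e00_mem s)) (co_mem s 1))
    (e00_inv_mem s)

theorem qq_mem (s : Fin 2) (j : Fin 3) : rho (qq s j) ∈ R0 LL := by
  fin_cases j
  · exact e10_mem s
  · exact (R0 LL).neg_mem (e01_mem s)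
  · exact (R0 LL).sub_mem ((R0 LL).sub_mem ((R0 LL).add_mem (e10_mem s) (e00_mem s))
      (e11_mem s)) (e01_mem s)

theorem kap_mem (s : Fin 2) (j : Fin 3) : rho (kap s j) ∈ R0 LL :=
  (R0 LL).add_mem (R0 LL).one_mem ((R0 LL).pow_mem (qq_mem s j) 2)

theorem ff_mem (s : Fin 2) (j : Fin 3) : rho (ff s j) ∈ R0 LL :=
  (R0 LL).sub_mem (R0 LL).one_mem ((R0 LL).pow_mem
    (inv_mem_of (Sum.inr (Sum.inr (Sum.inl (s, j)))) (kap_mem s j)) 4)

theorem rho_sig : rho sig = ∑ s, ∑ j, rho (ff s j) := by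
  funext t
  simp [sig, t.2]

theorem sig_mem : rho sig ∈ R0 LL := by
  rw [rho_sig]
  exact (R0 LL).sum_mem (fun s _ => (R0 LL).sum_mem (fun j _ => ff_mem s j))

theorem LL_R0 : ∀ p ∈ LL, p.1 ∈ R0 LL := by
  rintro _ ⟨i, rfl⟩
  rcases i with i | (i | i) | p | u
  · have := nat_mem (i.1 + 2)
    convert this using 2
    funext x
    simp [lam]
  · have : rho (lam (Sum.inr (Sum.inl (Sum.inl i)))) =
        rho (fun _ => ((2 : ℕ) : ℝ)) + rho (fun x => x i) := by
      funext t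
      simp only [Pi.add_apply, rho_apply, lam]
      push_cast
      ring
    change rho (lam (Sum.inr (Sum.inl (Sum.inl i)))) ∈ _
    rw [this]
    exact (R0 LL).add_mem (nat_mem 2) (coord_mem i)
  · have : rho (lam (Sum.inr (Sum.inl (Sum.inr i)))) =
        rho (fun _ => ((3 : ℕ) : ℝ)) + rho (fun x => x i) := by
      funext t
      simp only [Pi.add_apply, rho_apply, lam]
      push_cast
      ring
    change rho (lam (Sum.inr (Sum.inl (Sum.inr i)))) ∈ _
    rw [this]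
    exact (R0 LL).add_mem (nat_mem 3) (coord_mem i)
  · exact kap_mem _ _
  · exact sig_mem

theorem e00_mul_inv (s : Fin 2) : rho (e00 s) * rho (e00 s)⁻¹ = 1 := by
  funext t
  simp only [Pi.mul_apply, rho_apply, Pi.inv_apply, Pi.one_apply]
  exact mul_inv_cancel₀ (e00_pos (mem_ball_of_sphere t) s).ne'

/-- The two special elements -/
def uu (s : Fin 2) : SpecialLinearGroup (Fin 2) As :=
  E21 (rho (co s 2)) * D _ _ (e00_mul_inv s) * E12 (rho (co s 1))

theorem uu_00 (s : Fin 2) : uu s 0 0 = rho (e00 s) := by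
  simp [uu, mul_00, mul_01, mul_10, mul_11, -SpecialLinearGroup.coe_mul]
theorem uu_01 (s : Fin 2) : uu s 0 1 = rho (e01 s) := by
  simp only [uu, mul_00, mul_01, mul_10, mul_11, E21_00, E21_01, E21_10, E21_11, D_00, D_01,
    D_10, D_11, E12_00, E12_01, E12_10, E12_11]
  funext t
  simp [e01]
theorem uu_10 (s : Fin 2) : uu s 1 0 = rho (e10 s) := by
  simp only [uu, mul_00, mul_01, mul_10, mul_11, E21_00, E21_01, E21_10, E21_11, D_00, D_01,
    D_10, D_11, E12_00, E12_01, E12_10, E12_11]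
  funext t
  simp [e10]
theorem uu_11 (s : Fin 2) : uu s 1 1 = rho (e11 s) := by
  simp only [uu, mul_00, mul_01, mul_10, mul_11, E21_00, E21_01, E21_10, E21_11, D_00, D_01,
    D_10, D_11, E12_00, E12_01, E12_10, E12_11]
  funext t
  simp [e11]

theorem uu_entries (s : Fin 2) : ∀ i j, uu s i j ∈ R0 LL := by
  intro i j
  fin_cases i <;> fin_cases j
  · change uu s 0 0 ∈ _; rw [uu_00]; exact e00_mem s
  · change uu s 0 1 ∈ _; rw [uu_01]; exact e01_mem s
  · change uu s 1 0 ∈ _; rw [uu_10]; exact e10_mem s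
  · change uu s 1 1 ∈ _; rw [uu_11]; exact e11_mem s

theorem q_uu (s : Fin 2) (j : Fin 3) : q (uu s) j = rho (qq s j) := by
  fin_cases j
  · exact uu_10 s
  · change -uu s 0 1 = _
    rw [uu_01]; rfl
  · change uu s 1 0 + uu s 0 0 - uu s 1 1 - uu s 0 1 = _
    rw [uu_00, uu_01, uu_10, uu_11]; rfl

theorem uu_mem (s : Fin 2) : uu s ∈ Gr LL := by
  unfold uu
  refine (Gr LL).mul_mem ((Gr LL).mul_mem (E21_mem LL_inv (co_mem s 2)) ?_)
    (E12_mem LL_inv (co_mem s 1))
  rw [D_eq, E21_neg, E12_neg]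
  exact (Gr LL).mul_mem ((Gr LL).mul_mem ((Gr LL).mul_mem ((Gr LL).mul_mem ((Gr LL).mul_mem
    (E12_mem LL_inv (e00_mem s)) ((Gr LL).inv_mem (E21_mem LL_inv (e00_inv_mem s))))
    (E12_mem LL_inv (e00_mem s)))
    ((Gr LL).inv_mem E12_one_mem)) E21_one_mem) ((Gr LL).inv_mem E12_one_mem)

theorem E12_sum_mem (H : Subgroup (SpecialLinearGroup (Fin 2) As)) {ι : Type*} (t : Finset ι)
    (f : ι → As) (hf : ∀ i ∈ t, E12 (f i) ∈ H) : E12 (∑ i ∈ t, f i) ∈ H := by
  classical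
  induction t using Finset.induction_on with
  | empty => rw [Finset.sum_empty, E12_zero]; exact H.one_mem
  | insert a t ha ih =>
    rw [Finset.sum_insert ha, E12_add]
    exact H.mul_mem (hf _ (Finset.mem_insert_self _ _))
      (ih (fun i hi => hf i (Finset.mem_insert_of_mem hi)))

/-- a subgroup normalised by the group and containing the two elements is everything -/
theorem le_of_uu (H : Subgroup (SpecialLinearGroup (Fin 2) As))
    (hn : ∀ g ∈ Gr LL, ∀ h ∈ H, g * h * g⁻¹ ∈ H) (hu : ∀ s, uu s ∈ H) : Gr LL ≤ H := by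
  refine le_of_one LL_inv LL_R0 H hn ?_
  have h1 : ∀ s j, E12 (rho (ff s j)) ∈ H := by
    intro s j
    refine extract_q LL_inv LL_R0 H hn (uu s) (hu s) (uu_entries s) j (rho (kap s j)⁻¹) ?_
    refine ⟨Sum.inr (Sum.inr (Sum.inl (s, j))), ?_⟩
    rw [q_uu]
    rfl
  have h2 : E12 (rho sig) ∈ H := by
    rw [rho_sig]
    exact E12_sum_mem H _ _ (fun s _ => E12_sum_mem H _ _ (fun j _ => h1 s j))
  have h3 := mul_of_R0 LL_inv H hn (inv_mem_of (Sum.inr (Sum.inr (Sum.inr ()))) sig_mem) h2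
  have h4 : rho (lam (Sum.inr (Sum.inr (Sum.inr ()))))⁻¹ * rho sig = 1 := by
    rw [mul_comm]
    exact LL_inv _ ⟨Sum.inr (Sum.inr (Sum.inr ())), rfl⟩
  rwa [h4] at h3

end

end Pool.Agent.Helper667.Sphere
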